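import Mathlib
import Pool.Agent.Helper9.NS
import Pool.Agent.Helper40.CX.H17FF.Approx
import Pool.Agent.Helper40.CX.H51EW.Defs
import Pool.Agent.Helper40.CX.H83VF.Vals
import Pool.Agent.Helper40.CX.H83QF.Sum
import Pool.Agent.Helper40.CX.H83QF.Bc
import Pool.Agent.Helper40.CX.H83KV.App
import Pool.Agent.Helper40.CX.Good2

namespace CX

/-!
# TORS: definitions

Closed subsets of projective space as varieties, points of short Weierstrass curves and their
reduction at a place, the data describing an arbitrary genus one fibration over the projective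
line with given Jacobian fibration, and its models at the places of the splitting field.
-/

set_option linter.unusedSectionVars false

namespace Pool.Agent.Helper21.TO

open VC VF Function Polynomial
open Pool.Agent.Helper51.EW (Wei WPt aff zeroPt)

universe u

/-! ### Decidability of equality in fields, fixed once and for all -/

/-- Equality in a field is decidable (classically). -/
noncomputable scoped instance (priority := 10000) fieldDec {F : Type*} [Field F] :
    DecidableEq F := Classical.decEq F

/-! ### Cycles killed by all functionals, Voisin's property -/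

/-- The cycle `z` is killed by all functions which vanish on the cycles rationally equivalent to
zero (hence it is torsion modulo rational equivalence). -/
def Nul {k : Type u} [Field k] (X : Variety k) (z : X.Cycles) : Prop :=
  ∀ φ : X.Pt → ℂ, Kills X φ → Finsupp.linearCombination ℤ φ z = 0

/-- Voisin's property for `n` zero-cycles of degree zero on `X`: the alternating sum of their
exterior products is torsion modulo rational equivalence. -/
def Voisin {k : Type u} [Field k] (X : Variety k) (n : ℕ) : Prop :=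
  ∀ a : Fin n → X.Cycles, (∀ i, (a i).sum (fun _ c => c) = 0) →
    ∃ m : ℕ, 0 < m ∧ m • ∑ σ : Equiv.Perm (Fin n), ((Equiv.Perm.sign σ : ℤˣ) : ℤ) •
      extProd (fun i => a (σ i)) ∈ (X.pow n).Rat

section nul

variable {k : Type u} [Field k] {X : Variety k}

lemma Nul.zero : Nul X 0 := fun _ _ => map_zero _

lemma Nul.add {z w : X.Cycles} (h : Nul X z) (h' : Nul X w) : Nul X (z + w) := by
  intro φ hφ
  rw [map_add, h φ hφ, h' φ hφ, add_zero]

lemma Nul.neg {z : X.Cycles} (h : Nul X z) : Nul X (-z) := by
  intro φ hφ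
  rw [map_neg, h φ hφ, neg_zero]

lemma Nul.sub {z w : X.Cycles} (h : Nul X z) (h' : Nul X w) : Nul X (z - w) := by
  intro φ hφ
  rw [map_sub, h φ hφ, h' φ hφ, sub_zero]

lemma Nul.zsmul {z : X.Cycles} (h : Nul X z) (n : ℤ) : Nul X (n • z) := by
  intro φ hφ
  rw [map_smul, h φ hφ, smul_zero]

lemma Nul.nsmul {z : X.Cycles} (h : Nul X z) (n : ℕ) : Nul X (n • z) := by
  intro φ hφ
  rw [map_nsmul, h φ hφ, smul_zero]

end nul

/-! ### Closed subsets of projective space -/

/-- The points with coordinates in `K` of the closed subset of the projective space `P^(M-1)`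
over `k` defined by the forms contained in `I`. -/
def PPt (k : Type u) [Field k] (K : Type u) [Field K] [Algebra k K] {M : ℕ}
    (I : Set (MvPolynomial (Fin M) k)) : Type u :=
  {x : Projectivization K (Fin M → K) //
    ∀ P ∈ I, ∀ n, P.IsHomogeneous n → MvPolynomial.aeval x.rep P = 0}

/-- The vector `a` satisfies the equations `I`. -/
def Sat {k : Type u} [Field k] {K : Type u} [Field K] [Algebra k K] {M : ℕ}
    (I : Set (MvPolynomial (Fin M) k)) (a : Fin M → K) : Prop :=
  ∀ P ∈ I, ∀ n, P.IsHomogeneous n → MvPolynomial.aeval a P = 0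

section points

variable {k : Type u} [Field k] {K : Type u} [Field K] [Algebra k K] {M : ℕ}
  {I : Set (MvPolynomial (Fin M) k)}

lemma aeval_smul' {n : ℕ} {F : MvPolynomial (Fin M) k} (hF : F.IsHomogeneous n) (l : K)
    (a : Fin M → K) : MvPolynomial.aeval (fun i => l * a i) F =
      l ^ n * MvPolynomial.aeval a F := by
  rw [MvPolynomial.aeval_def, MvPolynomial.aeval_def, MvPolynomial.eval₂_eq',
    MvPolynomial.eval₂_eq', Finset.mul_sum]
  apply Finset.sum_congr rfl
  intro d hd
  have h1 : ∑ i, d i = n := by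
    have := hF (MvPolynomial.mem_support_iff.mp hd)
    rw [Finsupp.weight_apply, Finsupp.sum_fintype _ _ (fun i => by simp)] at this
    simpa using this
  simp only [mul_pow, Finset.prod_mul_distrib]
  rw [Finset.prod_pow_eq_pow_sum, h1]
  ring

lemma Sat.smul {a : Fin M → K} (h : Sat I a) (l : K) : Sat I (fun i => l * a i) := by
  intro P hP n hn
  rw [aeval_smul' hn, h P hP n hn, mul_zero]

lemma sat_rep_iff (a : Fin M → K) (ha : a ≠ 0) :
    Sat I (Projectivization.mk K a ha).rep ↔ Sat I a := by
  obtain ⟨c, hc⟩ := Projectivization.exists_smul_eq_mk_rep K a ha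
  rw [← hc]
  have e : (c • a) = fun i => (c : K) * a i := by
    funext i
    rw [Pi.smul_apply, Units.smul_def, smul_eq_mul]
  rw [e]
  constructor
  · intro h
    have := h.smul ((c⁻¹ : Kˣ) : K)
    have e2 : (fun i => ((c⁻¹ : Kˣ) : K) * ((c : K) * a i)) = a := by
      funext i
      rw [← mul_assoc, Units.inv_mul, one_mul]
    rwa [e2] at this
  · intro h
    exact h.smul _

/-- The point with given homogeneous coordinates. -/
def ppt (a : Fin M → K) (ha : a ≠ 0) (h : Sat I a) : PPt k K I :=
  ⟨Projectivization.mk K a ha, (sat_rep_iff a ha).mpr h⟩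

lemma exists_ppt (x : PPt k K I) : ∃ a ha h, x = ppt (I := I) a ha h := by
  refine ⟨x.1.rep, x.1.rep_nonzero, x.2, ?_⟩
  apply Subtype.ext
  exact x.1.mk_rep.symm

lemma ppt_eq_iff {a b : Fin M → K} {ha : a ≠ 0} {hb : b ≠ 0} {h : Sat I a} {h' : Sat I b} :
    ppt a ha h = ppt b hb h' ↔ ∃ c : K, ∀ i, c * b i = a i := by
  have e : ppt a ha h = ppt b hb h' ↔
      Projectivization.mk K a ha = Projectivization.mk K b hb :=
    ⟨fun hh => congrArg Subtype.val hh, fun hh => Subtype.ext hh⟩
  rw [e, Projectivization.mk_eq_mk_iff']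
  constructor
  · rintro ⟨c, hc⟩
    exact ⟨c, fun i => by rw [← hc]; rfl⟩
  · rintro ⟨c, hc⟩
    exact ⟨c, funext hc⟩

/-- Proportional vectors give the same point. -/
lemma ppt_eq_of_cross {a b : Fin M → K} {ha : a ≠ 0} {hb : b ≠ 0} {h : Sat I a} {h' : Sat I b}
    (hc : ∀ i j, a i * b j = a j * b i) : ppt a ha h = ppt b hb h' := by
  rw [ppt_eq_iff]
  obtain ⟨j, hj⟩ := Function.ne_iff.mp hb
  have hj' : b j ≠ 0 := hj
  refine ⟨a j * (b j)⁻¹, fun i => ?_⟩
  have := hc i j
  field_simp
  linear_combination -this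

end points

section value

variable {k K : Type u} [Field k] [Field K] [Algebra k K] {M : ℕ} {v : Place k K}
  {I : Set (MvPolynomial (Fin M) k)}

lemma isRes_mvaeval {a : Fin M → K} {b : Fin M → k} (h : ∀ i, IsRes v (a i) (b i))
    (F : MvPolynomial (Fin M) k) :
    IsRes v (MvPolynomial.aeval a F) (MvPolynomial.aeval b F) := by
  induction F using MvPolynomial.induction_on with
  | C a =>
    rw [MvPolynomial.algHom_C, MvPolynomial.algHom_C]
    exact isRes_const a
  | add p q hp hq => rw [map_add, map_add]; exact hp.add hq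
  | mul_X p i hp =>
    rw [map_mul, map_mul, MvPolynomial.aeval_X, MvPolynomial.aeval_X]
    exact hp.mul (h i)

lemma value_sat {x : Projectivization K (Fin M → K)} {p : Projectivization k (Fin M → k)}
    (h : IsValue v x p) (hx : Sat I x.rep) : Sat I p.rep := by
  obtain ⟨a, ha, b, hb, rfl, rfl, hv⟩ := h
  rw [sat_rep_iff] at hx ⊢
  intro P hP n hn
  have h1 : IsRes v (MvPolynomial.aeval a P) (MvPolynomial.aeval b P) := isRes_mvaeval hv P
  rw [hx P hP n hn] at h1
  exact h1.unique isRes_zero

variable [IsAlgClosed k] [CX.Good k]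

/-- A morphism from a curve has a value at every point. -/
lemma exists_pvalue (hK : IsFunctionField k K) (x : PPt k K I) (v : Place k K) :
    ∃ p : PPt k k I, IsValue v x.1 p.1 := by
  obtain ⟨p, hp⟩ := exists_isValue hK v x.1
  exact ⟨⟨p, value_sat hp x.2⟩, hp⟩

end value

/-- The closed subset of the projective space `P^(M-1)` defined by the forms contained in `I`. A
morphism to it from the smooth projective curve with function field `K` is the same as a point
with coordinates in `K`; its value at a place `v` of `K` is obtained by scaling the coordinates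
so that all of them are regular at `v` and not all of them vanish at `v`, and evaluating them at
`v`. -/
noncomputable abbrev proj (k : Type u) [Field k] [IsAlgClosed k] [CX.Good k] {M : ℕ}
    (I : Set (MvPolynomial (Fin M) k)) : Variety k where
  Pt := PPt k k I
  Mor K _ _ := PPt k K I
  eval hK x v := (exists_pvalue hK x v).choose

section eval

variable {k K : Type u} [Field k] [IsAlgClosed k] [CX.Good k] [Field K] [Algebra k K] {M : ℕ}
  {I : Set (MvPolynomial (Fin M) k)}

lemma peval_eq (hK : IsFunctionField k K) (v : Place k K) {a : Fin M → K} {b : Fin M → k}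
    (ha : a ≠ 0) (h : Sat I a) (hb : b ≠ 0) (h' : Sat I b) (hv : ∀ i, IsRes v (a i) (b i)) :
    (proj k I).eval hK (ppt a ha h) v = ppt b hb h' := by
  apply Subtype.ext
  exact value_unique (exists_pvalue hK (ppt a ha h) v).choose_spec ⟨a, ha, b, hb, rfl, rfl, hv⟩

/-- The value, for coordinates which are regular after multiplication by `c`. -/
lemma peval_eq' (hK : IsFunctionField k K) (v : Place k K) {a : Fin M → K} {b : Fin M → k}
    (ha : a ≠ 0) (h : Sat I a) (hb : b ≠ 0) (h' : Sat I b) (c : K)
    (hv : ∀ i, IsRes v (c * a i) (b i)) :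
    (proj k I).eval hK (ppt a ha h) v = ppt b hb h' := by
  have hca : (fun i => c * a i) ≠ 0 := res_ne_zero hb hv
  have e : ppt a ha h = ppt (fun i => c * a i) hca (h.smul c) := by
    apply ppt_eq_of_cross
    intro i j
    ring
  rw [e]
  exact peval_eq hK v hca (h.smul c) hb h' hv

/-- Coordinates adapted to a place. -/
lemma exists_pcoord (hK : IsFunctionField k K) (v : Place k K) (x : PPt k K I) :
    ∃ (a : Fin M → K) (ha : a ≠ 0) (h : Sat I a) (b : Fin M → k) (hb : b ≠ 0)
      (h' : Sat I b), x = ppt a ha h ∧ (proj k I).eval hK x v = ppt b hb h' ∧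
      ∀ i, IsRes v (a i) (b i) := by
  obtain ⟨p, hp⟩ := exists_pvalue hK x v
  obtain ⟨a, ha, b, hb, h1, h2, hv⟩ := id hp
  have h3 : Sat I a := by
    have := x.2
    change Sat I x.1.rep at this
    rwa [h1, sat_rep_iff] at this
  have h4 : Sat I b := by
    have := p.2
    change Sat I p.1.rep at this
    rwa [h2, sat_rep_iff] at this
  have h5 : x = ppt a ha h3 := Subtype.ext h1
  refine ⟨a, ha, h3, b, hb, h4, h5, ?_, hv⟩
  rw [h5]
  exact peval_eq hK v ha h3 hb h4 hv

/-- Constant morphisms. -/
lemma pconst (K : Type u) [Field K] [Algebra k K] (hK : IsFunctionField k K)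
    (p : (proj k I).Pt) : ∃ c : (proj k I).Mor K, ∀ v, (proj k I).eval hK c v = p := by
  obtain ⟨b, hb, h, rfl⟩ := exists_ppt p
  have h1 : (fun i => algebraMap k K (b i)) ≠ 0 := by
    obtain ⟨j, hj⟩ := Function.ne_iff.mp hb
    intro h0
    exact hj ((_root_.map_eq_zero _).mp (congrFun h0 j))
  have h2 : Sat I (fun i => algebraMap k K (b i)) := by
    intro P hP n hn
    have e : MvPolynomial.aeval (fun i => algebraMap k K (b i)) P =
        algebraMap k K (MvPolynomial.aeval b P) := MvPolynomial.aeval_algebraMap_apply K b P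
    rw [e, h P hP n hn, map_zero]
  exact ⟨ppt _ h1 h2, fun v => peval_eq hK v h1 h2 hb h (fun i => isRes_const _)⟩

end eval

/-! ### Changing the field -/

/-- The place `w` of `K` lies over the place `v` of `L`, for the embedding `ι` of `L` in `K`: if
the function `z` has the value `c` at `v` then `ι z` has the value `c` at `w`. -/
def Over {k L K : Type u} [Field k] [Field L] [Algebra k L] [Field K] [Algebra k K]
    (v : Place k L) (ι : L →ₐ[k] K) (w : Place k K) : Prop :=
  ∀ (z : L) (c : k), IsRes v z c → IsRes w (ι z) c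

section overs

variable {k : Type u} [Field k] [IsAlgClosed k] [CX.Good k] {L K : Type u} [Field L]
  [Algebra k L] [Field K] [Algebra k K]

lemma over_comap (hL : IsFunctionField k L) (hK : IsFunctionField k K) (ι : L →ₐ[k] K)
    (w : Place k K) : Over (Place.comap hL hK ι w) ι w := by
  intro z c h
  have h5 : z - algebraMap k L c ∈ (w.ring.comap ι.toRingHom).nonunits := h
  rw [mem_nonunits_comap] at h5
  have h6 : ι.toRingHom (z - algebraMap k L c) = ι z - algebraMap k K c := by
    change ι (z - algebraMap k L c) = _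
    rw [map_sub, AlgHom.commutes]
  rw [h6] at h5
  exact h5

lemma over_res [Algebra L K] [IsScalarTower k L K] (hL : IsFunctionField k L)
    (hK : IsFunctionField k K) (w : Place k K) :
    Over (VQ.res hL hK w) (IsScalarTower.toAlgHom k L K) w :=
  over_comap hL hK _ w

lemma Over.comp {K' : Type u} [Field K'] [Algebra k K'] {v : Place k L} {w : Place k K}
    {w' : Place k K'} {ι : L →ₐ[k] K} {κ : K →ₐ[k] K'} (h : Over v ι w) (h' : Over w κ w') :
    Over v (κ.comp ι) w' := fun z c hz => h' _ _ (h z c hz)

lemma Over.eq_comap (hL : IsFunctionField k L) (hK : IsFunctionField k K) {ι : L →ₐ[k] K}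
    {v : Place k L} {w : Place k K} (h : Over v ι w) : v = Place.comap hL hK ι w := by
  apply FF.place_eq_of_le hL
  intro z hz
  obtain ⟨c, hc⟩ := exists_res hL hz
  exact (h z c hc).mem

/-- Functions with a pole. -/
lemma Over.notMem {ι : L →ₐ[k] K} {v : Place k L} {w : Place k K} (h : Over v ι w) {z : L}
    (hz : z ∉ v.ring) : ι z ∉ w.ring := by
  have h0 : z ≠ 0 := by
    rintro rfl
    exact hz v.ring.zero_mem
  have h1 : z⁻¹ ∈ v.ring.nonunits := by
    rw [ValuationSubring.mem_nonunits_iff_or]
    right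
    rwa [inv_inv]
  have h2 := isRes_zero_iff.mp (h _ _ (isRes_zero_iff.mpr h1))
  rw [ValuationSubring.mem_nonunits_iff_or] at h2
  rcases h2 with h2 | h2
  · rw [map_inv₀] at h2
    exact absurd (inv_eq_zero.mp h2) ((_root_.map_ne_zero ι).mpr h0)
  · rwa [map_inv₀, inv_inv] at h2

lemma Over.isRes_iff (hL : IsFunctionField k L) {ι : L →ₐ[k] K} {v : Place k L} {w : Place k K}
    (h : Over v ι w) {z : L} {c : k} : IsRes w (ι z) c ↔ IsRes v z c := by
  refine ⟨fun h1 => ?_, fun h1 => h z c h1⟩
  have h2 : z ∈ v.ring := by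
    by_contra hz
    exact h.notMem hz h1.mem
  obtain ⟨d, hd⟩ := exists_res hL h2
  have h3 := (h z d hd).unique h1
  rwa [h3] at hd

/-- Points with coordinates in a larger field. -/
lemma ppull {M : ℕ} {I : Set (MvPolynomial (Fin M) k)} [Algebra L K] [IsScalarTower k L K]
    (hL : IsFunctionField k L) (hK : IsFunctionField k K) (c : (proj k I).Mor L) :
    ∃ c' : (proj k I).Mor K, ∀ w : Place k K,
      (proj k I).eval hK c' w = (proj k I).eval hL c (VQ.res hL hK w) := by
  obtain ⟨a, ha, h, rfl⟩ := exists_ppt c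
  have h1 : (fun i => algebraMap L K (a i)) ≠ 0 := by
    obtain ⟨j, hj⟩ := Function.ne_iff.mp ha
    intro h0
    exact hj ((_root_.map_eq_zero _).mp (congrFun h0 j))
  have h2 : ∀ a : Fin M → L, Sat I a → Sat I (fun i => algebraMap L K (a i)) := by
    intro a h P hP n hn
    have e : MvPolynomial.aeval (fun i => algebraMap L K (a i)) P =
        algebraMap L K (MvPolynomial.aeval a P) := MvPolynomial.aeval_algebraMap_apply K a P
    rw [e, h P hP n hn, map_zero]
  refine ⟨ppt _ h1 (h2 a h), fun w => ?_⟩
  obtain ⟨a', ha', h', b, hb, hb', e1, e2, hv⟩ := exists_pcoord hL (VQ.res hL hK w)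
    (ppt a ha h)
  rw [e2]
  have h3 : (fun i => algebraMap L K (a' i)) ≠ 0 := by
    obtain ⟨j, hj⟩ := Function.ne_iff.mp ha'
    intro h0
    exact hj ((_root_.map_eq_zero _).mp (congrFun h0 j))
  have e3 : (ppt (fun i => algebraMap L K (a i)) h1 (h2 a h) : PPt k K I) =
      ppt (fun i => algebraMap L K (a' i)) h3 (h2 a' h') := by
    rw [ppt_eq_iff] at e1 ⊢
    obtain ⟨c, hc⟩ := e1
    exact ⟨algebraMap L K c, fun i => by rw [← map_mul, hc]⟩
  rw [e3]
  exact peval_eq hK w h3 _ hb hb' fun i => over_res hL hK w _ _ (hv i)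

end overs

/-! ### Short Weierstrass curves, their points, and reduction at a place -/

/-- The curve `y ^ 2 = x ^ 3 + a x + b`. -/
abbrev sw {R : Type*} [CommRing R] (a b : R) : WeierstrassCurve R := ⟨0, 0, 0, a, b⟩

/-- The group of nonsingular points of the curve `y ^ 2 = x ^ 3 + a x + b` (with the point at
infinity) with coordinates in the field `F`. -/
abbrev EPt {F : Type*} [Field F] (a b : F) : Type _ := (sw a b).toAffine.Point

lemma sw_equation {R : Type*} [CommRing R] {a b x y : R} :
    (sw a b).toAffine.Equation x y ↔ y ^ 2 = x ^ 3 + a * x + b := by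
  rw [WeierstrassCurve.Affine.equation_iff]
  simp

lemma sw_nonsingular {R : Type*} [CommRing R] {a b x y : R} :
    (sw a b).toAffine.Nonsingular x y ↔
      y ^ 2 = x ^ 3 + a * x + b ∧ (0 ≠ 3 * x ^ 2 + a ∨ y ≠ -y) := by
  rw [WeierstrassCurve.Affine.nonsingular_iff, sw_equation]
  simp

/-- The point with given coordinates. -/
abbrev EPt.mk {F : Type*} [Field F] {a b : F} (x y : F) (h : (sw a b).toAffine.Nonsingular x y) :
    EPt a b := WeierstrassCurve.Affine.Point.some x y h

lemma nonsingular_map {k F K : Type*} [Field k] [Field F] [Algebra k F] [Field K] [Algebra k K]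
    (f : F →ₐ[k] K) {a b x y : F} (h : (sw a b).toAffine.Nonsingular x y) :
    (sw (f a) (f b)).toAffine.Nonsingular (f x) (f y) := by
  rw [sw_nonsingular] at h ⊢
  have hinj : Function.Injective f := f.toRingHom.injective
  obtain ⟨h1, h2⟩ := h
  refine ⟨by rw [← map_pow, h1]; simp only [map_add, map_pow, map_mul], ?_⟩
  rcases h2 with h2 | h2
  · left
    intro h0
    apply h2
    apply hinj
    rw [map_zero, h0]
    simp only [map_add, map_pow, map_mul, map_ofNat]
  · right
    intro h0
    apply h2
    apply hinj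
    rw [h0, map_neg]

/-- The points of a curve in a larger field. -/
noncomputable def mapPt {k F K : Type*} [Field k] [Field F] [Algebra k F] [Field K] [Algebra k K]
    (f : F →ₐ[k] K) {a b : F} : EPt a b → EPt (f a) (f b)
  | .zero => 0
  | .some x y h => EPt.mk (f x) (f y) (nonsingular_map f h)

/-- Reduction of the points of the curve `y ^ 2 = x ^ 3 + a x + b` over `K` at the place `w`,
after multiplication of `x` and `y` by `σ ^ 2` and `σ ^ 3`. -/
def Red {k K : Type u} [Field k] [Field K] [Algebra k K] (w : Place k K) (σ : K) {a b : K}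
    {At Bt : k} : EPt a b → EPt At Bt → Prop
  | .zero, Q => Q = 0
  | .some x _ _, .zero => σ ^ 2 * x ∉ w.ring
  | .some x y _, .some X Y _ => IsRes w (σ ^ 2 * x) X ∧ IsRes w (σ ^ 3 * y) Y

/-- The scaled equation `y ^ 2 = x ^ 3 + σ ^ 4 a x + σ ^ 6 b` is regular at `w` and has the
reduction `y ^ 2 = x ^ 3 + At x + Bt`. -/
structure RedData {k K : Type u} [Field k] [Field K] [Algebra k K] (w : Place k K) (σ a b : K)
    (At Bt : k) : Prop where
  hK : IsFunctionField k K
  ne : σ ≠ 0
  hA : IsRes w (σ ^ 4 * a) At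
  hB : IsRes w (σ ^ 6 * b) Bt

/-! ### The abstract transfer -/

/-- The properties of the map from the points of the Jacobian fibration `J` to the cycles of
degree zero on `S` which are needed to carry over Voisin's property from `J` to `S`. -/
structure Link {k : Type u} [Field k] [IsAlgClosed k] [CX.Good k] (J S : Variety k)
    (cyc : J.Pt → S.Cycles) : Prop where
  constS : ∀ (K : Type u) [Field K] [Algebra k K] (hK : IsFunctionField k K) (p : S.Pt),
    ∃ c : S.Mor K, ∀ v, S.eval hK c v = p
  constJ : ∀ (K : Type u) [Field K] [Algebra k K] (hK : IsFunctionField k K) (p : J.Pt),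
    ∃ c : J.Mor K, ∀ v, J.eval hK c v = p
  pullS : ∀ (K K' : Type u) [Field K] [Algebra k K] [Field K'] [Algebra k K'] [Algebra K K']
    [IsScalarTower k K K'] (hK : IsFunctionField k K) (hK' : IsFunctionField k K')
    (c : S.Mor K), ∃ c' : S.Mor K', ∀ w, S.eval hK' c' w = S.eval hK c (VQ.res hK hK' w)
  pullJ : ∀ (K K' : Type u) [Field K] [Algebra k K] [Field K'] [Algebra k K'] [Algebra K K']
    [IsScalarTower k K K'] (hK : IsFunctionField k K) (hK' : IsFunctionField k K')
    (c : J.Mor K), ∃ c' : J.Mor K', ∀ w, J.eval hK' c' w = J.eval hK c (VQ.res hK hK' w)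
  star : ∀ (K : Type u) [Field K] [Algebra k K] (hK : IsFunctionField k K) (p : J.Mor K)
    (T : Set (Place k K)), T.Finite →
    ∃ (K' : Type u) (_ : Field K') (_ : Algebra k K') (_ : Algebra K K')
      (_ : IsScalarTower k K K') (hK' : IsFunctionField k K') (m : ℕ) (P Q : S.Mor K'), 0 < m ∧
      ∀ w : Place k K', VQ.res hK hK' w ∈ T →
        Nul S (m • cyc (J.eval hK p (VQ.res hK hK' w)) -
          (Finsupp.single (S.eval hK' P w) 1 - Finsupp.single (S.eval hK' Q w) 1))
  const : ∀ φ : S.Pt → ℂ, Kills S φ →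
    (∀ y, Finsupp.linearCombination ℤ φ (cyc y) = 0) → ∀ x x', φ x = φ x'
  zero : ∃ o, cyc o = 0

/-! ### The data -/

/-- The vector of the `p_i (x) + q_i (x) y`, for the embedding `ι` of `L` in `K`. -/
noncomputable def ev {k L K : Type u} [Field k] [Field L] [Algebra k L] [Field K] [Algebra k K]
    {M : ℕ} (p q : Fin M → L[X]) (ι : L →ₐ[k] K) (x y : K) : Fin M → K :=
  fun i => (p i).eval₂ (ι : L →+* K) x + (q i).eval₂ (ι : L →+* K) x * y

/-- The coefficient `A (1, t)`. -/
noncomputable def cA {k L : Type u} [Field k] [Field L] [Algebra k L] (W : Wei k) (t : L) : L :=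
  MvPolynomial.aeval ![1, t] W.A

/-- The coefficient `B (1, t)`. -/
noncomputable def cB {k L : Type u} [Field k] [Field L] [Algebra k L] (W : Wei k) (t : L) : L :=
  MvPolynomial.aeval ![1, t] W.B

/-- Twisting by `τ` and `e`: the point with coordinates `p_i^τ + q_i^τ y` at `P + e` is the point
with coordinates `p_i + q_i y` at `P`. -/
def Tw {k L : Type u} [Field k] [Field L] [Algebra k L] {M : ℕ} (p q : Fin M → L[X]) (a b : L)
    (τ : L ≃ₐ[k] L) (e : EPt a b) : Prop :=
  ∀ (K : Type u) [Field K] [Algebra k K] (ι : L →ₐ[k] K) (x y x' y' : K)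
    (h : (sw (ι a) (ι b)).toAffine.Nonsingular x y)
    (h' : (sw (ι a) (ι b)).toAffine.Nonsingular x' y'),
    EPt.mk x y h + mapPt ι e = EPt.mk x' y' h' →
    (∀ xe ye he, e = EPt.mk xe ye he → x ≠ ι xe) →
    ∀ i j, ev p q ι x y i * ev p q (ι.comp (τ : L →ₐ[k] L)) x' y' j =
      ev p q ι x y j * ev p q (ι.comp (τ : L →ₐ[k] L)) x' y' i

/-- The data describing a genus one fibration over the projective line with Jacobian fibration
given by `W`, after passage to a splitting field `L`, and a map to projective space. -/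
structure Dat {k : Type u} [Field k] (W : Wei k) (L : Type u) [Field L] [Algebra k L] where
  hL : IsFunctionField k L
  /-- the coordinate of the projective line -/
  t : L
  ht : Transcendental k t
  hΔ : 4 * cA W t ^ 3 + 27 * cB W t ^ 2 ≠ 0
  /-- the Galois group of `L` over `k (t)` -/
  H : Subgroup (L ≃ₐ[k] L)
  finH : Finite H
  fixt : ∀ τ ∈ H, τ t = t
  fixed : ∀ z : L, (∀ τ ∈ H, τ z = z) → z ∈ IntermediateField.adjoin k {t}
  /-- the roots of `x ^ 3 + A x + B` -/
  r : Fin 3 → L
  hr : (X ^ 3 + C (cA W t) * X + C (cB W t) : L[X]) = ∏ i, (X - C (r i))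
  /-- square roots of the differences of the roots -/
  s : Fin 3 → L
  hs : ∀ i, s i ^ 2 = r (i + 1) - r (i + 2)
  /-- the number of homogeneous coordinates -/
  M : ℕ
  /-- the equations of the surface -/
  I : Set (MvPolynomial (Fin M) k)
  p : Fin M → L[X]
  q : Fin M → L[X]
  ne : ∃ i, p i ≠ 0 ∨ q i ≠ 0
  sat : ∀ (K : Type u) [Field K] [Algebra k K] (ι : L →ₐ[k] K) (x y : K),
    y ^ 2 = x ^ 3 + ι (cA W t) * x + ι (cB W t) → Sat I (ev p q ι x y)
  tw : ∀ τ ∈ H, ∃ e, Tw p q (cA W t) (cB W t) τ e

section dat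

variable {k : Type u} [Field k] {W : Wei k} {L : Type u} [Field L] [Algebra k L]

/-- The coefficient of `x`. -/
noncomputable abbrev Dat.a (D : Dat W L) : L := cA W D.t

/-- The constant coefficient. -/
noncomputable abbrev Dat.b (D : Dat W L) : L := cB W D.t

/-- The surface. -/
noncomputable abbrev Dat.S [IsAlgClosed k] [CX.Good k] (D : Dat W L) : Variety k := proj k D.I

/-! ### Models -/

/-- A model of the genus one curve at the place `v` of the splitting field: the scaling `s`, the
reduction `y ^ 2 = x ^ 3 + At x + Bt` of the curve, and the reduction `P_i (x) + Q_i (x) y` of the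
homogeneous coordinates, multiplied by `c`. -/
structure Model (D : Dat W L) (v : Place k L) (s : L) (At Bt : k) where
  s_ne : s ≠ 0
  hA : IsRes v (s ^ 4 * D.a) At
  hB : IsRes v (s ^ 6 * D.b) Bt
  /-- the common factor -/
  c : L
  c_ne : c ≠ 0
  /-- the reduction of `p` -/
  P : Fin D.M → k[X]
  /-- the reduction of `q` -/
  Q : Fin D.M → k[X]
  hP : ∀ i n, IsRes v (c * s⁻¹ ^ (2 * n) * (D.p i).coeff n) ((P i).coeff n)
  hQ : ∀ i n, IsRes v (c * s⁻¹ ^ (2 * n + 3) * (D.q i).coeff n) ((Q i).coeff n)
  ne : ∃ i, P i ≠ 0 ∨ Q i ≠ 0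

/-- The reduced homogeneous coordinates at the point `(X, Y)`. -/
noncomputable def Model.evt {D : Dat W L} {v : Place k L} {s : L} {At Bt : k}
    (m : Model D v s At Bt) {K : Type u} [Field K] [Algebra k K] (X Y : K) : Fin D.M → K :=
  fun i => aeval X (m.P i) + aeval X (m.Q i) * Y

open Classical in
/-- The point of the surface with homogeneous coordinates `a`, as a cycle (zero if `a` does not
satisfy the equations or `a = 0`). -/
noncomputable def cy [IsAlgClosed k] [CX.Good k] {M : ℕ} (I : Set (MvPolynomial (Fin M) k))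
    (a : Fin M → k) : (proj k I).Cycles :=
  if h : a ≠ 0 ∧ Sat I a then Finsupp.single (ppt a h.1 h.2) 1 else 0

/-- The point of the surface given by a point of the reduced curve, as a cycle. -/
noncomputable def Model.sp [IsAlgClosed k] [CX.Good k] {D : Dat W L} {v : Place k L} {s : L}
    {At Bt : k} (m : Model D v s At Bt) : EPt At Bt → D.S.Cycles
  | .zero => 0
  | .some X Y _ => cy D.I (m.evt X Y)

/-- The points of the reduced curve at which the homogeneous coordinates do not all vanish. -/
def Model.Good {D : Dat W L} {v : Place k L} {s : L} {At Bt : k} (m : Model D v s At Bt) :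
    EPt At Bt → Prop
  | .zero => False
  | .some X Y _ => m.evt X Y ≠ 0

open Classical in
/-- The cycle `ξ (a + b) - ξ (b)`, for a general point `b`. -/
noncomputable def Model.cyc [IsAlgClosed k] [CX.Good k] {D : Dat W L} {v : Place k L} {s : L}
    {At Bt : k} (m : Model D v s At Bt) (a : EPt At Bt) : D.S.Cycles :=
  if h : ∃ b, m.Good b ∧ m.Good (a + b) then m.sp (a + h.choose) - m.sp h.choose else 0

/-! ### The base -/

/-- Homogeneous coordinates of the image in the projective line of the place `v`: `l (1, t)` has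
the value `c`, and `l = 1` or `l = 1 / t`. -/
def Base (D : Dat W L) (v : Place k L) (l : L) (c : Fin 2 → k) : Prop :=
  (l = 1 ∧ c 0 = 1 ∧ IsRes v D.t (c 1)) ∨ (l = D.t⁻¹ ∧ c 0 = 0 ∧ c 1 = 1 ∧ IsRes v D.t⁻¹ 0)

/-- The discriminant. -/
noncomputable def disc (W : Wei k) (c : Fin 2 → k) : k :=
  4 * MvPolynomial.aeval c W.A ^ 3 + 27 * MvPolynomial.aeval c W.B ^ 2

/-- The Weierstrass equation is minimal. -/
def Minimal (W : Wei k) : Prop :=
  ∀ l : MvPolynomial (Fin 2) k, l.IsHomogeneous 1 → l ≠ 0 → ¬ (l ^ 4 ∣ W.A ∧ l ^ 6 ∣ W.B)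

/-- The point of the Weierstrass model given by a point of a fibre. -/
noncomputable def ptJ (W : Wei k) {K : Type u} [Field K] [Algebra k K] (u : Fin 2 → K)
    (hu : u ≠ 0) : EPt (MvPolynomial.aeval u W.A) (MvPolynomial.aeval u W.B) → WPt W K
  | .zero => zeroPt u hu
  | .some x y h => aff u x y hu (sw_nonsingular.mp h).1

end dat

end Pool.Agent.Helper21.TO

end CX
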