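import Mathlib
import Pool.Agent.Helper9.NS
import Pool.Agent.Helper40.CX.H21TO.Defs2
import Pool.Agent.Helper40.CX.Good2

namespace CX

/-!
# TORS: genus one fibrations over the projective line

The generic fibre of a genus one fibration over the projective line is a torsor `C` under an
elliptic curve `E` over `k (t)`, the generic fibre of the Jacobian fibration. Over a finite Galois
extension `L` of `k (t)` the torsor is isomorphic to `E`; its function field over `L` is
`Ω = L (x, y)`, where `(x, y)` is the generic point of `E`, and the Galois group acts on `Ω`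
by `σ (x, y) = (x, y) + e_σ`, where `e_σ` is a point of `E` over `L`. The function field of `C` is
the fixed field of `Ω`.
-/

set_option linter.unusedSectionVars false

namespace Pool.Agent.Helper21.TO

open VC VF Function Polynomial
open Pool.Agent.Helper51.EW (Wei WPt aff zeroPt)

universe u

/-- A genus one fibration over the projective line whose Jacobian fibration has the Weierstrass
equation `W`, given by its splitting field `L`, a finite Galois extension of `k (t)`, and by the
action of the Galois group on the field `Ω = L (x, y)` of rational functions on the generic fibre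
over `L`. -/
structure Torsor {k : Type u} [Field k] (W : Wei k) (L Ω : Type u) [Field L] [Algebra k L]
    [Field Ω] [Algebra k Ω] [Algebra L Ω] [IsScalarTower k L Ω] where
  hL : IsFunctionField k L
  /-- the coordinate of the projective line -/
  t : L
  ht : Transcendental k t
  /-- the coordinates of the generic point of the Jacobian `y ^ 2 = x ^ 3 + A (1, t) x + B (1, t)` -/
  x : Ω
  /-- the second coordinate of the generic point -/
  y : Ω
  hx : Transcendental L x
  eqn : y ^ 2 = x ^ 3 + algebraMap L Ω (MvPolynomial.aeval ![1, t] W.A) * x +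
    algebraMap L Ω (MvPolynomial.aeval ![1, t] W.B)
  gen : IntermediateField.adjoin L {x, y} = ⊤
  /-- the Galois group, acting on `Ω` -/
  G : Subgroup (Ω ≃ₐ[k] Ω)
  finG : Finite G
  stable : ∀ σ ∈ G, ∀ z : L, σ (algebraMap L Ω z) ∈ Set.range (algebraMap L Ω)
  fixt : ∀ σ ∈ G, σ (algebraMap L Ω t) = algebraMap L Ω t
  fixed : ∀ z : L, (∀ σ ∈ G, σ (algebraMap L Ω z) = algebraMap L Ω z) →
    z ∈ IntermediateField.adjoin k {t}
  /-- `σ (x, y) = (x, y) + e_σ`, where `e_σ` is the point at infinity or the point `(e, f)` -/
  translation : ∀ σ ∈ G, (σ x = x ∧ σ y = y) ∨ ∃ e f : L,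
    f ^ 2 = e ^ 3 + MvPolynomial.aeval ![1, t] W.A * e + MvPolynomial.aeval ![1, t] W.B ∧
    σ x = ((y - algebraMap L Ω f) / (x - algebraMap L Ω e)) ^ 2 - x - algebraMap L Ω e ∧
    σ y = (y - algebraMap L Ω f) / (x - algebraMap L Ω e) * (x - σ x) - y
  /-- `L` contains the roots of `x ^ 3 + A (1, t) x + B (1, t)` -/
  r : Fin 3 → L
  hr : (X ^ 3 + C (MvPolynomial.aeval ![1, t] W.A) * X +
    C (MvPolynomial.aeval ![1, t] W.B) : L[X]) = ∏ i, (X - C (r i))
  /-- `L` contains square roots of the differences of the roots -/
  s : Fin 3 → L
  hs : ∀ i, s i ^ 2 = r (i + 1) - r (i + 2)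

/-- The polynomials vanishing at `ξ`. The forms among them are the equations of the closure of the
point of projective space with homogeneous coordinates `ξ`. -/
def van (k : Type u) [Field k] {Ω : Type u} [Field Ω] [Algebra k Ω] {M : ℕ} (ξ : Fin M → Ω) :
    Set (MvPolynomial (Fin M) k) :=
  {P | MvPolynomial.aeval ξ P = 0}

end Pool.Agent.Helper21.TO

end CX
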