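import Mathlib
import Pool.Agent.Helper9.NS
import Pool.Agent.Helper40.CX.H21TO.Defs
import Pool.Agent.Helper40.CX.H21TO.Defs2
import Pool.Agent.Helper40.CX.H21TO.BaseFacts
import Pool.Agent.Helper40.CX.Good2

namespace CX

/-!
# Block TO-JVal: values of points of the Weierstrass model
`P = 0`: `Red` gives `Pt = 0`; coordinates `(l u; 0, 1, 0)` (`EW.zeroC`), values `(c; 0, 1, 0)`;
`EW.same_scale`, `EW.eval_eq`. `P = mk x y`, `Pt = mk X Y`: the coordinates
`(l u; l ^ (2 N) x, l ^ (3 N) y, 1)` of the same point (`EW.scale` with `c = 1`, `wt`) have the residues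
`(c; X, Y, 1)`. `P = mk x y`, `Pt = 0`, i.e. `x' = l ^ (2 N) x` is not regular: `u1 = 1 / x'` has the
residue `0`. With `y' = l ^ (3 N) y`, `A' = A (l u)`, `B' = B (l u)` (regular):
`y' ^ 2 = x' ^ 3 + A' x' + B'`, `y' ≠ 0` (else `1 + A' u1 ^ 2 + B' u1 ^ 3 = 0`, but its residue is `1`),
`(x' / y') ^ 2 = u1 / (1 + A' u1 ^ 2 + B' u1 ^ 3)` has the residue `0`, so `x' / y'` has the residue `0`
(`VF.exists_res_of_pow`), and `1 / y' = u1 * (x' / y')` has the residue `0`. The coordinates
`(l u; x' / y', 1, 1 / y')` (scale by `l` and `c = 1 / y'`) have the values `(c; 0, 1, 0)`.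
`eval_ptL` is the same for `u = (1, ι t)`, `l := ι l` (`Base.res` and `Over`), with `ι D.a = A (1, ι t)`
(`map_cA`): `ptL D ι P` is `ptJ` of the transported point (cases on `P`).
`ptJ_inj`: equal points have proportional `u` and equal `x`, `y` up to scaling; for the same `u`
(`u ≠ 0`) the factor `l` is `1`: `EW.mk_eq_iff`.
-/

set_option linter.unusedSectionVars false

namespace Pool.Agent.Helper21.TO

open VC VF Function Polynomial
open Pool.Agent.Helper51.EW (Wei WPt aff zeroPt)

universe u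

variable {k : Type u} [Field k] [IsAlgClosed k] [CX.Good k] {W : Wei k} {L : Type u} [Field L]
  [Algebra k L]

private lemma smul_ne55 {K : Type*} [Field K] {u : Fin 2 → K} (hu : u ≠ 0) {l : K} (hl : l ≠ 0) :
    (fun i => l * u i) ≠ 0 := by
  obtain ⟨j, hj⟩ := Function.ne_iff.mp hu
  intro h
  exact mul_ne_zero hl hj (congrFun h j)

private lemma zeroPt_smul55 {K : Type u} [Field K] [Algebra k K] {u : Fin 2 → K} (hu : u ≠ 0)
    {l : K} (hl : l ≠ 0) : (zeroPt u hu : WPt W K) = zeroPt (fun i => l * u i) (smul_ne55 hu hl) := by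
  have h3 : l ^ (3 * W.N) ≠ 0 := pow_ne_zero _ hl
  refine Helper51.EW.mk_eq_iff.mpr ⟨l, (l ^ (3 * W.N))⁻¹, hl, inv_ne_zero h3, fun i => rfl,
    fun i => ?_⟩
  fin_cases i
  · change (0 : K) = _ * _ * 0
    rw [mul_zero]
  · change (1 : K) = l ^ (3 * W.N) * (l ^ (3 * W.N))⁻¹ * 1
    rw [mul_inv_cancel₀ h3, mul_one]
  · change (0 : K) = _ * _ * 0
    rw [mul_zero]

theorem eval_ptJ {K : Type u} [Field K] [Algebra k K] (hK : IsFunctionField k K)
    {w : Place k K} {u : Fin 2 → K} (hu : u ≠ 0) {l : K} (hl : l ≠ 0) {c : Fin 2 → k}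
    (hc : c ≠ 0) (hr : ∀ i, IsRes w (l * u i) (c i))
    {P : EPt (MvPolynomial.aeval u W.A) (MvPolynomial.aeval u W.B)}
    {Pt : EPt (MvPolynomial.aeval c W.A) (MvPolynomial.aeval c W.B)}
    (h : Red w (l ^ W.N) P Pt) : W.surface.eval hK (ptJ W u hu P) w = ptJ W c hc Pt := by
  have hlu : (fun i => l * u i) ≠ 0 := smul_ne55 hu hl
  rcases P with _ | ⟨x, y, hns⟩
  · have h0 : Pt = 0 := h
    subst h0
    change W.surface.eval hK (zeroPt u hu) w = zeroPt c hc
    rw [zeroPt_smul55 hu hl]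
    apply Helper51.EW.eval_eq hK w _ _ hr
    intro i
    fin_cases i
    · exact isRes_zero
    · exact isRes_one
    · exact isRes_zero
  · have heq := (sw_nonsingular.mp hns).1
    change W.surface.eval hK (aff u x y hu heq) w = _
    have hA := Helper51.EW.isRes_aeval hr W.A
    have hB := Helper51.EW.isRes_aeval hr W.B
    have eA : MvPolynomial.aeval (fun i => l * u i) W.A =
        l ^ (4 * W.N) * MvPolynomial.aeval u W.A := Helper51.EW.aeval_smul W.hA l u
    have eB : MvPolynomial.aeval (fun i => l * u i) W.B =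
        l ^ (6 * W.N) * MvPolynomial.aeval u W.B := Helper51.EW.aeval_smul W.hB l u
    rcases Pt with _ | ⟨X', Y', hns'⟩
    · have h1 : (l ^ W.N) ^ 2 * x ∉ w.ring := h
      change _ = zeroPt c hc
      set x' : K := (l ^ W.N) ^ 2 * x with hx'
      set y' : K := (l ^ W.N) ^ 3 * y with hy'
      set A' : K := MvPolynomial.aeval (fun i => l * u i) W.A with hA'
      set B' : K := MvPolynomial.aeval (fun i => l * u i) W.B with hB'
      have e1 : y' ^ 2 = x' ^ 3 + A' * x' + B' := by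
        rw [hy', hx', eA, eB]
        linear_combination l ^ (6 * W.N) * heq
      have hx0 : x' ≠ 0 := by
        intro h0
        apply h1
        rw [h0]
        exact w.ring.zero_mem
      have hu1 : IsRes w x'⁻¹ (0 : k) := by
        rw [isRes_zero_iff, ValuationSubring.mem_nonunits_iff_or]
        right
        rwa [inv_inv]
      have hden : IsRes w (1 + A' * x'⁻¹ ^ 2 + B' * x'⁻¹ ^ 3) (1 : k) := by
        have := (isRes_one.add (hA.mul (hu1.pow 2))).add (hB.mul (hu1.pow 3))
        simpa using this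
      obtain ⟨hd0, hd1⟩ := hden.inv_mem one_ne_zero
      have e2 : y' ^ 2 = x' ^ 3 * (1 + A' * x'⁻¹ ^ 2 + B' * x'⁻¹ ^ 3) := by
        rw [e1]
        field_simp
      have hy0 : y' ≠ 0 := by
        intro h0
        rw [h0] at e2
        have : x' ^ 3 * (1 + A' * x'⁻¹ ^ 2 + B' * x'⁻¹ ^ 3) ≠ 0 :=
          mul_ne_zero (pow_ne_zero 3 hx0) hd0
        apply this
        rw [← e2]
        ring
      obtain ⟨e, he⟩ := exists_res hK hd1
      have hq : IsRes w ((x' / y') ^ 2) (0 : k) := by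
        have e3 : (x' / y') ^ 2 = x'⁻¹ * (1 + A' * x'⁻¹ ^ 2 + B' * x'⁻¹ ^ 3)⁻¹ := by
          rw [div_pow, e2]
          field_simp
        rw [e3]
        have := hu1.mul he
        rwa [zero_mul] at this
      obtain ⟨e', he', he2⟩ := exists_res_of_pow hK two_ne_zero hq
      have he0 : e' = 0 := (pow_eq_zero_iff two_ne_zero).mp he2
      rw [he0] at he'
      have hyi : IsRes w y'⁻¹ (0 : k) := by
        have e4 : y'⁻¹ = x'⁻¹ * (x' / y') := by
          field_simp
        rw [e4]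
        have := hu1.mul he'
        rwa [zero_mul] at this
      have hs := Helper51.EW.same_scale (Helper51.EW.affC (W := W) u x y hu heq) l y'⁻¹ hl
        (inv_ne_zero hy0)
      change W.surface.eval hK (WPt.mk (Helper51.EW.affC (W := W) u x y hu heq)) w = _
      rw [← hs]
      apply Helper51.EW.eval_eq hK w _ _ hr
      intro i
      fin_cases i
      · change IsRes w (l ^ (2 * W.N) * y'⁻¹ * x) (0 : k)
        have e5 : l ^ (2 * W.N) * y'⁻¹ * x = x' / y' := by
          rw [hx', div_eq_mul_inv]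
          ring
        rw [e5]
        exact he'
      · change IsRes w (l ^ (3 * W.N) * y'⁻¹ * y) (1 : k)
        have e5 : l ^ (3 * W.N) * y'⁻¹ * y = 1 := by
          have : l ^ (3 * W.N) * y'⁻¹ * y = y' * y'⁻¹ := by
            rw [hy']
            ring
          rw [this, mul_inv_cancel₀ hy0]
        rw [e5]
        exact isRes_one
      · change IsRes w (l ^ 0 * y'⁻¹ * 1) (0 : k)
        rw [pow_zero, one_mul, mul_one]
        exact hyi
    · obtain ⟨h1, h2⟩ : IsRes w ((l ^ W.N) ^ 2 * x) X' ∧ IsRes w ((l ^ W.N) ^ 3 * y) Y' := h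
      have heq' := (sw_nonsingular.mp hns').1
      change _ = aff c X' Y' hc heq'
      have hs := Helper51.EW.same_scale (Helper51.EW.affC (W := W) u x y hu heq) l 1 hl
        one_ne_zero
      change W.surface.eval hK (WPt.mk (Helper51.EW.affC (W := W) u x y hu heq)) w =
        WPt.mk (Helper51.EW.affC (W := W) c X' Y' hc heq')
      rw [← hs]
      apply Helper51.EW.eval_eq hK w _ _ hr
      intro i
      fin_cases i
      · change IsRes w (l ^ (2 * W.N) * 1 * x) X'
        have e5 : l ^ (2 * W.N) * 1 * x = (l ^ W.N) ^ 2 * x := by ring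
        rw [e5]
        exact h1
      · change IsRes w (l ^ (3 * W.N) * 1 * y) Y'
        have e5 : l ^ (3 * W.N) * 1 * y = (l ^ W.N) ^ 3 * y := by ring
        rw [e5]
        exact h2
      · change IsRes w (l ^ 0 * 1 * 1) (1 : k)
        rw [pow_zero, one_mul, mul_one]
        exact isRes_one

theorem eval_ptL (D : Dat W L) {K : Type u} [Field K] [Algebra k K] (hK : IsFunctionField k K)
    (ι : L →ₐ[k] K) {v : Place k L} {w : Place k K} (ho : Over v ι w) {l : L} {c : Fin 2 → k}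
    (hb : Base D v l c) (hc : c ≠ 0) {P : EPt (ι D.a) (ι D.b)}
    {Pt : EPt (MvPolynomial.aeval c W.A) (MvPolynomial.aeval c W.B)}
    (h : Red w (ι (l ^ W.N)) P Pt) : W.surface.eval hK (ptL D ι P) w = ptJ W c hc Pt := by
  have hl : ι l ≠ 0 := (_root_.map_ne_zero ι).mpr hb.l_ne
  have hr : ∀ i, IsRes w (ι l * (![1, ι D.t] : Fin 2 → K) i) (c i) := by
    intro i
    have h1 := ho _ _ (hb.res i)
    rw [map_mul] at h1
    have h2 : ι ((![1, D.t] : Fin 2 → L) i) = (![1, ι D.t] : Fin 2 → K) i := by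
      fin_cases i
      · exact map_one ι
      · rfl
    rwa [h2] at h1
  rw [map_pow] at h
  rcases P with _ | ⟨x, y, hns⟩
  · have h0 : Pt = 0 := h
    exact eval_ptJ hK (one_t_ne (ι D.t)) hl hc hr (P := 0) (Pt := Pt) h0
  · have hns' : (sw (MvPolynomial.aeval ![1, ι D.t] W.A)
        (MvPolynomial.aeval ![1, ι D.t] W.B)).toAffine.Nonsingular x y := by
      rw [← map_cA D ι, ← map_cB D ι]
      exact hns
    have h3 : Red w (ι l ^ W.N) (EPt.mk x y hns') Pt := by
      rcases Pt with _ | ⟨X', Y', hns2⟩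
      · exact h
      · exact h
    exact eval_ptJ hK (one_t_ne (ι D.t)) hl hc hr (P := EPt.mk x y hns') (Pt := Pt) h3

theorem ptJ_inj {c : Fin 2 → k} {hc hc' : c ≠ 0}
    {P Q : EPt (MvPolynomial.aeval c W.A) (MvPolynomial.aeval c W.B)}
    (h : ptJ W c hc P = ptJ W c hc' Q) : P = Q := by
  rcases P with _ | ⟨x, y, hP⟩ <;> rcases Q with _ | ⟨x', y', hQ⟩
  · rfl
  · obtain ⟨l, e, hl, he, h1, h2⟩ := Helper51.EW.mk_eq_iff.mp h
    have h3 : (1 : k) = l ^ 0 * e * 0 := h2 2
    rw [mul_zero] at h3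
    exact absurd h3 one_ne_zero
  · obtain ⟨l, e, hl, he, h1, h2⟩ := Helper51.EW.mk_eq_iff.mp h
    have h3 : (0 : k) = l ^ 0 * e * 1 := h2 2
    rw [pow_zero, one_mul, mul_one] at h3
    exact absurd h3.symm he
  · obtain ⟨l, e, hl, he, h1, h2⟩ := Helper51.EW.mk_eq_iff.mp h
    have h3 : (1 : k) = l ^ 0 * e * 1 := h2 2
    rw [pow_zero, one_mul, mul_one] at h3
    subst h3
    have hl1 : l = 1 := by
      obtain ⟨j, hj⟩ := Function.ne_iff.mp hc
      have h4 : c j = l * c j := h1 j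
      have h5 : (l - 1) * c j = 0 := by linear_combination -h4
      exact sub_eq_zero.mp ((mul_eq_zero.mp h5).resolve_right hj)
    subst hl1
    have h6 : x' = 1 ^ (2 * W.N) * 1 * x := h2 0
    have h7 : y' = 1 ^ (3 * W.N) * 1 * y := h2 1
    rw [one_pow, one_mul, one_mul] at h6 h7
    subst h6
    subst h7
    rfl

theorem ptJ_smul {c c' : Fin 2 → k} {hc : c ≠ 0} {hc' : c' ≠ 0}
    {P : EPt (MvPolynomial.aeval c W.A) (MvPolynomial.aeval c W.B)}
    {Q : EPt (MvPolynomial.aeval c' W.A) (MvPolynomial.aeval c' W.B)}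
    (h : ptJ W c hc P = ptJ W c' hc' Q) : ∃ μ : k, μ ≠ 0 ∧ ∀ i, c' i = μ * c i := by
  rcases P with _ | ⟨x, y, hP⟩ <;> rcases Q with _ | ⟨x', y', hQ⟩ <;>
  · obtain ⟨l, e, hl, he, h1, h2⟩ := Helper51.EW.mk_eq_iff.mp h
    exact ⟨l, hl, fun i => h1 i⟩

end Pool.Agent.Helper21.TO

end CX
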