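import Mathlib
import Pool.Agent.Helper9.NS
import Pool.Agent.Helper40.CX.H21TO.Defs
import Pool.Agent.Helper40.CX.Good2

namespace CX

/-!
# Block TO-FinPt: finite sets of points of a curve
`finite_X`: for given `X` there are at most two `Y` (roots of `Y ^ 2 = X ^ 3 + a X + b`).
`finite_two`: if `P + P = c = P' + P'` then `2 (P - P') = 0`; a point `R` with `R + R = 0` is `0` or
has `y = 0` (`R = -R`, `neg_some`), so its `x` is a root of `X ^ 3 + a X + b`: finitely many `R`
by `finite_X`; fix one `P'` with `P' + P' = c` (if there is none the set is empty), then `P` is in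
the image of this finite set under `R ↦ P' + R`.
`exists_X`: the `x`-coordinates of the points of `Bd` and the roots of `X ^ 3 + a X + b` are finitely
many elements of the infinite field `k`.
`infinite_EPt`: for every `X` not a root of the cubic there is a point with this `x`-coordinate
(`k` algebraically closed; it is nonsingular as `Y ≠ 0`).
-/

set_option linter.unusedSectionVars false

namespace Pool.Agent.Helper21.TO

open VC VF Function Polynomial
open Pool.Agent.Helper51.EW (Wei WPt aff zeroPt)

universe u

variable {k : Type u} [Field k] [CX.Good k] {a b : k}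

private lemma finite_sq (c : k) : {Y : k | Y ^ 2 = c}.Finite := by
  rcases Set.eq_empty_or_nonempty {Y : k | Y ^ 2 = c} with h | ⟨Y₀, h⟩
  · rw [h]
    exact Set.finite_empty
  · refine (Set.toFinite {Y₀, -Y₀}).subset ?_
    intro Y hY
    have h1 : Y ^ 2 = Y₀ ^ 2 := by
      rw [show Y ^ 2 = c from hY, show Y₀ ^ 2 = c from h]
    exact sq_eq_sq_iff_eq_or_eq_neg.mp h1

private lemma finite_cub (a b : k) : {x : k | x ^ 3 + a * x + b = 0}.Finite := by
  have h0 : (X ^ 3 + C a * X + C b : k[X]) ≠ 0 := by
    intro h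
    have h1 := congrArg (fun p : k[X] => p.coeff 3) h
    simp [coeff_X, coeff_C] at h1
  refine (Polynomial.finite_setOf_isRoot h0).subset ?_
  intro x hx
  have hx' : x ^ 3 + a * x + b = 0 := hx
  show IsRoot (X ^ 3 + C a * X + C b : k[X]) x
  unfold IsRoot
  simp only [eval_add, eval_pow, eval_X, eval_mul, eval_C]
  exact hx'

/-- The coordinates of a point. -/
private def cd : EPt a b → k × k
  | .zero => (0, 0)
  | .some x y _ => (x, y)

theorem finite_X (S : Set k) (hS : S.Finite) :
    {P : EPt a b | ∃ X Y h, P = EPt.mk X Y h ∧ X ∈ S}.Finite := by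
  have hT : (⋃ x ∈ S, (fun y : k => (x, y)) '' {Y : k | Y ^ 2 = x ^ 3 + a * x + b}).Finite :=
    hS.biUnion fun x _ => (finite_sq _).image _
  refine Set.Finite.of_injOn (f := cd) ?_ ?_ hT
  · rintro P ⟨x, y, h, rfl, hx⟩
    simp only [Set.mem_iUnion]
    exact ⟨x, hx, y, (sw_nonsingular.mp h).1, rfl⟩
  · rintro P ⟨x, y, h, rfl, _⟩ Q ⟨x', y', h', rfl, _⟩ he
    have h1 : (x, y) = (x', y') := he
    rw [Prod.mk.injEq] at h1
    obtain ⟨rfl, rfl⟩ := h1
    rfl

private lemma finite_ker : {R : EPt a b | R + R = 0}.Finite := by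
  refine (((Set.finite_singleton (0 : EPt a b)).union (finite_X _ (finite_cub a b)))).subset ?_
  intro R hR
  have hR' : R + R = 0 := hR
  match R, hR' with
  | .zero, _ => exact Or.inl rfl
  | .some x y h, hR' =>
    right
    refine ⟨x, y, h, rfl, ?_⟩
    have h1 : (WeierstrassCurve.Affine.Point.some x y h : EPt a b) =
        -WeierstrassCurve.Affine.Point.some x y h := eq_neg_of_add_eq_zero_left hR'
    rw [WeierstrassCurve.Affine.Point.neg_some] at h1
    rw [WeierstrassCurve.Affine.Point.some.injEq] at h1
    have h2 : y = (sw a b).toAffine.negY x y := h1.2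
    have h3 : (sw a b).toAffine.negY x y = -y := by
      unfold WeierstrassCurve.Affine.negY
      simp
    rw [h3] at h2
    have h4 : y = 0 := by
      have : (2 : k) * y = 0 := by linear_combination h2
      rcases mul_eq_zero.mp this with h5 | h5
      · exact absurd h5 two_ne_zero
      · exact h5
    have h5 := (sw_nonsingular.mp h).1
    rw [h4] at h5
    show x ^ 3 + a * x + b = 0
    rw [← h5]
    ring

theorem finite_two (c : EPt a b) : {P : EPt a b | P + P = c}.Finite := by
  rcases Set.eq_empty_or_nonempty {P : EPt a b | P + P = c} with h | ⟨P', h⟩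
  · rw [h]
    exact Set.finite_empty
  · refine Set.Finite.of_injOn (f := fun P => P - P') ?_ ?_ (finite_ker (a := a) (b := b))
    · intro P hP
      have h1 : P + P = c := hP
      have h2 : P' + P' = c := h
      show (P - P') + (P - P') = 0
      rw [← add_sub_add_comm, h1, h2, sub_self]
    · intro P _ Q _ he
      exact sub_left_injective he

theorem exists_X [Infinite k] (Bd : Set (EPt a b)) (hB : Bd.Finite) :
    ∃ X : k, X ^ 3 + a * X + b ≠ 0 ∧ ∀ Y h, EPt.mk X Y h ∉ Bd := by
  obtain ⟨x, hx⟩ := ((finite_cub a b).union (hB.image (fun P => (cd P).1))).exists_notMem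
  rw [Set.mem_union, not_or] at hx
  refine ⟨x, hx.1, fun Y h hm => hx.2 ⟨_, hm, rfl⟩⟩

theorem infinite_EPt [IsAlgClosed k] (a b : k) : Infinite (EPt a b) := by
  by_contra hfin
  rw [not_infinite_iff_finite] at hfin
  obtain ⟨x, hx, hx'⟩ := exists_X (a := a) (b := b) Set.univ Set.finite_univ
  obtain ⟨y, hy⟩ := IsAlgClosed.exists_pow_nat_eq (x ^ 3 + a * x + b) (n := 2) two_pos
  have hy0 : y ≠ 0 := by
    rintro rfl
    apply hx
    rw [← hy]
    ring
  refine hx' y (sw_nonsingular.mpr ⟨hy, Or.inr ?_⟩) (Set.mem_univ _)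
  intro h
  apply hy0
  have h1 : (2 : k) * y = 0 := by linear_combination h
  rcases mul_eq_zero.mp h1 with h5 | h5
  · exact absurd h5 two_ne_zero
  · exact h5

end Pool.Agent.Helper21.TO

end CX
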