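import Mathlib
import Pool.Agent.Helper9.NS
import Pool.Agent.Helper40.CX.H21TO.Defs
import Pool.Agent.Helper40.CX.H21TO.SatModel
import Pool.Agent.Helper40.CX.H21TO.Val
import Pool.Agent.Helper40.CX.Good2

namespace CX

/-!
# Block TO-Pair: moving two points with given sum
Let `c = P + Q = mk xc yc` (affine), `x0 = xc`, `y0 = -yc` (the point `-c`). `P ≠ c, -c` means
`xP ≠ x0` (`WeierstrassCurve.Affine.Point.X_eq_iff`). Let `μ = (yP - y0) / (xP - x0)`. By the addition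
formula for `P + (-c) = -Q` (`add_of_X_ne`): `xQ = μ ^ 2 - x0 - xP`, and
`yQ = y0 + μ (xQ - x0)`; so `xP`, `xQ` are the two roots of
`X ^ 2 + (x0 - μ ^ 2) X + (x0 ^ 2 + At - 2 μ y0 + μ ^ 2 x0)` and both points are on the line
`Y = y0 + μ (X - x0)`. The same for `P'`, `Q'` with `μ'`.
If `μ = μ'` then `{P, Q} = {P', Q'}`. If `μ ≠ μ'`: let `K` be a function field with a
transcendental `τ` and `δ`, `δ ^ 2 = D (τ)`, where
`D (μ) = (x0 - μ ^ 2) ^ 2 - 4 (x0 ^ 2 + At - 2 μ y0 + μ ^ 2 x0)` (`VF.exists_poly_roots`, `n = 1`,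
`m = 2`), `x1 = (τ ^ 2 - x0 + δ) / 2`, `x2 = (τ ^ 2 - x0 - δ) / 2`, `y_i = y0 + τ (x_i - x0)`. Then
`y_i ^ 2 = x_i ^ 3 + At x_i + Bt` (as `x_i` is a root of the quadratic polynomial:
`X ^ 3 + At X + Bt - (y0 + μ (X - x0)) ^ 2 = (X - x0) (X ^ 2 + ...)`), so `evt x_i y_i` satisfies the
equations (`Model.sat`). At a place `v` with `τ` of value `μ`: `δ` is regular with residue `d`,
`d ^ 2 = D (μ)` (`VF.exists_res_of_pow`), the residues of `x1`, `x2` are the two roots `xP`, `xQ` in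
some order (the discriminant is `(xP - xQ) ^ 2`), and `evt x_i y_i` has the residues
`evt` at `P`, resp. `Q`, which are not zero. So `evt x_i y_i ≠ 0` and the values are the points
(`peval_eq`; `Model.sp_good`). Conclude by `VF.path` (Helper83/VF/Kill.lean) for the variety
`D.S.prod D.S` and the function `(p, q) ↦ φ p + φ q`, which is `Kills` by `Kills.comp` with the
projections and `Kills.add`, with `A = φ_lin (sp P) + φ_lin (sp Q)`, `B` the same for `P'`, `Q'`.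
-/

set_option linter.unusedSectionVars false

namespace Pool.Agent.Helper21.TO

open VC VF Function Polynomial
open Pool.Agent.Helper51.EW (Wei WPt aff zeroPt)

universe u

variable {k : Type u} [Field k] [IsAlgClosed k] [CX.Good k] {W : Wei k} {L : Type u} [Field L]
  [Algebra k L]

/-- `P` and `Q` are the two further points of the line with slope `μ` through `(x0, y0)`. -/
private structure Ln67 {F : Type*} [Field F] (At x0 y0 μ xP yP xQ yQ : F) : Prop where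
  q : xP ^ 2 + (x0 - μ ^ 2) * xP + (x0 ^ 2 + At - 2 * μ * y0 + μ ^ 2 * x0) = 0
  eX : xQ = μ ^ 2 - x0 - xP
  eP : yP = y0 + μ * (xP - x0)
  eQ : yQ = y0 + μ * (xQ - x0)

private lemma line67 {F : Type*} [Field F] {At Bt xP yP xQ yQ xc yc : F}
    (hP : (sw At Bt).toAffine.Nonsingular xP yP) (hQ : (sw At Bt).toAffine.Nonsingular xQ yQ)
    (hc : (sw At Bt).toAffine.Nonsingular xc yc)
    (h : EPt.mk xP yP hP + EPt.mk xQ yQ hQ = EPt.mk xc yc hc) (hne : xP ≠ xc) :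
    Ln67 At xc (-yc) ((yP + yc) / (xP - xc)) xP yP xQ yQ := by
  have e1 : (sw At Bt).toAffine.negY xc yc = -yc := by simp [WeierstrassCurve.Affine.negY]
  have e2 : (sw At Bt).toAffine.negY xQ yQ = -yQ := by simp [WeierstrassCurve.Affine.negY]
  have h1 : EPt.mk xP yP hP + -EPt.mk xc yc hc = -EPt.mk xQ yQ hQ := by
    rw [← h]; abel
  simp only [WeierstrassCurve.Affine.Point.neg_some] at h1
  rw [WeierstrassCurve.Affine.Point.add_of_X_ne hne] at h1
  obtain ⟨h2, h3⟩ := (WeierstrassCurve.Affine.Point.some.injEq _ _ _ _ _ _).mp h1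
  rw [WeierstrassCurve.Affine.slope_of_X_ne hne, e1, sub_neg_eq_add] at h2 h3
  rw [e2] at h3
  simp only [WeierstrassCurve.Affine.addY, WeierstrassCurve.Affine.negAddY,
    WeierstrassCurve.Affine.negY, WeierstrassCurve.Affine.addX] at h2 h3
  have hd : xP - xc ≠ 0 := sub_ne_zero.mpr hne
  obtain ⟨μ, hμ⟩ : ∃ μ, μ = (yP + yc) / (xP - xc) := ⟨_, rfl⟩
  have hμ' : μ * (xP - xc) = yP + yc := by rw [hμ, div_mul_cancel₀ _ hd]
  rw [← hμ] at h2 h3 ⊢
  have h4 : xQ = μ ^ 2 - xc - xP := by rw [← h2]; ring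
  have h5 : yP = -yc + μ * (xP - xc) := by rw [hμ']; ring
  refine ⟨?_, h4, h5, ?_⟩
  · have g1 := (sw_nonsingular.mp hP).1
    have g2 := (sw_nonsingular.mp hc).1
    apply mul_left_cancel₀ hd
    rw [h5] at g1
    linear_combination g2 - g1
  · rw [h4]
    linear_combination h3 + h5

private lemma eq67 {F : Type*} [Field F] {a0 b0 A B τ x : F} (hc : b0 ^ 2 = a0 ^ 3 + A * a0 + B)
    (hq : x ^ 2 + (a0 - τ ^ 2) * x + (a0 ^ 2 + A - 2 * τ * b0 + τ ^ 2 * a0) = 0) :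
    (b0 + τ * (x - a0)) ^ 2 = x ^ 3 + A * x + B := by
  linear_combination hc - (x - a0) * hq

private lemma q67 {F : Type*} [Field F] [CX.Good F] {a0 b0 A τ δ x : F}
    (hδ : δ ^ 2 = (a0 - τ ^ 2) ^ 2 - 4 * (a0 ^ 2 + A - 2 * b0 * τ + a0 * τ ^ 2))
    (hx : 2 * x = τ ^ 2 - a0 + δ) :
    x ^ 2 + (a0 - τ ^ 2) * x + (a0 ^ 2 + A - 2 * τ * b0 + τ ^ 2 * a0) = 0 := by
  have h4 : (4 : F) ≠ 0 := by norm_num
  apply mul_left_cancel₀ h4
  linear_combination (2 * x + a0 - τ ^ 2 + δ) * hx + hδ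

/-- Equal slopes: the same two points. -/
private lemma Ln67.same {F : Type*} [Field F] {At x0 y0 μ xP yP xQ yQ xP' yP' xQ' yQ' : F}
    (h : Ln67 At x0 y0 μ xP yP xQ yQ) (h' : Ln67 At x0 y0 μ xP' yP' xQ' yQ') :
    (xP' = xP ∧ yP' = yP ∧ xQ' = xQ ∧ yQ' = yQ) ∨
      (xP' = xQ ∧ yP' = yQ ∧ xQ' = xP ∧ yQ' = yP) := by
  have h1 : (xP' - xP) * (xP' - xQ) = 0 := by
    rw [h.eX]
    linear_combination h'.q - h.q
  rcases mul_eq_zero.mp h1 with h2 | h2
  · left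
    have e1 : xP' = xP := sub_eq_zero.mp h2
    have e2 : xQ' = xQ := by rw [h'.eX, h.eX, e1]
    exact ⟨e1, by rw [h'.eP, h.eP, e1], e2, by rw [h'.eQ, h.eQ, e2]⟩
  · right
    have e1 : xP' = xQ := sub_eq_zero.mp h2
    have e2 : xQ' = xP := by rw [h'.eX, e1, h.eX]; ring
    exact ⟨e1, by rw [h'.eP, h.eQ, e1], e2, by rw [h'.eQ, h.eP, e2]⟩

private lemma Ln67.disc {F : Type*} [Field F] {At x0 y0 μ xP yP xQ yQ : F}
    (h : Ln67 At x0 y0 μ xP yP xQ yQ) :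
    (x0 - μ ^ 2) ^ 2 - 4 * (x0 ^ 2 + At - 2 * y0 * μ + x0 * μ ^ 2) = (xP - xQ) ^ 2 := by
  rw [h.eX]
  linear_combination -4 * h.q

private lemma evt_res67 {D : Dat W L} {v : Place k L} {s : L} {At Bt : k}
    (m : Model D v s At Bt) {K : Type u} [Field K] [Algebra k K] {w : Place k K} {x y : K}
    {X0 Y0 : k} (hX : IsRes w x X0) (hY : IsRes w y Y0) (i : Fin D.M) :
    IsRes w (m.evt x y i) (m.evt X0 Y0 i) := by
  have e : ∀ p : k[X], aeval X0 p = p.eval X0 := fun p => by rw [coe_aeval_eq_eval]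
  unfold Model.evt
  rw [e, e]
  exact hX.poly.add (hX.poly.mul hY)

private lemma val67 {D : Dat W L} {v : Place k L} {s : L} {At Bt : k}
    (m : Model D v s At Bt) (φ : D.S.Pt → ℂ) {K : Type u} [Field K] [Algebra k K]
    (hK : IsFunctionField k K) {w : Place k K} {x y : K}
    {X0 Y0 : k} (hX : IsRes w x X0) (hY : IsRes w y Y0)
    (h : (sw At Bt).toAffine.Nonsingular X0 Y0) (hg : m.evt X0 Y0 ≠ 0) (hne : m.evt x y ≠ 0)
    (hs : Sat D.I (m.evt x y)) :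
    φ ((proj k D.I).eval hK (ppt _ hne hs) w) =
      Finsupp.linearCombination ℤ φ (m.sp (EPt.mk X0 Y0 h)) := by
  obtain ⟨hs', e⟩ := m.sp_good (h := h) hg
  rw [e, Finsupp.linearCombination_single, one_smul,
    peval_eq hK w hne hs hg hs' (evt_res67 m hX hY)]

/-- The residues of the two points of the general line. -/
private lemma res67 {K : Type u} [Field K] [Algebra k K] (hK : IsFunctionField k K)
    {w : Place k K} {τ δ : K} {At x0 y0 μ xP yP xQ yQ : k}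
    (hδ : δ ^ 2 = aeval τ ((C x0 - X ^ 2) ^ 2 -
      4 * (C (x0 ^ 2 + At) - C (2 * y0) * X + C x0 * X ^ 2) : k[X]))
    (h : Ln67 At x0 y0 μ xP yP xQ yQ) (hw : IsRes w τ μ) :
    (IsRes w (algebraMap k K (1 / 2) * (τ ^ 2 - algebraMap k K x0 + δ)) xP ∧
      IsRes w (algebraMap k K (1 / 2) * (τ ^ 2 - algebraMap k K x0 - δ)) xQ) ∨
    (IsRes w (algebraMap k K (1 / 2) * (τ ^ 2 - algebraMap k K x0 + δ)) xQ ∧
      IsRes w (algebraMap k K (1 / 2) * (τ ^ 2 - algebraMap k K x0 - δ)) xP) := by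
  have h1 : IsRes w (δ ^ 2) ((xP - xQ) ^ 2) := by
    have h2 := hw.poly (p := ((C x0 - X ^ 2) ^ 2 -
      4 * (C (x0 ^ 2 + At) - C (2 * y0) * X + C x0 * X ^ 2) : k[X]))
    rw [← hδ] at h2
    rw [← h.disc]
    convert h2 using 1
    simp
  obtain ⟨d, hd, hd2⟩ := exists_res_of_pow hK two_ne_zero h1
  have h3 : IsRes w (τ ^ 2 - algebraMap k K x0) (μ ^ 2 - x0) := (hw.pow 2).sub (isRes_const _)
  have hp := (isRes_const (v := w) (1 / 2 : k)).mul (h3.add hd)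
  have hm := (isRes_const (v := w) (1 / 2 : k)).mul (h3.sub hd)
  have hs : μ ^ 2 - x0 = xP + xQ := by rw [h.eX]; ring
  rw [hs] at hp hm
  rcases sq_eq_sq_iff_eq_or_eq_neg.mp hd2 with h4 | h4
  · left
    rw [h4] at hp hm
    constructor
    · convert hp using 1; field_simp; ring
    · convert hm using 1; field_simp; ring
  · right
    rw [h4] at hp hm
    constructor
    · convert hp using 1; field_simp; ring
    · convert hm using 1; field_simp; ring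

theorem Model.pair {D : Dat W L} {v : Place k L} {s : L} {At Bt : k} (m : Model D v s At Bt)
    {φ : D.S.Pt → ℂ} (hφ : Kills D.S φ) (P Q P' Q' : EPt At Bt) (hP : m.Good P) (hQ : m.Good Q)
    (hP' : m.Good P') (hQ' : m.Good Q') (hs : P + Q = P' + Q') (h0 : P + Q ≠ 0)
    (h1 : P ≠ P + Q) (h2 : P ≠ -(P + Q)) (h3 : P' ≠ P + Q) (h4 : P' ≠ -(P + Q)) :
    Finsupp.linearCombination ℤ φ (m.sp P) + Finsupp.linearCombination ℤ φ (m.sp Q) =
      Finsupp.linearCombination ℤ φ (m.sp P') + Finsupp.linearCombination ℤ φ (m.sp Q') := by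
  rcases P with _ | ⟨xP, yP, nP⟩
  · exact hP.elim
  rcases Q with _ | ⟨xQ, yQ, nQ⟩
  · exact hQ.elim
  rcases P' with _ | ⟨xP', yP', nP'⟩
  · exact hP'.elim
  rcases Q' with _ | ⟨xQ', yQ', nQ'⟩
  · exact hQ'.elim
  obtain ⟨c, hc⟩ : ∃ c : EPt At Bt, c = EPt.mk xP yP nP + EPt.mk xQ yQ nQ := ⟨_, rfl⟩
  rw [← hc] at hs h0 h1 h2 h3 h4
  rcases c with _ | ⟨xc, yc, nc⟩
  · exact absurd rfl h0
  have hxP : xP ≠ xc := by
    intro hx
    rcases (WeierstrassCurve.Affine.Point.X_eq_iff (h₁ := nP) (h₂ := nc)).mp hx with h5 | h5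
    · exact h1 h5
    · exact h2 h5
  have hxP' : xP' ≠ xc := by
    intro hx
    rcases (WeierstrassCurve.Affine.Point.X_eq_iff (h₁ := nP') (h₂ := nc)).mp hx with h5 | h5
    · exact h3 h5
    · exact h4 h5
  have hl := line67 nP nQ nc hc.symm hxP
  have hl' := line67 nP' nQ' nc hs.symm hxP'
  obtain ⟨μ, hμ⟩ : ∃ μ, μ = (yP + yc) / (xP - xc) := ⟨_, rfl⟩
  obtain ⟨μ', hμ'⟩ : ∃ μ', μ' = (yP' + yc) / (xP' - xc) := ⟨_, rfl⟩
  rw [← hμ] at hl
  rw [← hμ'] at hl'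
  obtain ⟨y0, hy0⟩ : ∃ y0, y0 = -yc := ⟨_, rfl⟩
  rw [← hy0] at hl hl'
  have hP0 : m.evt xP yP ≠ 0 := hP
  have hQ0 : m.evt xQ yQ ≠ 0 := hQ
  have hP0' : m.evt xP' yP' ≠ 0 := hP'
  have hQ0' : m.evt xQ' yQ' ≠ 0 := hQ'
  by_cases hμμ : μ = μ'
  · rw [← hμμ] at hl'
    rcases hl.same hl' with ⟨rfl, rfl, rfl, rfl⟩ | ⟨rfl, rfl, rfl, rfl⟩
    · rfl
    · exact add_comm _ _
  · obtain ⟨K, _, _, τ, Δ, hK, hτ, hΔ⟩ := exists_poly_roots (k := k) two_ne_zero
      (fun _ : Fin 1 => ((C xc - X ^ 2) ^ 2 -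
        4 * (C (xc ^ 2 + At) - C (2 * y0) * X + C xc * X ^ 2) : k[X]))
    obtain ⟨δ, hδ⟩ : ∃ δ, δ = Δ 0 := ⟨_, rfl⟩
    have hδ2 := hΔ 0
    rw [← hδ] at hδ2
    have : CX.Good K := CX.Good.ext k
    obtain ⟨x1, hx1⟩ : ∃ x1, x1 = algebraMap k K (1 / 2) * (τ ^ 2 - algebraMap k K xc + δ) :=
      ⟨_, rfl⟩
    obtain ⟨x2, hx2⟩ : ∃ x2, x2 = algebraMap k K (1 / 2) * (τ ^ 2 - algebraMap k K xc - δ) :=
      ⟨_, rfl⟩
    have hhalf : (2 : K) * algebraMap k K (1 / 2) = 1 := by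
      rw [map_div₀, map_one, map_ofNat]
      exact mul_one_div_cancel two_ne_zero
    have hδ3 : δ ^ 2 = (algebraMap k K xc - τ ^ 2) ^ 2 - 4 * (algebraMap k K xc ^ 2 +
        algebraMap k K At - 2 * algebraMap k K y0 * τ + algebraMap k K xc * τ ^ 2) := by
      rw [hδ2]
      simp only [map_sub, map_add, map_mul, map_pow, aeval_C, aeval_X, map_ofNat]
    have hδ4 : (-δ) ^ 2 = (algebraMap k K xc - τ ^ 2) ^ 2 - 4 * (algebraMap k K xc ^ 2 +
        algebraMap k K At - 2 * algebraMap k K y0 * τ + algebraMap k K xc * τ ^ 2) := by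
      rw [neg_sq, hδ3]
    have hcK : algebraMap k K y0 ^ 2 = algebraMap k K xc ^ 3 + algebraMap k K At *
        algebraMap k K xc + algebraMap k K Bt := by
      rw [hy0, ← map_pow, neg_sq, (sw_nonsingular.mp nc).1]
      simp only [map_add, map_mul, map_pow]
    have q1 := q67 hδ3 (x := x1) (by
      rw [hx1, ← mul_assoc, hhalf, one_mul])
    have q2 := q67 hδ4 (x := x2) (by
      rw [hx2, ← mul_assoc, hhalf, one_mul, sub_eq_add_neg])
    have s1 := m.sat x1 _ (eq67 hcK q1)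
    have s2 := m.sat x2 _ (eq67 hcK q2)
    obtain ⟨y1, hy1⟩ : ∃ y1, y1 = algebraMap k K y0 + τ * (x1 - algebraMap k K xc) := ⟨_, rfl⟩
    obtain ⟨y2, hy2⟩ : ∃ y2, y2 = algebraMap k K y0 + τ * (x2 - algebraMap k K xc) := ⟨_, rfl⟩
    rw [← hy1] at s1
    rw [← hy2] at s2
    have ry1 : ∀ {w : Place k K} {μ x : k}, IsRes w τ μ → IsRes w x1 x →
        IsRes w y1 (y0 + μ * (x - xc)) := by
      intro w μ x h5 h6
      rw [hy1]
      exact (isRes_const _).add (h5.mul (h6.sub (isRes_const _)))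
    have ry2 : ∀ {w : Place k K} {μ x : k}, IsRes w τ μ → IsRes w x2 x →
        IsRes w y2 (y0 + μ * (x - xc)) := by
      intro w μ x h5 h6
      rw [hy2]
      exact (isRes_const _).add (h5.mul (h6.sub (isRes_const _)))
    have key : ∀ (w : Place k K) {μ a b a' b' : k}, Ln67 At xc y0 μ a b a' b' → IsRes w τ μ →
        ((IsRes w x1 a ∧ IsRes w y1 b) ∧ (IsRes w x2 a' ∧ IsRes w y2 b')) ∨
        ((IsRes w x1 a' ∧ IsRes w y1 b') ∧ (IsRes w x2 a ∧ IsRes w y2 b)) := by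
      intro w μ a b a' b' hl hw
      have h5 := res67 hK hδ2 hl hw
      rw [← hx1, ← hx2] at h5
      rcases h5 with ⟨h6, h7⟩ | ⟨h6, h7⟩
      · left
        rw [hl.eP, hl.eQ]
        exact ⟨⟨h6, ry1 hw h6⟩, ⟨h7, ry2 hw h7⟩⟩
      · right
        rw [hl.eP, hl.eQ]
        exact ⟨⟨h6, ry1 hw h6⟩, ⟨h7, ry2 hw h7⟩⟩
    have hτ' : Transcendental k (τ - algebraMap k K μ) := by
      intro h6
      apply hτ
      have := h6.add (isAlgebraic_algebraMap (A := K) μ)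
      rwa [sub_add_cancel] at this
    obtain ⟨w0, hw0⟩ := exists_place hK hτ'
    have hw0' : IsRes w0 τ μ := hw0
    have hne : m.evt x1 y1 ≠ 0 ∧ m.evt x2 y2 ≠ 0 := by
      rcases key w0 hl hw0' with ⟨⟨h5, h6⟩, ⟨h7, h8⟩⟩ | ⟨⟨h5, h6⟩, ⟨h7, h8⟩⟩
      · exact ⟨res_ne_zero hP0 (evt_res67 m h5 h6), res_ne_zero hQ0 (evt_res67 m h7 h8)⟩
      · exact ⟨res_ne_zero hQ0 (evt_res67 m h5 h6), res_ne_zero hP0 (evt_res67 m h7 h8)⟩
    have hψ : Kills (D.S.prod D.S) (fun p => φ p.1 + φ p.2) := by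
      have i1 : Induced (D.S.prod D.S) D.S (fun p => p.1) :=
        fun K _ _ hK c => ⟨c.1, fun v => rfl⟩
      have i2 : Induced (D.S.prod D.S) D.S (fun p => p.2) :=
        fun K _ _ hK c => ⟨c.2, fun v => rfl⟩
      exact (hφ.comp i1).add (hφ.comp i2)
    have fin : ∀ {μ a b a' b' : k} (n : (sw At Bt).toAffine.Nonsingular a b)
        (n' : (sw At Bt).toAffine.Nonsingular a' b'), m.evt a b ≠ 0 → m.evt a' b' ≠ 0 →
        Ln67 At xc y0 μ a b a' b' → ∀ w : Place k K, IsRes w τ μ →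
        φ ((proj k D.I).eval hK (ppt _ hne.1 s1) w) + φ ((proj k D.I).eval hK (ppt _ hne.2 s2) w) =
          Finsupp.linearCombination ℤ φ (m.sp (EPt.mk a b n)) +
            Finsupp.linearCombination ℤ φ (m.sp (EPt.mk a' b' n')) := by
      intro μ a b a' b' n n' g g' hl w hw
      rcases key w hl hw with ⟨⟨h5, h6⟩, ⟨h7, h8⟩⟩ | ⟨⟨h5, h6⟩, ⟨h7, h8⟩⟩
      · rw [val67 m φ hK h5 h6 n g, val67 m φ hK h7 h8 n' g']
      · rw [val67 m φ hK h5 h6 n' g', val67 m φ hK h7 h8 n g, add_comm]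
    exact path hψ hK (X := D.S.prod D.S) (ppt _ hne.1 s1, ppt _ hne.2 s2) hτ hμμ
      (fun w hw => fin nP nQ hP0 hQ0 hl w hw)
      (fun w hw => fin nP' nQ' hP0' hQ0' hl' w hw)

end Pool.Agent.Helper21.TO

end CX
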