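import Mathlib
import Pool.Agent.Helper9.NS
import Pool.Agent.Helper40.CX.H21TO.Defs
import Pool.Agent.Helper40.CX.H21TO.AbsPsi
import Pool.Agent.Helper40.CX.H21TO.FinPt
import Pool.Agent.Helper40.CX.H21TO.FinBad
import Pool.Agent.Helper40.CX.H21TO.Pair
import Pool.Agent.Helper40.CX.Good2

namespace CX

/-!
# Block TO-PsiM: the difference homomorphism of a model
`exists_psi`: `abs_psi` with `G = EPt At Bt` (infinite by `infinite_EPt`), `f = φ_lin ∘ m.sp`,
`B = {b | ¬ m.Good b}` (finite by `Model.finite_bad`), `H` = `Model.pair`.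
`lin_cyc`: there is `b` with `b`, `a + b` good (`Model.exists_good`), so `m.cyc a` is the difference for
the chosen `b` (`dif_pos`, `Exists.choose_spec`).
The others: for every `φ` take `ψ` from `exists_psi` and use `lin_cyc` and additivity of `ψ`.
-/

set_option linter.unusedSectionVars false

namespace Pool.Agent.Helper21.TO

open VC VF Function Polynomial
open Pool.Agent.Helper51.EW (Wei WPt aff zeroPt)

universe u

variable {k : Type u} [Field k] [IsAlgClosed k] [CX.Good k] {W : Wei k} {L : Type u} [Field L]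
  [Algebra k L]

variable {D : Dat W L} {v : Place k L} {s : L} {At Bt : k} (m : Model D v s At Bt)

theorem Model.exists_psi {φ : D.S.Pt → ℂ} (hφ : Kills D.S φ) :
    ∃ ψ : EPt At Bt →+ ℂ, ∀ a b, m.Good b → m.Good (a + b) →
      Finsupp.linearCombination ℤ φ (m.sp (a + b)) - Finsupp.linearCombination ℤ φ (m.sp b) =
        ψ a := by
  have := infinite_EPt At Bt
  obtain ⟨ψ, hψ⟩ := abs_psi (fun P : EPt At Bt => Finsupp.linearCombination ℤ φ (m.sp P))
    {b | ¬ m.Good b} m.finite_bad (by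
      intro P Q P' Q' hP hQ hP' hQ' hs h0 h1 h2 h3 h4
      exact m.pair hφ P Q P' Q' (not_not.mp hP) (not_not.mp hQ) (not_not.mp hP')
        (not_not.mp hQ') hs h0 h1 h2 h3 h4)
  exact ⟨ψ, fun a b hb hab => hψ a b (not_not.mpr hb) (not_not.mpr hab)⟩

theorem Model.lin_cyc {φ : D.S.Pt → ℂ} (hφ : Kills D.S φ) :
    ∃ ψ : EPt At Bt →+ ℂ, (∀ a b, m.Good b → m.Good (a + b) →
      Finsupp.linearCombination ℤ φ (m.sp (a + b)) - Finsupp.linearCombination ℤ φ (m.sp b) =
        ψ a) ∧ ∀ a, Finsupp.linearCombination ℤ φ (m.cyc a) = ψ a := by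
  obtain ⟨ψ, hψ⟩ := m.exists_psi hφ
  refine ⟨ψ, hψ, fun a => ?_⟩
  obtain ⟨b, hb, hab, -⟩ := m.exists_good a ∅ Set.finite_empty
  have h : ∃ b, m.Good b ∧ m.Good (a + b) := ⟨b, hb, hab⟩
  unfold Model.cyc
  rw [dif_pos h, map_sub]
  exact hψ a h.choose h.choose_spec.1 h.choose_spec.2

theorem Model.nul_cyc (a b : EPt At Bt) (hb : m.Good b) (hab : m.Good (a + b)) :
    Nul D.S (m.cyc a - (m.sp (a + b) - m.sp b)) := by
  intro φ hφ
  obtain ⟨ψ, h1, h2⟩ := m.lin_cyc hφ
  rw [map_sub, map_sub, h2 a, h1 a b hb hab, sub_self]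

theorem Model.nul_cyc_add (a b : EPt At Bt) : Nul D.S (m.cyc (a + b) - (m.cyc a + m.cyc b)) := by
  intro φ hφ
  obtain ⟨ψ, h1, h2⟩ := m.lin_cyc hφ
  rw [map_sub, map_add, h2, h2, h2, map_add, sub_self]

theorem Model.nul_cyc_nsmul (n : ℕ) (a : EPt At Bt) :
    Nul D.S (m.cyc (n • a) - n • m.cyc a) := by
  intro φ hφ
  obtain ⟨ψ, h1, h2⟩ := m.lin_cyc hφ
  rw [map_sub, map_nsmul, h2, h2, map_nsmul, sub_self]

theorem Model.cyc_zero : m.cyc 0 = 0 := by
  unfold Model.cyc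
  split_ifs with h
  · rw [zero_add, sub_self]
  · rfl

end Pool.Agent.Helper21.TO

end CX
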