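import Mathlib
import Pool.Agent.Helper9.NS
import Pool.Agent.Helper40.CX.H21TO.Defs
import Pool.Agent.Helper40.CX.Good2

namespace CX

/-!
# Block TO-RedNe: reduction of a sum, different `x`-coordinates
Write `x1 y1`, `x2 y2` for the coordinates of `P`, `Q` (both affine, as their reductions are:
`Red w σ .zero (mk ..)` says `mk .. = 0`, which is false). `X1 ≠ X2` gives `x1 ≠ x2`
(uniqueness of residues). `P + Q = mk x3 y3` by `add_of_X_ne` / `add_some`, with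
`l = (y1 - y2) / (x1 - x2)` (`slope_of_X_ne`), `x3 = l ^ 2 - x1 - x2`,
`y3 = -(y1 + l (x3 - x1))` (`addX`, `addY`, `negAddY`, `negY` with `a₁ = a₂ = a₃ = 0`). Scaled:
`σ l = (σ ^ 3 y1 - σ ^ 3 y2) / (σ ^ 2 x1 - σ ^ 2 x2)` has the residue
`(Y1 - Y2) / (X1 - X2)` (`VF.IsRes.inv` / `IsRes.div'` in Helper51/EW/Path.lean: if `z` has the
residue `c ≠ 0` then `z⁻¹` has the residue `c⁻¹`), etc. No hypothesis on `At`, `Bt` is used.
-/

set_option linter.unusedSectionVars false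

namespace Pool.Agent.Helper21.TO

open VC VF Function Polynomial
open Pool.Agent.Helper51.EW (Wei WPt aff zeroPt)

universe u

variable {k K : Type u} [Field k] [IsAlgClosed k] [CX.Good k] [Field K] [Algebra k K]
  {w : Place k K} {σ a b : K} {At Bt : k}

private lemma inv43 {v : Place k K} {x : K} {c : k}
    (hK : IsFunctionField k K) (h : IsRes v x c) (hc : c ≠ 0) : IsRes v x⁻¹ c⁻¹ := by
  obtain ⟨hx, hx'⟩ := h.inv_mem hc
  obtain ⟨e, he⟩ := exists_res hK hx'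
  have h1 := h.mul he
  rw [mul_inv_cancel₀ hx] at h1
  have h2 := h1.unique isRes_one
  rwa [eq_inv_of_mul_eq_one_right h2] at he

theorem red_add_ne (hd : RedData w σ a b At Bt) {P Q : EPt a b} {X1 Y1 X2 Y2 : k}
    {h1 : (sw At Bt).toAffine.Nonsingular X1 Y1} {h2 : (sw At Bt).toAffine.Nonsingular X2 Y2}
    (hP : Red w σ P (EPt.mk X1 Y1 h1)) (hQ : Red w σ Q (EPt.mk X2 Y2 h2)) (hX : X1 ≠ X2) :
    Red w σ (P + Q) (EPt.mk X1 Y1 h1 + EPt.mk X2 Y2 h2) := by
  match P, Q, hP, hQ with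
  | .zero, _, hP, _ => exact absurd hP (WeierstrassCurve.Affine.Point.some_ne_zero h1)
  | .some x1 y1 g1, .zero, _, hQ =>
    exact absurd hQ (WeierstrassCurve.Affine.Point.some_ne_zero h2)
  | .some x1 y1 g1, .some x2 y2 g2, hP, hQ =>
    obtain ⟨hx1, hy1⟩ := hP
    obtain ⟨hx2, hy2⟩ := hQ
    have hx : x1 ≠ x2 := by
      rintro rfl
      exact hX (hx1.unique hx2)
    have hσ := hd.ne
    have hsub : x1 - x2 ≠ 0 := sub_ne_zero.2 hx
    have hXsub : X1 - X2 ≠ 0 := sub_ne_zero.2 hX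
    have hl : IsRes w (σ * ((y1 - y2) / (x1 - x2))) ((Y1 - Y2) / (X1 - X2)) := by
      have h3 := (hy1.sub hy2).mul (inv43 hd.hK (hx1.sub hx2) hXsub)
      have e : (σ ^ 3 * y1 - σ ^ 3 * y2) * (σ ^ 2 * x1 - σ ^ 2 * x2)⁻¹ =
          σ * ((y1 - y2) / (x1 - x2)) := by
        rw [← mul_sub, ← mul_sub]
        field_simp
      rw [e] at h3
      rw [div_eq_mul_inv (Y1 - Y2)]
      exact h3
    have hx3 : IsRes w (σ ^ 2 * (((y1 - y2) / (x1 - x2)) ^ 2 - x1 - x2))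
        (((Y1 - Y2) / (X1 - X2)) ^ 2 - X1 - X2) := by
      have h3 := ((hl.pow 2).sub hx1).sub hx2
      have e : (σ * ((y1 - y2) / (x1 - x2))) ^ 2 - σ ^ 2 * x1 - σ ^ 2 * x2 =
          σ ^ 2 * (((y1 - y2) / (x1 - x2)) ^ 2 - x1 - x2) := by ring
      rwa [e] at h3
    have hy3 : IsRes w (σ ^ 3 * (-((y1 - y2) / (x1 - x2) *
        ((((y1 - y2) / (x1 - x2)) ^ 2 - x1 - x2) - x1) + y1)))
        (-((Y1 - Y2) / (X1 - X2) * ((((Y1 - Y2) / (X1 - X2)) ^ 2 - X1 - X2) - X1) + Y1)) := by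
      have h3 := ((hl.mul (hx3.sub hx1)).add hy1).neg
      have e : -(σ * ((y1 - y2) / (x1 - x2)) *
          (σ ^ 2 * (((y1 - y2) / (x1 - x2)) ^ 2 - x1 - x2) - σ ^ 2 * x1) + σ ^ 3 * y1) =
          σ ^ 3 * (-((y1 - y2) / (x1 - x2) *
        ((((y1 - y2) / (x1 - x2)) ^ 2 - x1 - x2) - x1) + y1)) := by ring
      rwa [e] at h3
    rw [WeierstrassCurve.Affine.Point.add_of_X_ne hx, WeierstrassCurve.Affine.Point.add_of_X_ne hX]
    refine ⟨?_, ?_⟩
    · rw [WeierstrassCurve.Affine.slope_of_X_ne hx, WeierstrassCurve.Affine.slope_of_X_ne hX]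
      simp only [WeierstrassCurve.Affine.addX, zero_mul, add_zero, sub_zero]
      exact hx3
    · rw [WeierstrassCurve.Affine.slope_of_X_ne hx, WeierstrassCurve.Affine.slope_of_X_ne hX]
      simp only [WeierstrassCurve.Affine.addY, WeierstrassCurve.Affine.negAddY,
        WeierstrassCurve.Affine.negY, WeierstrassCurve.Affine.addX, zero_mul, add_zero, sub_zero]
      exact hy3

end Pool.Agent.Helper21.TO

end CX
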