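import Mathlib
import Pool.Agent.Helper9.NS
import Pool.Agent.Helper40.CX.H21TO.Defs
import Pool.Agent.Helper40.CX.Good2

namespace CX

/-!
# Block TO-RedZero: reduction of a sum, one point reducing to the origin
If `P = 0` trivial. Otherwise `P = mk x1 y1` with `σ ^ 2 x1` not regular, `Q = mk x y` with
`σ ^ 2 x`, `σ ^ 3 y` regular with residues `X`, `Y`. Replace everything by the scaled quantities
(`x1 := σ ^ 2 x1`, `y1 := σ ^ 3 y1`, `A := σ ^ 4 a`, `B := σ ^ 6 b`, slope `:= σ l`). `x1 ≠ x`, and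
`u := 1 / x1` has the residue `0`. `w := y1 / x1 ^ 2` has the residue `0`, since
`w ^ 2 = u + A u ^ 3 + B u ^ 4`. With `l = (y1 - y) / (x1 - x)`:
* `x3 = l ^ 2 - x1 - x` satisfies
  `x3 (1 - x u) ^ 2 = (1 + x u) (x + A u) + 2 B u ^ 2 - 2 y w`,
  (use `y1 ^ 2 = x1 ^ 3 + A x1 + B`, `y ^ 2 = x ^ 3 + A x + B`), so `x3` is regular with residue `X`
  (the factor `(1 - x u) ^ 2` has the residue `1`);
* `y3 = -(y + l (x3 - x))` and, with `D = 1 - x u`,
  `l (x3 - x) D ^ 3 = (y1 - y) (-2 y y1 + (3 x ^ 2 + A) x1 + A x + 2 B - x ^ 3) u ^ 3`; expand: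
  `y1 ^ 2 u ^ 3 = 1 + A u ^ 2 + B u ^ 3` has the residue `1`, `y1 u ^ 3 = w u`,
  `y1 x1 u ^ 3 = w` have the residue `0`; so `l (x3 - x)` has the residue `-2 Y` and `y3` has the
  residue `Y`.
(The addition formulas as in the block RedNe: `add_of_X_ne`, `slope_of_X_ne`.)
-/

set_option linter.unusedSectionVars false

namespace Pool.Agent.Helper21.TO

open VC VF Function Polynomial
open Pool.Agent.Helper51.EW (Wei WPt aff zeroPt)

universe u

variable {k K : Type u} [Field k] [IsAlgClosed k] [CX.Good k] [Field K] [Algebra k K]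
  {w : Place k K} {σ a b : K} {At Bt : k}

private lemma core56 (hK : IsFunctionField k K) {x1 y1 x y A B : K} {X Y : k}
    (e1 : y1 ^ 2 = x1 ^ 3 + A * x1 + B) (e2 : y ^ 2 = x ^ 3 + A * x + B)
    (hA : IsRes w A At) (hB : IsRes w B Bt) (hx : IsRes w x X) (hy : IsRes w y Y)
    (hx1 : x1 ∉ w.ring) :
    IsRes w (((y1 - y) / (x1 - x)) ^ 2 - x1 - x) X ∧
      IsRes w (-((y1 - y) / (x1 - x) * (((y1 - y) / (x1 - x)) ^ 2 - x1 - x - x1) + y1)) Y := by
  have h0 : x1 ≠ 0 := by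
    rintro rfl
    exact hx1 w.ring.zero_mem
  have hne : x1 - x ≠ 0 := by
    intro h
    apply hx1
    rw [sub_eq_zero.mp h]
    exact hx.mem
  have c2 : IsRes w (2 : K) (2 : k) := by
    have := isRes_const (v := w) (2 : k)
    rwa [map_ofNat] at this
  have c3 : IsRes w (3 : K) (3 : k) := by
    have := isRes_const (v := w) (3 : k)
    rwa [map_ofNat] at this
  have c1 : IsRes w (1 : K) (1 : k) := isRes_one
  obtain ⟨u, hu⟩ : ∃ u, u = x1⁻¹ := ⟨_, rfl⟩
  have hu1 : x1 * u = 1 := by rw [hu, mul_inv_cancel₀ h0]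
  have hur : IsRes w u 0 := by
    rw [isRes_zero_iff, ValuationSubring.mem_nonunits_iff_or, hu, inv_inv]
    exact Or.inr hx1
  have hwr : IsRes w (y1 * u ^ 2) 0 := by
    have h1 : IsRes w ((y1 * u ^ 2) ^ 2) (0 : k) := by
      have e : (y1 * u ^ 2) ^ 2 = u + A * u ^ 3 + B * u ^ 4 := by
        linear_combination u ^ 4 * e1 +
          (u * ((x1 * u) ^ 2 + x1 * u + 1) + A * u ^ 3) * hu1
      rw [e]
      have := (hur.add (hA.mul (hur.pow 3))).add (hB.mul (hur.pow 4))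
      convert this using 1
      ring
    obtain ⟨e, he, he2⟩ := exists_res_of_pow hK two_ne_zero h1
    have he0 : e = 0 := (pow_eq_zero_iff two_ne_zero).mp he2
    rwa [he0] at he
  obtain ⟨L, hLd⟩ : ∃ L, L = (y1 - y) / (x1 - x) := ⟨_, rfl⟩
  have hL : L * (x1 - x) = y1 - y := by rw [hLd, div_mul_cancel₀ _ hne]
  have hDe : 1 - x * u = (x1 - x) * u := by linear_combination -hu1
  have hD : IsRes w (1 - x * u) 1 := by
    have := c1.sub (hx.mul hur)
    convert this using 1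
    ring
  have hD0 : 1 - x * u ≠ 0 := hD.ne_zero one_ne_zero
  have hDi : IsRes w (1 - x * u)⁻¹ 1 := by
    obtain ⟨e, he⟩ := exists_res hK (hD.inv_mem one_ne_zero).2
    have h1 := hD.mul he
    rw [mul_inv_cancel₀ hD0, one_mul] at h1
    rwa [← c1.unique h1] at he
  rw [← hLd]
  constructor
  · have e : (L ^ 2 - x1 - x) * (1 - x * u) ^ 2 =
        (1 + x * u) * (x + A * u) + 2 * B * u ^ 2 - 2 * y * (y1 * u ^ 2) := by
      have e3 : (L ^ 2 - x1 - x) * (1 - x * u) ^ 2 =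
          ((L * (x1 - x)) ^ 2 - (x1 + x) * (x1 - x) ^ 2) * u ^ 2 := by
        rw [hDe]; ring
      rw [e3, hL]
      linear_combination u ^ 2 * e1 + u ^ 2 * e2 +
        (A * u + (x1 * u + 1) * x + x ^ 2 * u) * hu1
    have e4 : L ^ 2 - x1 - x = ((1 + x * u) * (x + A * u) + 2 * B * u ^ 2 -
        2 * y * (y1 * u ^ 2)) * ((1 - x * u)⁻¹) ^ 2 := by
      rw [← e, inv_pow, mul_inv_cancel_right₀ (pow_ne_zero _ hD0)]
    rw [e4]
    have := (((c1.add (hx.mul hur)).mul (hx.add (hA.mul hur))).add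
      ((c2.mul hB).mul (hur.pow 2))).sub ((c2.mul hy).mul hwr)
    have := this.mul (hDi.pow 2)
    convert this using 1
    ring
  · have e : L * (L ^ 2 - x1 - x - x) * (1 - x * u) ^ 3 =
        -2 * y * (1 + A * u ^ 2 + B * u ^ 3) + (3 * x ^ 2 + A) * (y1 * u ^ 2) +
        (A * x + 2 * B - x ^ 3 + 2 * y ^ 2) * (y1 * u ^ 2) * u - y * (3 * x ^ 2 + A) * u ^ 2 -
        y * (A * x + 2 * B - x ^ 3) * u ^ 3 := by
      have e3 : L * (L ^ 2 - x1 - x - x) * (1 - x * u) ^ 3 =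
          (L * (x1 - x)) * ((L * (x1 - x)) ^ 2 - (x1 + 2 * x) * (x1 - x) ^ 2) * u ^ 3 := by
        rw [hDe]; ring
      have e4 : (y1 - y) ^ 2 - (x1 + 2 * x) * (x1 - x) ^ 2 =
          -2 * y * y1 + (3 * x ^ 2 + A) * x1 + A * x + 2 * B - x ^ 3 := by
        linear_combination e1 + e2
      rw [e3, hL, e4]
      linear_combination (-2 * y * u ^ 3) * e1 +
        (-2 * y * ((x1 * u) ^ 2 + x1 * u + 1) - 2 * y * A * u ^ 2 +
          (3 * x ^ 2 + A) * y1 * u ^ 2 - y * (3 * x ^ 2 + A) * u ^ 2) * hu1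
    have e5 : -(L * (L ^ 2 - x1 - x - x1) + y1) = -(L * (L ^ 2 - x1 - x - x) + y) := by
      linear_combination hL
    have e6 : L * (L ^ 2 - x1 - x - x) =
        (-2 * y * (1 + A * u ^ 2 + B * u ^ 3) + (3 * x ^ 2 + A) * (y1 * u ^ 2) +
        (A * x + 2 * B - x ^ 3 + 2 * y ^ 2) * (y1 * u ^ 2) * u - y * (3 * x ^ 2 + A) * u ^ 2 -
        y * (A * x + 2 * B - x ^ 3) * u ^ 3) * ((1 - x * u)⁻¹) ^ 3 := by
      rw [← e, inv_pow, mul_inv_cancel_right₀ (pow_ne_zero _ hD0)]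
    rw [e5, e6]
    have f1 := (c2.neg.mul hy).mul ((c1.add (hA.mul (hur.pow 2))).add (hB.mul (hur.pow 3)))
    have f2 := ((c3.mul (hx.pow 2)).add hA).mul hwr
    have f3 := ((((((hA.mul hx).add (c2.mul hB)).sub (hx.pow 3)).add
      (c2.mul (hy.pow 2))).mul hwr).mul hur)
    have f4 := (hy.mul ((c3.mul (hx.pow 2)).add hA)).mul (hur.pow 2)
    have f5 := (hy.mul (((hA.mul hx).add (c2.mul hB)).sub (hx.pow 3))).mul (hur.pow 3)
    have f6 := ((((((f1.add f2).add f3).sub f4).sub f5).mul (hDi.pow 3)).add hy).neg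
    convert f6 using 1
    ring

theorem red_add_zero (hd : RedData w σ a b At Bt) {P Q : EPt a b} {X Y : k}
    {h : (sw At Bt).toAffine.Nonsingular X Y}
    (hP : Red w σ P (0 : EPt At Bt)) (hQ : Red w σ Q (EPt.mk X Y h)) :
    Red w σ (P + Q) (EPt.mk X Y h) := by
  rcases P with _ | ⟨x1, y1, h1⟩
  · have e : (WeierstrassCurve.Affine.Point.zero : EPt a b) + Q = Q := zero_add Q
    rw [e]
    exact hQ
  rcases Q with _ | ⟨x, y, h2⟩
  · exact absurd hQ (WeierstrassCurve.Affine.Point.some_ne_zero h)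
  have hP' : σ ^ 2 * x1 ∉ w.ring := hP
  obtain ⟨hQ1, hQ2⟩ : IsRes w (σ ^ 2 * x) X ∧ IsRes w (σ ^ 3 * y) Y := hQ
  have hne : x1 ≠ x := by
    rintro rfl
    exact hP' hQ1.mem
  have q1 := (sw_nonsingular.mp h1).1
  have q2 := (sw_nonsingular.mp h2).1
  have hσ := hd.ne
  obtain ⟨g1, g2⟩ := core56 hd.hK (x1 := σ ^ 2 * x1) (y1 := σ ^ 3 * y1) (x := σ ^ 2 * x)
    (y := σ ^ 3 * y) (A := σ ^ 4 * a) (B := σ ^ 6 * b)
    (by linear_combination σ ^ 6 * q1) (by linear_combination σ ^ 6 * q2) hd.hA hd.hB hQ1 hQ2 hP'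
  have hl : (σ ^ 3 * y1 - σ ^ 3 * y) / (σ ^ 2 * x1 - σ ^ 2 * x) = σ * ((y1 - y) / (x1 - x)) := by
    have h3 : x1 - x ≠ 0 := sub_ne_zero.mpr hne
    rw [← mul_sub, ← mul_sub]
    field_simp
  rw [hl] at g1 g2
  rw [WeierstrassCurve.Affine.Point.add_of_X_ne hne]
  refine ⟨?_, ?_⟩
  · convert g1 using 1
    rw [WeierstrassCurve.Affine.slope_of_X_ne hne, WeierstrassCurve.Affine.addX]
    ring
  · convert g2 using 1
    rw [WeierstrassCurve.Affine.slope_of_X_ne hne, WeierstrassCurve.Affine.addY,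
      WeierstrassCurve.Affine.negAddY, WeierstrassCurve.Affine.negY, WeierstrassCurve.Affine.addX]
    ring

end Pool.Agent.Helper21.TO

end CX
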