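import Mathlib
import Pool.Agent.Helper9.NS
import Pool.Agent.Helper40.CX.H21TO.Defs
import Pool.Agent.Helper40.CX.H21TO.MapPt
import Pool.Agent.Helper40.CX.H21TO.RedNe
import Pool.Agent.Helper40.CX.H21TO.RedZero
import Pool.Agent.Helper40.CX.H21TO.RedOpp
import Pool.Agent.Helper40.CX.H21TO.FinPt
import Pool.Agent.Helper40.CX.H21TO.RedMap
import Pool.Agent.Helper40.CX.Good2

namespace CX

/-!
# Block TO-RedAdd: reduction is additive
Let `Pt`, `Qt` be the reductions. Choose by `exists_X` an element `X0` of `k` with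
`X0 ^ 3 + At X0 + Bt ≠ 0` such that no point `Ut = (X0, Y0)` lies in the finite set of the `U` with
one of: `U = -Pt`, `U = Pt`, `U = 0`, `U = -(Pt + Qt)`, `Pt + U = Qt`, `Pt + U = -Qt`,
`U + U = -(Pt + Qt)` (`finite_two`). Put
`z = X0 / σ ^ 2` and take an extension `K'` of `K` with an element `y`, `y ^ 2 = z ^ 3 + a z + b`
(`VF.exists_roots` with `n = 1`, `m = 2`), a place `w'` over `w` (`VP.exists_res`, `over_res`), and
`U = mk z y` (`nonsing_of_x`), with reduction `Ut = (X0, Y0)`, `Y0 ≠ 0` (`red_of_x`). By `red_map`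
and `mapPt_add` it suffices to prove the claim in `K'`; `P`, `Q` now stand for their images.
(1) `P + U` reduces to `Pt + Ut`: `red_add_ne` if `Pt` is affine (`x`-coordinates differ as
`Ut ≠ ± Pt`, `WeierstrassCurve.Affine.Point.X_eq_iff`), `red_add_zero` if `Pt = 0`.
(2) `(P + U) + Q` reduces to `(Pt + Ut) + Qt`: `Pt + Ut ≠ 0` is affine; `red_add_ne` if `Qt` is
affine (`Pt + Ut ≠ ± Qt`), `red_add_zero` (and commutativity) if `Qt = 0`.
(3) `(P + Q + U) + (-U)` reduces to `Pt + Qt`: `-U` reduces to `-Ut` and `Zt = Pt + Qt + Ut ≠ 0`.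
If `Pt + Qt ≠ 0`: `Zt ≠ Ut` and `Zt ≠ -Ut`, use `red_add_ne`. If `Pt + Qt = 0`: `Zt = Ut`, use
`red_add_opp`.
-/

set_option linter.unusedSectionVars false

namespace Pool.Agent.Helper21.TO

open VC VF Function Polynomial
open Pool.Agent.Helper51.EW (Wei WPt aff zeroPt)

universe u

variable {k K : Type u} [Field k] [IsAlgClosed k] [CX.Good k] [Field K] [Algebra k K]
  {w : Place k K} {σ a b : K} {At Bt : k}

theorem red_neg {P : EPt a b} {Pt : EPt At Bt} (hP : Red w σ P Pt) : Red w σ (-P) (-Pt) := by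
  rcases P with _ | ⟨x, y, h⟩
  · have h1 : Pt = 0 := hP
    rw [h1]
    exact (neg_zero : -(0 : EPt At Bt) = 0)
  · rcases Pt with _ | ⟨X, Y, h'⟩
    · exact hP
    · refine ⟨hP.1, ?_⟩
      have e1 : (sw a b).toAffine.negY x y = -y := by simp [WeierstrassCurve.Affine.negY]
      have e2 : (sw At Bt).toAffine.negY X Y = -Y := by simp [WeierstrassCurve.Affine.negY]
      rw [e1, e2, mul_neg]
      exact hP.2.neg

/-- The sum of two points whose reductions have different `x`-coordinates. -/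
private lemma red_add_gen67 (hd : RedData w σ a b At Bt) {P Q : EPt a b} {Pt Qt : EPt At Bt}
    (hP : Red w σ P Pt) (hQ : Red w σ Q Qt) (h1 : Pt ≠ Qt) (h2 : Pt ≠ -Qt) :
    Red w σ (P + Q) (Pt + Qt) := by
  rcases Pt with _ | ⟨X1, Y1, g1⟩
  · rcases Qt with _ | ⟨X2, Y2, g2⟩
    · exact absurd rfl h1
    · have h3 : Red w σ (P + Q) (EPt.mk X2 Y2 g2) := red_add_zero hd hP hQ
      change Red w σ (P + Q) ((0 : EPt At Bt) + EPt.mk X2 Y2 g2)
      rw [zero_add]
      exact h3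
  · rcases Qt with _ | ⟨X2, Y2, g2⟩
    · have h3 : Red w σ (Q + P) (EPt.mk X1 Y1 g1) := red_add_zero hd hQ hP
      change Red w σ (P + Q) (EPt.mk X1 Y1 g1 + (0 : EPt At Bt))
      rw [add_zero, add_comm]
      exact h3
    · refine red_add_ne hd hP hQ fun hX => ?_
      rcases (WeierstrassCurve.Affine.Point.X_eq_iff (h₁ := g1) (h₂ := g2)).mp hX with h3 | h3
      · exact h1 h3
      · exact h2 h3

/-- Additivity, given a general point. -/
private lemma red_add_aux67 (hd : RedData w σ a b At Bt) {P Q U : EPt a b} {Pt Qt : EPt At Bt}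
    {X0 Y0 : k} {h0 : (sw At Bt).toAffine.Nonsingular X0 Y0} (hY : Y0 ≠ 0)
    (hP : Red w σ P Pt) (hQ : Red w σ Q Qt) (hU : Red w σ U (EPt.mk X0 Y0 h0))
    (c1 : EPt.mk X0 Y0 h0 ≠ Pt) (c2 : EPt.mk X0 Y0 h0 ≠ -Pt) (c3 : EPt.mk X0 Y0 h0 ≠ Qt - Pt)
    (c4 : EPt.mk X0 Y0 h0 ≠ -Qt - Pt)
    (c5 : EPt.mk X0 Y0 h0 + EPt.mk X0 Y0 h0 ≠ -(Pt + Qt)) :
    Red w σ (P + Q) (Pt + Qt) := by
  have hns : (sw At Bt).toAffine.Nonsingular X0 (-Y0) := by
    refine sw_nonsingular.mpr ⟨by rw [neg_sq]; exact (sw_nonsingular.mp h0).1, Or.inr fun h => hY ?_⟩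
    have h2 : (2 : k) * Y0 = 0 := by linear_combination -h
    exact (mul_eq_zero.mp h2).resolve_left two_ne_zero
  have e3 : -EPt.mk X0 Y0 h0 = EPt.mk X0 (-Y0) hns := by
    simp only [WeierstrassCurve.Affine.Point.neg_some, WeierstrassCurve.Affine.Point.some.injEq,
      true_and]
    simp [WeierstrassCurve.Affine.negY]
  obtain ⟨Ut, hUt⟩ : ∃ Ut : EPt At Bt, Ut = EPt.mk X0 Y0 h0 := ⟨_, rfl⟩
  have hU' := hU
  have e3' := e3
  rw [← hUt] at hU' c1 c2 c3 c4 c5 e3'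
  have s1 := red_add_gen67 hd hP hU' (fun h => c1 h.symm) (fun h => c2 (by rw [h, neg_neg]))
  have s2 := red_add_gen67 hd s1 hQ (fun h => c3 (by rw [← h]; abel))
    (fun h => c4 (by rw [← h]; abel))
  have s3 := red_neg hU'
  have e1 : P + U + Q + -U = P + Q := by abel
  by_cases hz : Pt + Qt = 0
  · have e2 : Pt + Ut + Qt = EPt.mk X0 Y0 h0 := by
      rw [add_right_comm, hz, zero_add, hUt]
    rw [e2] at s2
    rw [e3'] at s3
    have s4 := red_add_opp hd s2 s3 hY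
    rw [e1] at s4
    rw [hz]
    exact s4
  · have s4 := red_add_gen67 hd s2 s3 (fun h => c5 ?_) (fun h => hz ?_)
    · have e2 : Pt + Ut + Qt + -Ut = Pt + Qt := by abel
      rwa [e1, e2] at s4
    · have h4 : Ut + Ut + (Pt + Qt) = 0 := by
        have : Pt + Ut + Qt + Ut = 0 := by rw [h]; abel
        rw [← this]; abel
      exact eq_neg_of_add_eq_zero_left h4
    · rw [neg_neg] at h
      have : Pt + Ut + Qt - Ut = 0 := by rw [h]; abel
      rw [← this]; abel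

theorem red_add (hd : RedData w σ a b At Bt) {P Q : EPt a b} {Pt Qt : EPt At Bt}
    (hP : Red w σ P Pt) (hQ : Red w σ Q Qt) : Red w σ (P + Q) (Pt + Qt) := by
  have hfin : (({Pt, -Pt, Qt - Pt, -Qt - Pt} : Set (EPt At Bt)) ∪
      {U : EPt At Bt | U + U = -(Pt + Qt)}).Finite :=
    (Set.toFinite _).union (finite_two _)
  obtain ⟨X0, hX0, hB⟩ := exists_X _ hfin
  obtain ⟨z, hz⟩ : ∃ z : K, z = algebraMap k K X0 / σ ^ 2 := ⟨_, rfl⟩
  have hσ2 : σ ^ 2 ≠ 0 := pow_ne_zero 2 hd.ne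
  have hσz : σ ^ 2 * z = algebraMap k K X0 := by
    rw [hz, mul_div_cancel₀ _ hσ2]
  have hzr : IsRes w (σ ^ 2 * z) X0 := by
    rw [hσz]
    exact isRes_const _
  obtain ⟨K', _, _, _, _, y, hK', hy⟩ := VF.exists_roots hd.hK (m := 2) two_ne_zero
    (fun _ : Fin 1 => z ^ 3 + a * z + b)
  obtain ⟨w', hw'⟩ := VP.exists_res hd.hK hK' w
  have ho : Over w (IsScalarTower.toAlgHom k K K') w' := by
    rw [← hw']
    exact over_res hd.hK hK' w'
  obtain ⟨κ, hκ⟩ : ∃ κ : K →ₐ[k] K', κ = IsScalarTower.toAlgHom k K K' := ⟨_, rfl⟩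
  rw [← hκ] at ho
  have hd' : RedData w' (κ σ) (κ a) (κ b) At Bt := hd.map hK' κ ho
  have hz' : IsRes w' (κ σ ^ 2 * κ z) X0 := by
    have h1 := ho _ _ hzr
    rwa [map_mul, map_pow] at h1
  have heq : y 0 ^ 2 = κ z ^ 3 + κ a * κ z + κ b := by
    rw [hy 0, ← map_mul, ← map_pow, ← map_add, ← map_add, hκ]
    rfl
  have hns := nonsing_of_x hd' hX0 hz' heq
  obtain ⟨Y0, h0, hY0, hU⟩ := red_of_x hd' hX0 hz' hns
  have hB0 := hB Y0 h0
  simp only [Set.mem_union, Set.mem_insert_iff, Set.mem_singleton_iff, Set.mem_ofPred_eq,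
    not_or] at hB0
  obtain ⟨⟨c1, c2, c3, c4⟩, c5⟩ := hB0
  rw [← red_map hd.hK κ ho, mapPt_add]
  exact red_add_aux67 hd' hY0 ((red_map hd.hK κ ho P Pt).mpr hP)
    ((red_map hd.hK κ ho Q Qt).mpr hQ) hU c1 c2 c3 c4 c5

theorem red_nsmul (hd : RedData w σ a b At Bt) {P : EPt a b} {Pt : EPt At Bt}
    (hP : Red w σ P Pt) (n : ℕ) : Red w σ (n • P) (n • Pt) := by
  induction n with
  | zero =>
    rw [zero_nsmul, zero_nsmul]
    exact (rfl : (0 : EPt At Bt) = 0)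
  | succ n ih =>
    rw [succ_nsmul, succ_nsmul]
    exact red_add hd ih hP

end Pool.Agent.Helper21.TO

end CX
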