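import Mathlib
import Pool.Agent.Helper9.NS
import Pool.Agent.Helper40.CX.H21TO.Defs
import Pool.Agent.Helper40.CX.H21TO.Defs2
import Pool.Agent.Helper40.CX.H21TO.Inertia
import Pool.Agent.Helper40.CX.H21TO.ScaleZero
import Pool.Agent.Helper40.CX.H21TO.TwistCyc
import Pool.Agent.Helper40.CX.H21TO.PsiM
import Pool.Agent.Helper40.CX.Good2

namespace CX

/-!
# Block TO-BadNul: potentially good bad fibres
Take `τ`, `c0` from `inertia` and `e` from `D.tw`. `At = c0 ^ 4 At`: `τ (s ^ 4 a)` has the residue `At`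
(`Over v τ v`) and equals `(τ s / s) ^ 4 (s ^ 4 a)` (`τ a = a` by `map_cA`), whose residue is
`c0 ^ 4 At`; the same for `Bt`. By `Model.twist_cyc` with `v' = v`, `m' = m`, `s' = s`:
`Nul (m.cyc a - m.cyc (scF c0 a))`. For every `φ` with `Kills`, with `ψ` from `Model.lin_cyc`:
`ψ (scF a) = ψ a`, so `ψ = 0` by `psi_zero_of_scale`.
-/

set_option linter.unusedSectionVars false

namespace Pool.Agent.Helper21.TO

open VC VF Function Polynomial
open Pool.Agent.Helper51.EW (Wei WPt aff zeroPt)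

universe u

variable {k : Type u} [Field k] [IsAlgClosed k] [CX.Good k] {W : Wei k} {L : Type u} [Field L]
  [Algebra k L]

theorem Model.nul_bad {D : Dat W L} (hmin : Minimal W) {v : Place k L} {l : L} {c : Fin 2 → k}
    (hb : Base D v l c) (hd : disc W c = 0) {s : L} {At Bt : k} (m : Model D v s At Bt)
    (hΔ : 4 * At ^ 3 + 27 * Bt ^ 2 ≠ 0) (a : EPt At Bt) : Nul D.S (m.cyc a) := by
  obtain ⟨τ, hτ, hov, c0, hc0, hc1, hres⟩ := inertia hmin hb hd m.s_ne m.hA m.hB hΔ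
  obtain ⟨e, he⟩ := D.tw τ hτ
  have hτt : τ D.t = D.t := D.fixt τ hτ
  have hτa : τ D.a = D.a := by
    have h1 := map_cA D ((τ : L ≃ₐ[k] L) : L →ₐ[k] L)
    have h2 : ((τ : L ≃ₐ[k] L) : L →ₐ[k] L) D.t = D.t := hτt
    rw [h2] at h1
    exact h1
  have hτb : τ D.b = D.b := by
    have h1 := map_cB D ((τ : L ≃ₐ[k] L) : L →ₐ[k] L)
    have h2 : ((τ : L ≃ₐ[k] L) : L →ₐ[k] L) D.t = D.t := hτt
    rw [h2] at h1
    exact h1
  have hs := m.s_ne
  have hA : At = c0 ^ 4 * At := by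
    have h1 : IsRes v (((τ : L ≃ₐ[k] L) : L →ₐ[k] L) (s ^ 4 * D.a)) At := hov _ _ m.hA
    have h2 : ((τ : L ≃ₐ[k] L) : L →ₐ[k] L) (s ^ 4 * D.a) = (τ s / s) ^ 4 * (s ^ 4 * D.a) := by
      change τ (s ^ 4 * D.a) = _
      rw [map_mul, map_pow, hτa]
      field_simp
    rw [h2] at h1
    exact h1.unique ((hres.pow 4).mul m.hA)
  have hB : Bt = c0 ^ 6 * Bt := by
    have h1 : IsRes v (((τ : L ≃ₐ[k] L) : L →ₐ[k] L) (s ^ 6 * D.b)) Bt := hov _ _ m.hB
    have h2 : ((τ : L ≃ₐ[k] L) : L →ₐ[k] L) (s ^ 6 * D.b) = (τ s / s) ^ 6 * (s ^ 6 * D.b) := by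
      change τ (s ^ 6 * D.b) = _
      rw [map_mul, map_pow, hτb]
      field_simp
    rw [h2] at h1
    exact h1.unique ((hres.pow 6).mul m.hB)
  intro φ hφ
  obtain ⟨ψ, -, hψ⟩ := m.lin_cyc hφ
  rw [hψ]
  apply psi_zero_of_scale hΔ hc0 hc1 hA hB ψ
  intro b
  have h3 := Model.twist_cyc hτt he hov m m hc0 hres hA hB hΔ b φ hφ
  rw [map_sub, hψ, hψ, sub_eq_zero] at h3
  exact h3.symm

end Pool.Agent.Helper21.TO

end CX
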