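import Mathlib
import Pool.Agent.Helper9.NS
import Pool.Agent.Helper40.CX.H21TO.Defs
import Pool.Agent.Helper40.CX.Good2

namespace CX

/-!
# Block TO-NodA: difference of two points reducing to the node, first kind
Scaled coordinates `X1 = σ ^ 2 x`, `Y1 = σ ^ 3 y`, `α = σ ^ 2 (x - r)` and `X2`, `Y2`, `α'` for the
second point. `P - Q = P + (x', -y')`. If `x = x'` then `α = α'`, and `y = y'` or `y = -y'`; in the
first case `P - Q = 0`; the second is impossible as `Y1 / α`, `Y2 / α` both have the residue `e`,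
`e ≠ 0`. If `x ≠ x'`: `P - Q = mk x3 y3`, `x3 = l ^ 2 - x - x'`, `l = (y + y') / (x - x')`. Let
`λ = σ l`; `λ (α - α') = Y1 + Y2`; with `u = α' / α` (residue `u0 ≠ 0`):
`λ (1 - u) = Y1 / α + (Y2 / α') u`. If `λ` is not regular, then `σ ^ 2 x3` is not regular
(`VF.mem_of_pow`) and `Rt = 0`. If `λ` is regular with residue `l0`, then
`l0 (1 - u0) = e (1 + u0)`; `l0 ^ 2 = e ^ 2` would give `l0 = e`, `u0 = 0` or `l0 = -e`, `1 = 0`. So
the residue of `σ ^ 2 x3`, `X = l0 ^ 2 - 2 n`, is different from `e ^ 2 - 2 n = n`. The residue `Y`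
of `σ ^ 3 y3` exists and `(X, Y)` is nonsingular: `Y ^ 2 = (X - n) ^ 2 (X + 2 n)`; if `Y = 0` then
`X = -2 n` and `3 X ^ 2 - 3 n ^ 2 = 9 n ^ 2 ≠ 0`.
-/

set_option linter.unusedSectionVars false

namespace Pool.Agent.Helper21.TO

open VC VF Function Polynomial
open Pool.Agent.Helper51.EW (Wei WPt aff zeroPt)

universe u

variable {k K : Type u} [Field k] [IsAlgClosed k] [CX.Good k] [Field K] [Algebra k K]
  {w : Place k K} {σ a b : K} {n : k}

/-- a sum of two points over the node, if the slope is good -/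
private theorem nod_key_47 (hd : RedData w σ a b (-3 * n ^ 2) (2 * n ^ 3)) (hn : n ≠ 0)
    {x1 y1 x2 y2 : K} {h1 : (sw a b).toAffine.Nonsingular x1 y1}
    {h2 : (sw a b).toAffine.Nonsingular x2 y2} (hx1 : IsRes w (σ ^ 2 * x1) n)
    (hx2 : IsRes w (σ ^ 2 * x2) n) (hne : ¬(x1 = x2 ∧ y1 = -y2))
    (good : ∀ l0 : k, IsRes w (σ * (sw a b).toAffine.slope x1 x2 y1 y2) l0 → l0 ^ 2 ≠ 3 * n) :
    ∃ Rt : EPt (-3 * n ^ 2) (2 * n ^ 3), Red w σ (EPt.mk x1 y1 h1 + EPt.mk x2 y2 h2) Rt := by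
  have hneg : ∀ x y : K, (sw a b).toAffine.negY x y = -y := by
    intro x y
    simp [WeierstrassCurve.Affine.negY]
  have hxy : ¬(x1 = x2 ∧ y1 = (sw a b).toAffine.negY x2 y2) := by
    rw [hneg]
    exact hne
  rw [WeierstrassCurve.Affine.Point.add_some hxy]
  have hns := WeierstrassCurve.Affine.nonsingular_add h1 h2 hxy
  have hax : ∀ l : K, (sw a b).toAffine.addX x1 x2 l = l ^ 2 - x1 - x2 := by
    intro l
    simp [WeierstrassCurve.Affine.addX]
  have hay : ∀ l : K, (sw a b).toAffine.addY x1 x2 y1 l = -(l * (l ^ 2 - x1 - x2 - x1) + y1) := by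
    intro l
    rw [WeierstrassCurve.Affine.addY, hneg, WeierstrassCurve.Affine.negAddY, hax]
  set l := (sw a b).toAffine.slope x1 x2 y1 y2 with hl
  by_cases hmem : σ * l ∈ w.ring
  · obtain ⟨l0, hl0⟩ := exists_res hd.hK hmem
    have hgood := good l0 hl0
    have e1 := (sw_nonsingular.1 h1).1
    have hy1sq : IsRes w ((σ ^ 3 * y1) ^ 2)
        (n ^ 3 + -3 * n ^ 2 * n + 2 * n ^ 3) := by
      have e2 : (σ ^ 3 * y1) ^ 2 = (σ ^ 2 * x1) ^ 3 + σ ^ 4 * a * (σ ^ 2 * x1) + σ ^ 6 * b := by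
        linear_combination σ ^ 6 * e1
      rw [e2]
      exact ((hx1.pow 3).add (hd.hA.mul hx1)).add hd.hB
    obtain ⟨Y1, hY1, -⟩ := exists_res_of_pow hd.hK two_ne_zero hy1sq
    have hX3 : IsRes w (σ ^ 2 * (l ^ 2 - x1 - x2)) (l0 ^ 2 - n - n) := by
      have e3 : σ ^ 2 * (l ^ 2 - x1 - x2) = (σ * l) ^ 2 - σ ^ 2 * x1 - σ ^ 2 * x2 := by ring
      rw [e3]
      exact ((hl0.pow 2).sub hx1).sub hx2
    have hY3 : IsRes w (σ ^ 3 * -(l * (l ^ 2 - x1 - x2 - x1) + y1))
        (-(l0 * (l0 ^ 2 - n - n - n) + Y1)) := by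
      have e4 : σ ^ 3 * -(l * (l ^ 2 - x1 - x2 - x1) + y1) =
          -(σ * l * (σ ^ 2 * (l ^ 2 - x1 - x2) - σ ^ 2 * x1) + σ ^ 3 * y1) := by ring
      rw [e4]
      exact ((hl0.mul (hX3.sub hx1)).add hY1).neg
    rw [hax, hay] at hns
    have heq : (-(l0 * (l0 ^ 2 - n - n - n) + Y1)) ^ 2 = (l0 ^ 2 - n - n) ^ 3 +
        -3 * n ^ 2 * (l0 ^ 2 - n - n) + 2 * n ^ 3 := by
      have e5 := (sw_nonsingular.1 hns).1
      have e6 := hY3.pow 2
      have e7 : (σ ^ 3 * -(l * (l ^ 2 - x1 - x2 - x1) + y1)) ^ 2 =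
          (σ ^ 2 * (l ^ 2 - x1 - x2)) ^ 3 + σ ^ 4 * a * (σ ^ 2 * (l ^ 2 - x1 - x2)) +
            σ ^ 6 * b := by
        linear_combination σ ^ 6 * e5
      rw [e7] at e6
      exact e6.unique (((hX3.pow 3).add (hd.hA.mul hX3)).add hd.hB)
    have hXn : l0 ^ 2 - n - n ≠ n := by
      intro h0
      apply hgood
      linear_combination h0
    have hN : (sw (-3 * n ^ 2) (2 * n ^ 3)).toAffine.Nonsingular (l0 ^ 2 - n - n)
        (-(l0 * (l0 ^ 2 - n - n - n) + Y1)) := by
      generalize l0 ^ 2 - n - n = X at *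
      generalize -(l0 * (X - n) + Y1) = Y at *
      rw [sw_nonsingular]
      refine ⟨heq, ?_⟩
      by_cases hY : Y = 0
      · left
        have h3 : (X - n) ^ 2 * (X + 2 * n) = 0 := by
          rw [hY] at heq
          linear_combination -heq
        have h4 : X + 2 * n = 0 :=
          (mul_eq_zero.1 h3).resolve_left (pow_ne_zero 2 (sub_ne_zero.2 hXn))
        have h5 : X = -2 * n := by linear_combination h4
        rw [h5]
        intro h6
        have h7 : (9 : k) * n ^ 2 = 0 := by linear_combination -h6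
        rcases mul_eq_zero.1 h7 with h8 | h8
        · norm_num at h8
        · exact hn (pow_eq_zero_iff two_ne_zero |>.1 h8)
      · right
        intro h6
        apply hY
        have h7 : (2 : k) * Y = 0 := by linear_combination h6
        exact (mul_eq_zero.1 h7).resolve_left two_ne_zero
    refine ⟨EPt.mk _ _ hN, ?_⟩
    show IsRes w (σ ^ 2 * (sw a b).toAffine.addX x1 x2 l) _ ∧
      IsRes w (σ ^ 3 * (sw a b).toAffine.addY x1 x2 y1 l) _
    rw [hax, hay]
    exact ⟨hX3, hY3⟩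
  · refine ⟨0, ?_⟩
    show σ ^ 2 * (sw a b).toAffine.addX x1 x2 l ∉ w.ring
    rw [hax]
    intro h0
    apply hmem
    have e1 : (σ * l) ^ 2 = σ ^ 2 * (l ^ 2 - x1 - x2) + σ ^ 2 * x1 + σ ^ 2 * x2 := by ring
    apply mem_of_pow two_ne_zero
    rw [e1]
    exact w.ring.add_mem _ _ (w.ring.add_mem _ _ h0 hx1.mem) hx2.mem

theorem nod_a (hd : RedData w σ a b (-3 * n ^ 2) (2 * n ^ 3)) (hn : n ≠ 0) {r x y x' y' : K}
    {h : (sw a b).toAffine.Nonsingular x y} {h' : (sw a b).toAffine.Nonsingular x' y'}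
    (hx : IsRes w (σ ^ 2 * x) n) (hx' : IsRes w (σ ^ 2 * x') n) {e u : k}
    (he : e ^ 2 = 3 * n) (hα : x - r ≠ 0) (hα' : x' - r ≠ 0)
    (h1 : IsRes w (σ ^ 3 * y / (σ ^ 2 * (x - r))) e)
    (h2 : IsRes w (σ ^ 3 * y' / (σ ^ 2 * (x' - r))) e)
    (hu : u ≠ 0) (h3 : IsRes w ((x' - r) / (x - r)) u) :
    ∃ Rt : EPt (-3 * n ^ 2) (2 * n ^ 3), Red w σ (EPt.mk x y h - EPt.mk x' y' h') Rt := by
  have hneg : (sw a b).toAffine.negY x' y' = -y' := by
    simp [WeierstrassCurve.Affine.negY]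
  by_cases hPQ : x = x' ∧ y = y'
  · obtain ⟨hxx, hyy⟩ := hPQ
    subst hxx
    subst hyy
    refine ⟨0, ?_⟩
    rw [sub_self]
    rfl
  have he0 : e ≠ 0 := by
    rintro rfl
    apply hn
    have h4 : (3 : k) * n = 0 := by linear_combination -he
    exact (mul_eq_zero.1 h4).resolve_left three_ne_zero
  have hσ := hd.ne
  rw [sub_eq_add_neg, WeierstrassCurve.Affine.Point.neg_some]
  refine nod_key_47 hd hn hx hx' ?_ ?_
  · rintro ⟨hxx, hyy⟩
    apply hPQ
    refine ⟨hxx, ?_⟩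
    rw [hyy, hneg, neg_neg]
  · intro l0 hl0 hl2
    have hxx : x ≠ x' := by
      intro hxx
      have e1 := (sw_nonsingular.1 h).1
      have e2 := (sw_nonsingular.1 h').1
      rw [← hxx] at e2
      have e3 : (y - y') * (y + y') = 0 := by linear_combination e1 - e2
      rcases mul_eq_zero.1 e3 with e4 | e4
      · exact hPQ ⟨hxx, sub_eq_zero.1 e4⟩
      · have e5 : y = -y' := by linear_combination e4
        rw [← hxx] at h2
        have e6 : σ ^ 3 * y / (σ ^ 2 * (x - r)) = -(σ ^ 3 * y' / (σ ^ 2 * (x - r))) := by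
          rw [e5]
          ring
        rw [e6] at h1
        have e7 := h1.unique h2.neg
        apply he0
        have e8 : (2 : k) * e = 0 := by linear_combination e7
        exact (mul_eq_zero.1 e8).resolve_left two_ne_zero
    rw [hneg, WeierstrassCurve.Affine.slope_of_X_ne hxx] at hl0
    have hx0 : x - x' ≠ 0 := sub_ne_zero.2 hxx
    have e1 : σ * ((y - -y') / (x - x')) * (1 - (x' - r) / (x - r)) =
        σ ^ 3 * y / (σ ^ 2 * (x - r)) + σ ^ 3 * y' / (σ ^ 2 * (x' - r)) *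
          ((x' - r) / (x - r)) := by
      field_simp
      ring
    have e2 := hl0.mul (isRes_one.sub h3)
    rw [e1] at e2
    have e3 := e2.unique (h1.add (h2.mul h3))
    have e4 : (l0 - e) * (l0 + e) = 0 := by linear_combination hl2 - he
    rcases mul_eq_zero.1 e4 with e5 | e5
    · have e6 : l0 = e := sub_eq_zero.1 e5
      rw [e6] at e3
      have e7 : (2 * e) * u = 0 := by linear_combination -e3
      exact hu ((mul_eq_zero.1 e7).resolve_left (mul_ne_zero two_ne_zero he0))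
    · have e6 : l0 = -e := by linear_combination e5
      rw [e6] at e3
      have e7 : (2 : k) * e = 0 := by linear_combination -e3
      exact he0 ((mul_eq_zero.1 e7).resolve_left two_ne_zero)

end Pool.Agent.Helper21.TO

end CX
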