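import Mathlib
import Pool.Agent.Helper9.NS
import Pool.Agent.Helper40.CX.H21TO.Defs
import Pool.Agent.Helper40.CX.Good2

namespace CX

/-!
# Block TO-NodB: difference of two points reducing to the node, second kind
`y ^ 2 = (x - r1) (x - r2) (x - r3)`, `d = σ ^ 2 (r1 - r2)`. Scaled: `σ ^ 2 (x - r1) = d α`,
`σ ^ 2 (x - r2) = d (α + 1)`, `σ ^ 3 y = d β`, so `β ^ 2 = α (α + 1) (X - R3)` with `X = σ ^ 2 x`,
`R3 = σ ^ 2 r3`; residues `α0, β0`: `β0 ^ 2 = 3 n α0 (α0 + 1)`. The same for the second point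
(`α'`, `β'`). `P - Q = P + (x', -y')`. If `P = Q` the difference is `0`. Otherwise
`P - Q = mk x3 y3`, `x3 = l ^ 2 - x - x'`, and `λ = σ l` satisfies two equations (1), (2):
* if `x ≠ x'`: `l = (y + y') / (x - x')`, so (1) `λ (α - α') = β + β'`, and multiplying (1) by
  `β - β'` and using `β ^ 2 - β' ^ 2 = (α - α') ((α + α' + 1) (X - R3) + α' (α' + 1) d)`:
  (2) `λ (β - β') = (α + α' + 1) (X - R3) + α' (α' + 1) d`;
* if `x = x'` and `y = - y'`, `y ≠ 0` (tangent line, `add_self`, `slope_of_Y_ne`):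
  `l = (3 x ^ 2 + a) / (2 y)`, (1) holds as `0 = 0`, and (2) holds, since
  `f'(x) = (x-r2)(x-r3) + (x-r1)(x-r3) + (x-r1)(x-r2)`.
  (If `y = - y' = 0` then `P = Q`.)
If `λ` is not regular then neither is `σ ^ 2 x3`, and `Rt = 0`. If `λ` has the residue `l0`, then
`l0 (α0 - α0') = β0 + β0'`, `l0 (β0 - β0') = 3 n (α0 + α0' + 1)`. If `l0 ^ 2 = 3 n`, then (multiply
the first by `l0`) `3 n (α0 - α0') = l0 (β0 + β0')`; adding: `2 l0 β0 = 3 n (2 α0 + 1)`, squares:
`12 n β0 ^ 2 = 9 n ^ 2 (2 α0 + 1) ^ 2`, but `β0 ^ 2 = 3 n α0 (α0 + 1)`: `0 = 9 n ^ 2`, a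
contradiction. So `σ ^ 2 x3` has the residue `l0 ^ 2 - 2 n ≠ n`, and `Rt` is the point as in
the block NodA.
-/

set_option linter.unusedSectionVars false

namespace Pool.Agent.Helper21.TO

open VC VF Function Polynomial
open Pool.Agent.Helper51.EW (Wei WPt aff zeroPt)

universe u

variable {k K : Type u} [Field k] [IsAlgClosed k] [CX.Good k] [Field K] [Algebra k K]
  {w : Place k K} {σ a b : K} {n : k}

/-- a sum of two points over the node, if the slope is good -/
private theorem nod_key_47 (hd : RedData w σ a b (-3 * n ^ 2) (2 * n ^ 3)) (hn : n ≠ 0)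
    {x1 y1 x2 y2 : K} {h1 : (sw a b).toAffine.Nonsingular x1 y1}
    {h2 : (sw a b).toAffine.Nonsingular x2 y2} (hx1 : IsRes w (σ ^ 2 * x1) n)
    (hx2 : IsRes w (σ ^ 2 * x2) n) (hne : ¬(x1 = x2 ∧ y1 = -y2))
    (good : ∀ l0 : k, IsRes w (σ * (sw a b).toAffine.slope x1 x2 y1 y2) l0 → l0 ^ 2 ≠ 3 * n) :
    ∃ Rt : EPt (-3 * n ^ 2) (2 * n ^ 3), Red w σ (EPt.mk x1 y1 h1 + EPt.mk x2 y2 h2) Rt := by
  have hneg : ∀ x y : K, (sw a b).toAffine.negY x y = -y := by
    intro x y
    simp [WeierstrassCurve.Affine.negY]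
  have hxy : ¬(x1 = x2 ∧ y1 = (sw a b).toAffine.negY x2 y2) := by
    rw [hneg]
    exact hne
  rw [WeierstrassCurve.Affine.Point.add_some hxy]
  have hns := WeierstrassCurve.Affine.nonsingular_add h1 h2 hxy
  have hax : ∀ l : K, (sw a b).toAffine.addX x1 x2 l = l ^ 2 - x1 - x2 := by
    intro l
    simp [WeierstrassCurve.Affine.addX]
  have hay : ∀ l : K, (sw a b).toAffine.addY x1 x2 y1 l = -(l * (l ^ 2 - x1 - x2 - x1) + y1) := by
    intro l
    rw [WeierstrassCurve.Affine.addY, hneg, WeierstrassCurve.Affine.negAddY, hax]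
  set l := (sw a b).toAffine.slope x1 x2 y1 y2 with hl
  by_cases hmem : σ * l ∈ w.ring
  · obtain ⟨l0, hl0⟩ := exists_res hd.hK hmem
    have hgood := good l0 hl0
    have e1 := (sw_nonsingular.1 h1).1
    have hy1sq : IsRes w ((σ ^ 3 * y1) ^ 2)
        (n ^ 3 + -3 * n ^ 2 * n + 2 * n ^ 3) := by
      have e2 : (σ ^ 3 * y1) ^ 2 = (σ ^ 2 * x1) ^ 3 + σ ^ 4 * a * (σ ^ 2 * x1) + σ ^ 6 * b := by
        linear_combination σ ^ 6 * e1
      rw [e2]
      exact ((hx1.pow 3).add (hd.hA.mul hx1)).add hd.hB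
    obtain ⟨Y1, hY1, -⟩ := exists_res_of_pow hd.hK two_ne_zero hy1sq
    have hX3 : IsRes w (σ ^ 2 * (l ^ 2 - x1 - x2)) (l0 ^ 2 - n - n) := by
      have e3 : σ ^ 2 * (l ^ 2 - x1 - x2) = (σ * l) ^ 2 - σ ^ 2 * x1 - σ ^ 2 * x2 := by ring
      rw [e3]
      exact ((hl0.pow 2).sub hx1).sub hx2
    have hY3 : IsRes w (σ ^ 3 * -(l * (l ^ 2 - x1 - x2 - x1) + y1))
        (-(l0 * (l0 ^ 2 - n - n - n) + Y1)) := by
      have e4 : σ ^ 3 * -(l * (l ^ 2 - x1 - x2 - x1) + y1) =
          -(σ * l * (σ ^ 2 * (l ^ 2 - x1 - x2) - σ ^ 2 * x1) + σ ^ 3 * y1) := by ring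
      rw [e4]
      exact ((hl0.mul (hX3.sub hx1)).add hY1).neg
    rw [hax, hay] at hns
    have heq : (-(l0 * (l0 ^ 2 - n - n - n) + Y1)) ^ 2 = (l0 ^ 2 - n - n) ^ 3 +
        -3 * n ^ 2 * (l0 ^ 2 - n - n) + 2 * n ^ 3 := by
      have e5 := (sw_nonsingular.1 hns).1
      have e6 := hY3.pow 2
      have e7 : (σ ^ 3 * -(l * (l ^ 2 - x1 - x2 - x1) + y1)) ^ 2 =
          (σ ^ 2 * (l ^ 2 - x1 - x2)) ^ 3 + σ ^ 4 * a * (σ ^ 2 * (l ^ 2 - x1 - x2)) +
            σ ^ 6 * b := by
        linear_combination σ ^ 6 * e5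
      rw [e7] at e6
      exact e6.unique (((hX3.pow 3).add (hd.hA.mul hX3)).add hd.hB)
    have hXn : l0 ^ 2 - n - n ≠ n := by
      intro h0
      apply hgood
      linear_combination h0
    have hN : (sw (-3 * n ^ 2) (2 * n ^ 3)).toAffine.Nonsingular (l0 ^ 2 - n - n)
        (-(l0 * (l0 ^ 2 - n - n - n) + Y1)) := by
      generalize l0 ^ 2 - n - n = X at *
      generalize -(l0 * (X - n) + Y1) = Y at *
      rw [sw_nonsingular]
      refine ⟨heq, ?_⟩
      by_cases hY : Y = 0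
      · left
        have h3 : (X - n) ^ 2 * (X + 2 * n) = 0 := by
          rw [hY] at heq
          linear_combination -heq
        have h4 : X + 2 * n = 0 :=
          (mul_eq_zero.1 h3).resolve_left (pow_ne_zero 2 (sub_ne_zero.2 hXn))
        have h5 : X = -2 * n := by linear_combination h4
        rw [h5]
        intro h6
        have h7 : (9 : k) * n ^ 2 = 0 := by linear_combination -h6
        rcases mul_eq_zero.1 h7 with h8 | h8
        · norm_num at h8
        · exact hn (pow_eq_zero_iff two_ne_zero |>.1 h8)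
      · right
        intro h6
        apply hY
        have h7 : (2 : k) * Y = 0 := by linear_combination h6
        exact (mul_eq_zero.1 h7).resolve_left two_ne_zero
    refine ⟨EPt.mk _ _ hN, ?_⟩
    show IsRes w (σ ^ 2 * (sw a b).toAffine.addX x1 x2 l) _ ∧
      IsRes w (σ ^ 3 * (sw a b).toAffine.addY x1 x2 y1 l) _
    rw [hax, hay]
    exact ⟨hX3, hY3⟩
  · refine ⟨0, ?_⟩
    show σ ^ 2 * (sw a b).toAffine.addX x1 x2 l ∉ w.ring
    rw [hax]
    intro h0
    apply hmem
    have e1 : (σ * l) ^ 2 = σ ^ 2 * (l ^ 2 - x1 - x2) + σ ^ 2 * x1 + σ ^ 2 * x2 := by ring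
    apply mem_of_pow two_ne_zero
    rw [e1]
    exact w.ring.add_mem _ _ (w.ring.add_mem _ _ h0 hx1.mem) hx2.mem

theorem nod_b (hd : RedData w σ a b (-3 * n ^ 2) (2 * n ^ 3)) (hn : n ≠ 0)
    {r1 r2 r3 x y x' y' : K}
    (hr : ∀ z : K, z ^ 3 + a * z + b = (z - r1) * (z - r2) * (z - r3)) (h12 : r1 ≠ r2)
    (h1 : IsRes w (σ ^ 2 * r1) n) (h2 : IsRes w (σ ^ 2 * r2) n)
    (h3 : IsRes w (σ ^ 2 * r3) (-2 * n))
    {h : (sw a b).toAffine.Nonsingular x y} {h' : (sw a b).toAffine.Nonsingular x' y'}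
    (hx : IsRes w (σ ^ 2 * x) n) (hx' : IsRes w (σ ^ 2 * x') n)
    (hα : (x - r1) / (r1 - r2) ∈ w.ring) (hα' : (x' - r1) / (r1 - r2) ∈ w.ring) :
    ∃ Rt : EPt (-3 * n ^ 2) (2 * n ^ 3), Red w σ (EPt.mk x y h - EPt.mk x' y' h') Rt := by
  have hneg : ∀ z t : K, (sw a b).toAffine.negY z t = -t := by
    intro z t
    simp [WeierstrassCurve.Affine.negY]
  by_cases hPQ : x = x' ∧ y = y'
  · obtain ⟨hxx, hyy⟩ := hPQ
    subst hxx
    subst hyy
    refine ⟨0, ?_⟩
    rw [sub_self]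
    rfl
  have hσ := hd.ne
  have hc0 : CX.Good K := CX.Good.ext k
  have hD : r1 - r2 ≠ 0 := sub_ne_zero.2 h12
  -- the coefficients of the cubic polynomial
  have hs1 : r1 + r2 + r3 = 0 := by
    have g0 := hr 0
    have g1 := hr 1
    have g2 := hr (-1)
    have g3 : (2 : K) * (r1 + r2 + r3) = 0 := by linear_combination g1 + g2 - 2 * g0
    exact (mul_eq_zero.1 g3).resolve_left two_ne_zero
  have hs2 : a = r1 * r2 + r1 * r3 + r2 * r3 := by
    have g0 := hr 0
    have g1 := hr 1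
    linear_combination g1 - g0 - hs1
  have hs3 : b = -(r1 * r2 * r3) := by
    have g0 := hr 0
    linear_combination g0
  have e1 := (sw_nonsingular.1 h).1
  have e1' := (sw_nonsingular.1 h').1
  rw [hr] at e1 e1'
  -- the residues
  obtain ⟨α0, hα0⟩ := exists_res hd.hK hα
  obtain ⟨α0', hα0'⟩ := exists_res hd.hK hα'
  have hdres : IsRes w (σ ^ 2 * (r1 - r2)) 0 := by
    have g := h1.sub h2
    rw [sub_self, ← mul_sub] at g
    exact g
  have hXR : IsRes w (σ ^ 2 * (x - r3)) (3 * n) := by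
    have g := hx.sub h3
    have g1 : n - -2 * n = 3 * n := by ring
    rw [g1, ← mul_sub] at g
    exact g
  have hXR' : IsRes w (σ ^ 2 * (x' - r3)) (3 * n) := by
    have g := hx'.sub h3
    have g1 : n - -2 * n = 3 * n := by ring
    rw [g1, ← mul_sub] at g
    exact g
  have hβsq : IsRes w ((σ * y / (r1 - r2)) ^ 2) (α0 * (α0 + 1) * (3 * n)) := by
    have g : (σ * y / (r1 - r2)) ^ 2 = (x - r1) / (r1 - r2) * ((x - r1) / (r1 - r2) + 1) *
        (σ ^ 2 * (x - r3)) := by
      field_simp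
      linear_combination e1
    rw [g]
    exact (hα0.mul (hα0.add isRes_one)).mul hXR
  have hβsq' : IsRes w ((σ * y' / (r1 - r2)) ^ 2) (α0' * (α0' + 1) * (3 * n)) := by
    have g : (σ * y' / (r1 - r2)) ^ 2 = (x' - r1) / (r1 - r2) * ((x' - r1) / (r1 - r2) + 1) *
        (σ ^ 2 * (x' - r3)) := by
      field_simp
      linear_combination e1'
    rw [g]
    exact (hα0'.mul (hα0'.add isRes_one)).mul hXR'
  obtain ⟨β0, hβ0, hb0⟩ := exists_res_of_pow hd.hK two_ne_zero hβsq
  obtain ⟨β0', hβ0', hb0'⟩ := exists_res_of_pow hd.hK two_ne_zero hβsq'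
  rw [sub_eq_add_neg, WeierstrassCurve.Affine.Point.neg_some]
  refine nod_key_47 hd hn hx hx' ?_ ?_
  · rintro ⟨hxx, hyy⟩
    apply hPQ
    refine ⟨hxx, ?_⟩
    rw [hyy, hneg, neg_neg]
  · intro l0 hl0 hl2
    rw [hneg] at hl0
    set l := (sw a b).toAffine.slope x x' y (-y') with hl
    -- the two equations
    have hE : σ * l * ((x - r1) / (r1 - r2) - (x' - r1) / (r1 - r2)) =
          σ * y / (r1 - r2) + σ * y' / (r1 - r2) ∧
        σ * l * (σ * y / (r1 - r2) - σ * y' / (r1 - r2)) =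
          ((x - r1) / (r1 - r2) + (x' - r1) / (r1 - r2) + 1) * (σ ^ 2 * (x - r3)) +
            (x' - r1) / (r1 - r2) * ((x' - r1) / (r1 - r2) + 1) * (σ ^ 2 * (r1 - r2)) := by
      by_cases hxx : x = x'
      · subst hxx
        have g3 : (y - y') * (y + y') = 0 := by linear_combination e1 - e1'
        have g4 : y - y' ≠ 0 := fun g5 => hPQ ⟨rfl, sub_eq_zero.1 g5⟩
        have g5 : y' = -y := by
          linear_combination (mul_eq_zero.1 g3).resolve_left g4
        have g6 : y ≠ 0 := by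
          intro g7
          apply g4
          rw [g5, g7]
          ring
        have g8 : l = (3 * x ^ 2 + a) / (2 * y) := by
          rw [hl, WeierstrassCurve.Affine.slope_of_Y_ne rfl, hneg]
          · simp only [zero_mul, mul_zero, add_zero, sub_zero, sub_neg_eq_add]
            rw [two_mul y]
          · rw [hneg, g5, neg_neg]
            intro g9
            apply g6
            have g10 : (2 : K) * y = 0 := by linear_combination g9
            exact (mul_eq_zero.1 g10).resolve_left two_ne_zero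
        rw [g8, g5, hs2]
        constructor
        · ring
        · field_simp
          linear_combination (4 * x) * hs1
      · have hx0 : x - x' ≠ 0 := sub_ne_zero.2 hxx
        have g1 : σ * l * ((x - r1) / (r1 - r2) - (x' - r1) / (r1 - r2)) =
            σ * y / (r1 - r2) + σ * y' / (r1 - r2) := by
          rw [hl, WeierstrassCurve.Affine.slope_of_X_ne hxx]
          field_simp
          ring
        refine ⟨g1, ?_⟩
        have g2 : (x - r1) / (r1 - r2) - (x' - r1) / (r1 - r2) ≠ 0 := by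
          rw [← sub_div]
          apply div_ne_zero _ hD
          intro g3
          apply hx0
          linear_combination g3
        apply mul_left_cancel₀ g2
        have g3 : ((x - r1) / (r1 - r2) - (x' - r1) / (r1 - r2)) *
            (σ * l * (σ * y / (r1 - r2) - σ * y' / (r1 - r2))) =
            (σ * y / (r1 - r2)) ^ 2 - (σ * y' / (r1 - r2)) ^ 2 := by
          linear_combination (σ * y / (r1 - r2) - σ * y' / (r1 - r2)) * g1
        rw [g3]
        field_simp
        linear_combination e1 - e1'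
    obtain ⟨hE1, hE2⟩ := hE
    have r1' := hl0.mul (hα0.sub hα0')
    rw [hE1] at r1'
    have f1 := r1'.unique (hβ0.add hβ0')
    have r2' := hl0.mul (hβ0.sub hβ0')
    rw [hE2] at r2'
    have f2 := r2'.unique ((((hα0.add hα0').add isRes_one).mul hXR).add
      ((hα0'.mul (hα0'.add isRes_one)).mul hdres))
    rw [mul_zero, add_zero] at f2
    have f3 : 2 * (l0 * β0) = 3 * n * (2 * α0 + 1) := by
      linear_combination l0 * (-f1) + f2 + (α0 - α0') * hl2
    have f4 : (2 * (l0 * β0)) ^ 2 = (3 * n * (2 * α0 + 1)) ^ 2 := by rw [f3]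
    have f5 : (9 : k) * n ^ 2 = 0 := by
      linear_combination -f4 + 4 * l0 ^ 2 * hb0 + 4 * (α0 * (α0 + 1) * (3 * n)) * hl2
    rcases mul_eq_zero.1 f5 with f6 | f6
    · norm_num at f6
    · exact hn (pow_eq_zero_iff two_ne_zero |>.1 f6)

end Pool.Agent.Helper21.TO

end CX
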