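import Mathlib
import Pool.Agent.Helper9.NS
import Pool.Agent.Helper40.CX.H21TO.Defs
import Pool.Agent.Helper40.CX.H21TO.NodA
import Pool.Agent.Helper40.CX.H21TO.NodB
import Pool.Agent.Helper40.CX.Good2

namespace CX

/-!
# Block TO-NodP: multiples of a point at a nodal place
Call `P` good if `∃ Rt, Red w σ P Rt`. If `P = mk x y` is not good, then `σ ^ 2 x` is regular (else
`Rt = 0`) with residue `n` (else: the residue `X ≠ n`, `σ ^ 3 y` is regular with residue `Y` and
`(X, Y)` is nonsingular on `Y ^ 2 = (X - n) ^ 2 (X + 2 n)`). Fix `e` in `k` with `e ^ 2 = 3 n`. Let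
`δ = ord w (r1 - r2) + 2 ord w σ > 0`. For a bad `P = mk x y` let `j = ord w (x - r1) + 2 ord w σ`
(if `x ≠ r1`). If `x = r1` or `j ≥ δ` then `(x - r1) / (r1 - r2)` is regular: class `none`. If
`0 < j < δ`: `ord (x - r2) = ord (x - r1)`, `(x - r2) / (x - r1)` has the residue `1`, so
`z = σ ^ 3 y / (σ ^ 2 (x - r1))` satisfies `z ^ 2 = ((x - r2) / (x - r1)) σ ^ 2 (x - r3)`, so it is
regular with residue `e` or `-e`: class `some (j, sign)`. There are at most `2 δ + 1` classes.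
Among `P, 2 P, ..., (2 δ + 3) P` either one is good, or two, `m P`, `m' P` with `m < m'`, are in the
same class, and `(m' - m) P` is good: by `nod_b` (class `none`), and by `nod_a` in the class
`some (j, ±)` (with `e` replaced by `-e` for the sign `-`; `(x' - r1) / (x - r1)` is a unit, as the
orders are equal, so it has a residue `u ≠ 0`). Facts on `ord`: `VC.ord_mul`, `ord_nonneg_iff`,
`ord_pos_iff`, or use valuations `FF.val`.
-/

set_option linter.unusedSectionVars false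

namespace Pool.Agent.Helper21.TO

open VC VF Function Polynomial
open Pool.Agent.Helper51.EW (Wei WPt aff zeroPt)

universe u

variable {k K : Type u} [Field k] [IsAlgClosed k] [CX.Good k] [Field K] [Algebra k K]
  {w : Place k K} {σ a b : K} {n : k}

/-- A point which has no reduction reduces to the node. -/
private lemma bad_node (hd : RedData w σ a b (-3 * n ^ 2) (2 * n ^ 3)) (hn : n ≠ 0) {x y : K}
    {h : (sw a b).toAffine.Nonsingular x y}
    (hbad : ¬ ∃ Rt : EPt (-3 * n ^ 2) (2 * n ^ 3), Red w σ (EPt.mk x y h) Rt) :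
    IsRes w (σ ^ 2 * x) n := by
  by_cases hmem : σ ^ 2 * x ∈ w.ring
  · obtain ⟨X, hX⟩ := exists_res hd.hK hmem
    have heq : y ^ 2 = x ^ 3 + a * x + b := (sw_nonsingular.mp h).1
    have h1 : IsRes w ((σ ^ 3 * y) ^ 2) (X ^ 3 + (-3 * n ^ 2) * X + 2 * n ^ 3) := by
      have h2 := ((hX.pow 3).add (hd.hA.mul hX)).add hd.hB
      have e : (σ ^ 2 * x) ^ 3 + σ ^ 4 * a * (σ ^ 2 * x) + σ ^ 6 * b = (σ ^ 3 * y) ^ 2 := by
        rw [mul_pow _ y 2, heq]
        ring
      rwa [e] at h2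
    obtain ⟨Y, hY, hY2⟩ := exists_res_of_pow hd.hK (by norm_num : (2 : ℕ) ≠ 0) h1
    by_cases hXn : X = n
    · rwa [hXn] at hX
    · exfalso
      apply hbad
      have hns : (sw (-3 * n ^ 2) (2 * n ^ 3)).toAffine.Nonsingular X Y := by
        rw [sw_nonsingular]
        refine ⟨hY2, ?_⟩
        by_cases hY0 : Y = 0
        · left
          have h3 : (X - n) ^ 2 * (X + 2 * n) = 0 := by
            rw [hY0] at hY2
            linear_combination -hY2
          have h4 : X + 2 * n = 0 := by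
            rcases mul_eq_zero.mp h3 with h5 | h5
            · exact absurd (sub_eq_zero.mp (pow_eq_zero_iff (by norm_num) |>.mp h5)) hXn
            · exact h5
          have h5 : X = -2 * n := by linear_combination h4
          rw [h5]
          intro h6
          have h7 : (9 : k) * n ^ 2 = 0 := by linear_combination -h6
          rcases mul_eq_zero.mp h7 with h8 | h8
          · norm_num at h8
          · exact hn (pow_eq_zero_iff (by norm_num) |>.mp h8)
        · right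
          intro h3
          have h4 : (2 : k) * Y = 0 := by linear_combination h3
          exact hY0 ((mul_eq_zero.mp h4).resolve_left CX.Good.two)
      exact ⟨EPt.mk X Y hns, hX, hY⟩
  · exact absurd ⟨(0 : EPt (-3 * n ^ 2) (2 * n ^ 3)), hmem⟩ hbad

/-- The classes of the points which reduce to the node. -/
private def Cl (w : Place k K) (σ r1 r2 : K) (n e : k) {a b : K} {D : ℕ} (Q : EPt a b) :
    Option (Fin D × Bool) → Prop
  | none => ∃ x y, ∃ h : (sw a b).toAffine.Nonsingular x y, Q = EPt.mk x y h ∧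
      IsRes w (σ ^ 2 * x) n ∧ (x - r1) / (r1 - r2) ∈ w.ring
  | some js => ∃ x y, ∃ h : (sw a b).toAffine.Nonsingular x y, Q = EPt.mk x y h ∧
      IsRes w (σ ^ 2 * x) n ∧ x - r1 ≠ 0 ∧ ord w.ring (σ ^ 2 * (x - r1)) = (js.1 : ℕ) ∧
      IsRes w (σ ^ 3 * y / (σ ^ 2 * (x - r1))) (if js.2 then e else -e)

private lemma exists_cl (hd : RedData w σ a b (-3 * n ^ 2) (2 * n ^ 3)) (hn : n ≠ 0)
    {r1 r2 r3 : K}
    (hr : ∀ z : K, z ^ 3 + a * z + b = (z - r1) * (z - r2) * (z - r3)) (h12 : r1 ≠ r2)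
    (h1 : IsRes w (σ ^ 2 * r1) n) (h3 : IsRes w (σ ^ 2 * r3) (-2 * n)) {e : k}
    (he : e ^ 2 = 3 * n) {Q : EPt a b}
    (hbad : ¬ ∃ Rt : EPt (-3 * n ^ 2) (2 * n ^ 3), Red w σ Q Rt) :
    ∃ c, Cl w σ r1 r2 n e (D := (ord w.ring (σ ^ 2 * (r1 - r2))).toNat) Q c := by
  have hK := hd.hK
  have hσ := hd.ne
  match Q, hbad with
  | .zero, hbad => exact absurd ⟨(0 : EPt (-3 * n ^ 2) (2 * n ^ 3)), rfl⟩ hbad
  | .some x y h, hbad =>
    have hX := bad_node hd hn hbad
    by_cases hmem : (x - r1) / (r1 - r2) ∈ w.ring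
    · exact ⟨none, x, y, h, rfl, hX, hmem⟩
    · have hr12 : r1 - r2 ≠ 0 := sub_ne_zero.mpr h12
      have hxr : x - r1 ≠ 0 := by
        intro h0
        apply hmem
        rw [h0, zero_div]
        exact w.ring.zero_mem
      have hσ2 : σ ^ 2 ≠ 0 := pow_ne_zero _ hσ
      have hσx : σ ^ 2 * (x - r1) ≠ 0 := mul_ne_zero hσ2 hxr
      have hσr : σ ^ 2 * (r1 - r2) ≠ 0 := mul_ne_zero hσ2 hr12
      have hq : (x - r1) / (r1 - r2) = (σ ^ 2 * (x - r1)) / (σ ^ 2 * (r1 - r2)) := by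
        rw [mul_div_mul_left _ _ hσ2]
      -- the order
      have hpos : 0 < ord w.ring (σ ^ 2 * (x - r1)) := by
        rw [FF.ord_pos_iff hK w hσx, ← isRes_zero_iff]
        have h4 := hX.sub h1
        rw [sub_self] at h4
        rwa [mul_sub]
      have hlt : ord w.ring (σ ^ 2 * (x - r1)) < ord w.ring (σ ^ 2 * (r1 - r2)) := by
        by_contra hcon
        apply hmem
        rw [hq, ← FF.ord_nonneg_iff hK w (div_ne_zero hσx hσr), FF.ord_div hK w hσx hσr]
        omega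
      -- the residue
      have hres : IsRes w ((r1 - r2) / (x - r1)) 0 := by
        rw [isRes_zero_iff, ← mul_div_mul_left _ _ hσ2,
          ← FF.ord_pos_iff hK w (div_ne_zero hσr hσx), FF.ord_div hK w hσr hσx]
        omega
      have h5 : IsRes w ((σ ^ 3 * y / (σ ^ 2 * (x - r1))) ^ 2) (3 * n) := by
        have h6 := (isRes_one.add hres).mul (hX.sub h3)
        have e1 : (1 : k) + 0 = 1 := add_zero _
        have e2 : n - -2 * n = 3 * n := by ring
        rw [e1, one_mul, e2] at h6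
        have heq : y ^ 2 = x ^ 3 + a * x + b := (sw_nonsingular.mp h).1
        rw [hr x] at heq
        have e3 : (1 + (r1 - r2) / (x - r1)) * (σ ^ 2 * x - σ ^ 2 * r3) =
            (σ ^ 3 * y / (σ ^ 2 * (x - r1))) ^ 2 := by
          rw [div_pow, mul_pow _ y 2, heq]
          field_simp
          ring
        rwa [e3] at h6
      obtain ⟨c, hc, hc2⟩ := exists_res_of_pow hK (by norm_num : (2 : ℕ) ≠ 0) h5
      have h6 : c = e ∨ c = -e := by
        apply sq_eq_sq_iff_eq_or_eq_neg.mp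
        rw [hc2, he]
      have hnat : ((ord w.ring (σ ^ 2 * (x - r1))).toNat : ℤ) = ord w.ring (σ ^ 2 * (x - r1)) :=
        Int.toNat_of_nonneg hpos.le
      have hfin : (ord w.ring (σ ^ 2 * (x - r1))).toNat <
          (ord w.ring (σ ^ 2 * (r1 - r2))).toNat := by
        omega
      rcases h6 with h6 | h6
      · refine ⟨some (⟨_, hfin⟩, true), x, y, h, rfl, hX, hxr, hnat.symm, ?_⟩
        rw [← h6]
        simpa using hc
      · refine ⟨some (⟨_, hfin⟩, false), x, y, h, rfl, hX, hxr, hnat.symm, ?_⟩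
        rw [h6] at hc
        simpa using hc

private lemma same_cl (hd : RedData w σ a b (-3 * n ^ 2) (2 * n ^ 3)) (hn : n ≠ 0)
    {r1 r2 r3 : K}
    (hr : ∀ z : K, z ^ 3 + a * z + b = (z - r1) * (z - r2) * (z - r3)) (h12 : r1 ≠ r2)
    (h1 : IsRes w (σ ^ 2 * r1) n) (h2 : IsRes w (σ ^ 2 * r2) n)
    (h3 : IsRes w (σ ^ 2 * r3) (-2 * n)) {e : k} (he : e ^ 2 = 3 * n) {D : ℕ} {Q Q' : EPt a b}
    {c : Option (Fin D × Bool)} (hQ : Cl w σ r1 r2 n e Q c) (hQ' : Cl w σ r1 r2 n e Q' c) :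
    ∃ Rt : EPt (-3 * n ^ 2) (2 * n ^ 3), Red w σ (Q - Q') Rt := by
  have hK := hd.hK
  have hσ2 : σ ^ 2 ≠ 0 := pow_ne_zero _ hd.ne
  match c, hQ, hQ' with
  | none, hQ, hQ' =>
    obtain ⟨x, y, h, rfl, hx, hm⟩ := hQ
    obtain ⟨x', y', h', rfl, hx', hm'⟩ := hQ'
    exact nod_b hd hn hr h12 h1 h2 h3 hx hx' hm hm'
  | some js, hQ, hQ' =>
    obtain ⟨x, y, h, rfl, hx, hx0, ho, hz⟩ := hQ
    obtain ⟨x', y', h', rfl, hx', hx0', ho', hz'⟩ := hQ'
    have h4 : ord w.ring ((x' - r1) / (x - r1)) = 0 := by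
      rw [← mul_div_mul_left _ _ hσ2, FF.ord_div hK w (mul_ne_zero hσ2 hx0') (mul_ne_zero hσ2 hx0),
        ho, ho', sub_self]
    have h5 : (x' - r1) / (x - r1) ∈ w.ring := by
      rw [← FF.ord_nonneg_iff hK w (div_ne_zero hx0' hx0)]
      omega
    have h6 : ((x' - r1) / (x - r1))⁻¹ ∈ w.ring := by
      rw [← FF.ord_nonneg_iff hK w (inv_ne_zero (div_ne_zero hx0' hx0)),
        FF.ord_inv hK w (div_ne_zero hx0' hx0)]
      omega
    obtain ⟨u, hu, hu'⟩ := Pool.Agent.Helper51.EW.exists_res_ne hK h5 (div_ne_zero hx0' hx0) h6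
    have he' : (if js.2 then e else -e) ^ 2 = 3 * n := by
      split_ifs
      · exact he
      · rw [neg_sq, he]
    exact nod_a hd hn hx hx' he' hx0 hx0' hz hz' hu hu'

theorem nod_pow (hd : RedData w σ a b (-3 * n ^ 2) (2 * n ^ 3)) (hn : n ≠ 0) {r1 r2 r3 : K}
    (hr : ∀ z : K, z ^ 3 + a * z + b = (z - r1) * (z - r2) * (z - r3)) (h12 : r1 ≠ r2)
    (h1 : IsRes w (σ ^ 2 * r1) n) (h2 : IsRes w (σ ^ 2 * r2) n)
    (h3 : IsRes w (σ ^ 2 * r3) (-2 * n)) (P : EPt a b) :
    ∃ m : ℕ, 0 < m ∧ ∃ Rt : EPt (-3 * n ^ 2) (2 * n ^ 3), Red w σ (m • P) Rt := by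
  by_contra hcon
  push Not at hcon
  have hbad : ∀ m : ℕ, ¬ ∃ Rt : EPt (-3 * n ^ 2) (2 * n ^ 3), Red w σ ((m + 1) • P) Rt := by
    intro m hm
    obtain ⟨Rt, hRt⟩ := hm
    exact hcon (m + 1) (Nat.succ_pos m) Rt hRt
  obtain ⟨e, he⟩ := IsAlgClosed.exists_pow_nat_eq (3 * n) (n := 2) (by norm_num)
  choose f hf using fun m => exists_cl hd hn hr h12 h1 h3 he (hbad m)
  obtain ⟨m, m', hne, hmm⟩ := Finite.exists_ne_map_eq_of_infinite f
  have key : ∀ i j : ℕ, i < j → f i = f j → False := by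
    intro i j hij hfij
    have h5 := hf j
    have h6 := hf i
    rw [hfij] at h6
    obtain ⟨Rt, hRt⟩ := same_cl hd hn hr h12 h1 h2 h3 he h5 h6
    have h7 : (j + 1) • P - (i + 1) • P = (j - i) • P := by
      have h8 : (j + 1) • P = (j - i) • P + (i + 1) • P := by
        rw [← add_nsmul]
        congr 1
        omega
      rw [h8, add_sub_cancel_right]
    rw [h7] at hRt
    exact hcon (j - i) (by omega) Rt hRt
  rcases lt_or_gt_of_ne hne with h4 | h4
  · exact key m m' h4 hmm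
  · exact key m' m h4 hmm.symm

end Pool.Agent.Helper21.TO

end CX
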