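import Mathlib
import Pool.Agent.Helper9.NS
import Pool.Agent.Helper40.CX.H21TO.Defs
import Pool.Agent.Helper40.CX.H21TO.SatModel
import Pool.Agent.Helper40.CX.H21TO.Val
import Pool.Agent.Helper40.CX.H21TO.PsiM
import Pool.Agent.Helper40.CX.Good2

namespace CX

/-!
# Block TO-Nodal: nodal models have vanishing cycles
`sp_const`: the nonsingular points of `Y ^ 2 = (X - n) ^ 2 (X + 2 n)` other than `0` are
`(μ ^ 2 - 2 n, μ (μ ^ 2 - 3 n))`, `μ = Y / (X - n)` (`X ≠ n` for nonsingular points: if `X = n` then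
`Y = 0` and `3 X ^ 2 - 3 n ^ 2 = 0`). Let `b`, `b'` be good with parameters `μ ≠ μ'` (if `μ = μ'` then
`b = b'`). Let `K = RatFunc k`, `τ = RatFunc.X` (`VF.ff_ratFunc`, `VF.transcendental_ratX`),
`x = τ ^ 2 - 2 n`, `y = τ (τ ^ 2 - 3 n)`; the vector `evt x y` satisfies the equations
(`Model.sat`), and at a place with `τ` of value `μ` its residues are `evt` at `b` (`VF.IsRes.poly`);
so it is not zero and its value is the point of `b` (`peval_eq`, `Model.sp_good`). Conclude by
`VF.path`. `nul_nodal`: `φ_lin (m.cyc a)` is a difference of two equal values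
(`Model.lin_cyc` or the definition, `Model.exists_good`).
-/

set_option linter.unusedSectionVars false

namespace Pool.Agent.Helper21.TO

open VC VF Function Polynomial
open Pool.Agent.Helper51.EW (Wei WPt aff zeroPt)

universe u

variable {k : Type u} [Field k] [IsAlgClosed k] [CX.Good k] {W : Wei k} {L : Type u} [Field L]
  [Algebra k L]

variable {D : Dat W L} {v : Place k L} {s : L} {n : k}

private lemma param68 {x y : k}
    (h : (sw (-3 * n ^ 2) (2 * n ^ 3)).toAffine.Nonsingular x y) :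
    ∃ μ : k, x = μ ^ 2 - 2 * n ∧ y = μ * (μ ^ 2 - 3 * n) := by
  obtain ⟨h1, h2⟩ := sw_nonsingular.mp h
  have hx : x - n ≠ 0 := by
    intro h0
    have hxn : x = n := sub_eq_zero.mp h0
    have hy : y = 0 := by
      have : y ^ 2 = 0 := by rw [h1, hxn]; ring
      exact pow_eq_zero_iff two_ne_zero |>.mp this
    rcases h2 with h2 | h2
    · apply h2
      rw [hxn]; ring
    · apply h2
      rw [hy, neg_zero]
  have hy : y ^ 2 = (x - n) ^ 2 * (x + 2 * n) := by rw [h1]; ring
  have hμ : (y / (x - n)) ^ 2 = x + 2 * n := by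
    rw [div_pow, hy, mul_div_cancel_left₀ _ (pow_ne_zero 2 hx)]
  refine ⟨y / (x - n), by rw [hμ]; ring, ?_⟩
  rw [hμ]
  have : x + 2 * n - 3 * n = x - n := by ring
  rw [this, div_mul_cancel₀ _ hx]

/-- the homogeneous coordinates as polynomials in the parameter -/
private noncomputable def G68 (m : Model D v s (-3 * n ^ 2) (2 * n ^ 3)) (i : Fin D.M) : k[X] :=
  (m.P i).comp (X ^ 2 - C (2 * n)) +
    (m.Q i).comp (X ^ 2 - C (2 * n)) * (X * (X ^ 2 - C (3 * n)))

private lemma G68_eval (m : Model D v s (-3 * n ^ 2) (2 * n ^ 3)) (i : Fin D.M) (μ : k) :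
    (G68 m i).eval μ = m.evt (μ ^ 2 - 2 * n) (μ * (μ ^ 2 - 3 * n)) i := by
  unfold G68 Model.evt
  simp only [eval_add, eval_comp, eval_mul, eval_sub, eval_pow, eval_X, eval_C, coe_aeval_eq_eval]

private lemma G68_aeval (m : Model D v s (-3 * n ^ 2) (2 * n ^ 3)) {K : Type u} [Field K]
    [Algebra k K] (τ : K) (i : Fin D.M) :
    aeval τ (G68 m i) = m.evt (aeval τ (X ^ 2 - C (2 * n) : k[X]))
      (aeval τ (X * (X ^ 2 - C (3 * n)) : k[X])) i := by
  unfold G68 Model.evt
  rw [map_add, map_mul (aeval τ) ((m.Q i).comp _), aeval_comp, aeval_comp]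

private lemma G68_sat (m : Model D v s (-3 * n ^ 2) (2 * n ^ 3)) {K : Type u} [Field K]
    [Algebra k K] (τ : K) : Sat D.I (fun i => aeval τ (G68 m i)) := by
  have e : (fun i => aeval τ (G68 m i)) = m.evt (aeval τ (X ^ 2 - C (2 * n) : k[X]))
      (aeval τ (X * (X ^ 2 - C (3 * n)) : k[X])) := funext fun i => G68_aeval m τ i
  rw [e]
  apply m.sat
  have h : ((X * (X ^ 2 - C (3 * n))) ^ 2 : k[X]) = (X ^ 2 - C (2 * n)) ^ 3 +
      C (-3 * n ^ 2) * (X ^ 2 - C (2 * n)) + C (2 * n ^ 3) := by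
    simp only [map_mul, map_neg, map_pow, map_ofNat]
    ring
  have h1 := congrArg (aeval τ) h
  rw [map_pow, map_add, map_add, map_mul (aeval τ) (C (-3 * n ^ 2)), aeval_C, aeval_C, map_pow] at h1
  exact h1

theorem Model.sp_const (hn : n ≠ 0) (m : Model D v s (-3 * n ^ 2) (2 * n ^ 3)) {φ : D.S.Pt → ℂ}
    (hφ : Kills D.S φ) (b b' : EPt (-3 * n ^ 2) (2 * n ^ 3)) (hb : m.Good b) (hb' : m.Good b') :
    Finsupp.linearCombination ℤ φ (m.sp b) = Finsupp.linearCombination ℤ φ (m.sp b') := by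
  match b, hb, b', hb' with
  | .zero, hb, _, _ => exact absurd hb id
  | .some _ _ _, _, .zero, hb' => exact absurd hb' id
  | .some x y h, hb, .some x' y' h', hb' =>
    obtain ⟨μ, hx, hy⟩ := param68 h
    obtain ⟨μ', hx', hy'⟩ := param68 h'
    subst hx hy hx' hy'
    by_cases hμ : μ = μ'
    · subst hμ
      rfl
    have hg : m.evt (μ ^ 2 - 2 * n) (μ * (μ ^ 2 - 3 * n)) ≠ 0 := hb
    have hg' : m.evt (μ' ^ 2 - 2 * n) (μ' * (μ' ^ 2 - 3 * n)) ≠ 0 := hb'
    obtain ⟨hs, hsp⟩ := m.sp_good (h := h) hg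
    obtain ⟨hs', hsp'⟩ := m.sp_good (h := h') hg'
    have hτ : Transcendental k (RatFunc.X : RatFunc k) := transcendental_ratX
    have hne : (fun i => aeval (RatFunc.X : RatFunc k) (G68 m i)) ≠ 0 := by
      intro h0
      apply hg
      funext i
      have h1 : aeval (RatFunc.X : RatFunc k) (G68 m i) = 0 := congrFun h0 i
      have h2 : G68 m i = 0 := by
        by_contra h3
        exact hτ ⟨_, h3, h1⟩
      rw [← G68_eval, h2, eval_zero]
      rfl
    have key : ∀ (ν : k) (hν : m.evt (ν ^ 2 - 2 * n) (ν * (ν ^ 2 - 3 * n)) ≠ 0)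
        (hsν : Sat D.I (m.evt (ν ^ 2 - 2 * n) (ν * (ν ^ 2 - 3 * n))))
        (w : Place k (RatFunc k)), IsRes w (RatFunc.X : RatFunc k) ν →
        φ (D.S.eval ff_ratFunc (ppt _ hne (G68_sat m _)) w) = φ (ppt _ hν hsν) := by
      intro ν hν hsν w hw
      congr 1
      refine peval_eq ff_ratFunc w hne (G68_sat m _) hν hsν fun i => ?_
      have := hw.poly (p := G68 m i)
      rwa [G68_eval] at this
    have h1 := path hφ ff_ratFunc (ppt _ hne (G68_sat m _)) hτ hμ (key μ hg hs) (key μ' hg' hs')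
    change Finsupp.linearCombination ℤ φ (m.sp (EPt.mk _ _ h)) =
      Finsupp.linearCombination ℤ φ (m.sp (EPt.mk _ _ h'))
    rw [hsp, hsp', Finsupp.linearCombination_single, Finsupp.linearCombination_single, one_smul,
      one_smul]
    exact h1

theorem Model.nul_nodal (hn : n ≠ 0) (m : Model D v s (-3 * n ^ 2) (2 * n ^ 3))
    (a : EPt (-3 * n ^ 2) (2 * n ^ 3)) : Nul D.S (m.cyc a) := by
  intro φ hφ
  obtain ⟨ψ, h1, h2⟩ := m.lin_cyc hφ
  obtain ⟨b, hb, hab, -⟩ := m.exists_good a ∅ Set.finite_empty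
  rw [h2, ← h1 a b hb hab, m.sp_const hn hφ _ _ hab hb, sub_self]

end Pool.Agent.Helper21.TO

end CX
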