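import Mathlib
import Pool.Agent.Helper9.NS
import Pool.Agent.Helper40.CX.H21TO.Defs
import Pool.Agent.Helper40.CX.H21TO.Defs2
import Pool.Agent.Helper40.CX.Good2

namespace CX

/-!
# Block TO-WCases: the points of the Weierstrass model with coordinates in a function field
`p = WPt.mk a`. If `a.u 0 ≠ 0` scale by `l = 1 / a.u 0`: `u = (1, τ)`. If `τ` is transcendental: `p` is
`ptJ W ![1, τ] _ P0` by `EW.aff_or_zero` applied with these coordinates (the fibre over `τ` is
smooth: `4 A (1, τ) ^ 3 + 27 B (1, τ) ^ 2 ≠ 0` as it is a nonzero polynomial in `τ`: `hΔ`; so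
affine points are nonsingular). If `τ` is algebraic over `k` it is in `k` (algebraically closed):
`u = algebraMap ∘ c`, `c = (1, c1)`. If `a.u 0 = 0`: scale to `u = (0, 1) = algebraMap ∘ c`, `c = (0, 1)`.
In the cases with constant `c`: if `disc W c ≠ 0`, affine points are nonsingular, second
alternative. If `disc W c = 0`: all values of `p` are over `c`: `EW.exists_coords` gives coordinates
`a'` of `p` and `b` of the value with `a'.u i → b.u i`; `a'.u` is proportional to
`algebraMap ∘ c`, so `b.u` is proportional to `c` (cross products; both nonzero), `disc W b.u = 0`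
(`EW.aeval_smul`).
-/

set_option linter.unusedSectionVars false

namespace Pool.Agent.Helper21.TO

open VC VF Function Polynomial
open Pool.Agent.Helper51.EW (Wei WPt aff zeroPt)

universe u

variable {k : Type u} [Field k] [IsAlgClosed k] [CX.Good k] {W : Wei k} {L : Type u} [Field L]
  [Algebra k L]

namespace WCases

/-- A point on a smooth fibre is given by a point of the fibre. -/
lemma exists_ptJ {K : Type u} [Field K] [Algebra k K] (a : Helper51.EW.Coord W K)
    (u : Fin 2 → K) (hu : u ≠ 0) (e : a.u = u)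
    (hd : 4 * MvPolynomial.aeval u W.A ^ 3 + 27 * MvPolynomial.aeval u W.B ^ 2 ≠ 0) :
    ∃ P0 : EPt (MvPolynomial.aeval u W.A) (MvPolynomial.aeval u W.B),
      WPt.mk a = ptJ W u hu P0 := by
  subst e
  by_cases hz : a.w 2 = 0
  · have h0 : a.w 0 = 0 := by
      have := a.eqn
      rw [hz] at this
      have h3 : a.w 0 ^ 3 = 0 := by linear_combination -this
      exact (pow_eq_zero_iff (by norm_num)).mp h3
    have h1 : a.w 1 ≠ 0 := by
      intro h1
      apply a.w_ne
      funext i
      fin_cases i
      · exact h0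
      · exact h1
      · exact hz
    refine ⟨.zero, ?_⟩
    change WPt.mk a = zeroPt a.u hu
    refine Helper51.EW.mk_eq_iff.mpr ⟨1, (a.w 1)⁻¹, one_ne_zero, inv_ne_zero h1,
      fun i => (one_mul _).symm, fun i => ?_⟩
    rw [one_pow, one_mul]
    fin_cases i
    · change (0 : K) = (a.w 1)⁻¹ * a.w 0
      rw [h0, mul_zero]
    · exact (inv_mul_cancel₀ h1).symm
    · change (0 : K) = (a.w 1)⁻¹ * a.w 2
      rw [hz, mul_zero]
  · have he : ((a.w 2)⁻¹ * a.w 1) ^ 2 = ((a.w 2)⁻¹ * a.w 0) ^ 3 +
        MvPolynomial.aeval a.u W.A * ((a.w 2)⁻¹ * a.w 0) + MvPolynomial.aeval a.u W.B := by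
      have := a.eqn
      field_simp
      linear_combination this
    have hn : (sw (MvPolynomial.aeval a.u W.A) (MvPolynomial.aeval a.u W.B)).toAffine.Nonsingular
        ((a.w 2)⁻¹ * a.w 0) ((a.w 2)⁻¹ * a.w 1) := by
      rw [sw_nonsingular]
      refine ⟨he, ?_⟩
      by_contra hcon
      push Not at hcon
      obtain ⟨c1, c2⟩ := hcon
      have : CX.Good K := CX.Good.ext k
      set x := (a.w 2)⁻¹ * a.w 0
      set y := (a.w 2)⁻¹ * a.w 1
      set A := MvPolynomial.aeval a.u W.A
      set B := MvPolynomial.aeval a.u W.B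
      have hy : y = 0 := by
        have h2 : (2 : K) * y = 0 := by linear_combination c2
        exact (mul_eq_zero.mp h2).resolve_left two_ne_zero
      have hA : A = -3 * x ^ 2 := by linear_combination -c1
      have hB : B = 2 * x ^ 3 := by
        rw [hy, hA] at he
        linear_combination -he
      apply hd
      rw [hA, hB]
      ring
    refine ⟨EPt.mk _ _ hn, ?_⟩
    change WPt.mk a = aff a.u _ _ hu _
    refine Helper51.EW.mk_eq_iff.mpr
      ⟨1, (a.w 2)⁻¹, one_ne_zero, inv_ne_zero hz, fun i => (one_mul _).symm, fun i => ?_⟩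
    rw [one_pow, one_mul]
    fin_cases i
    · rfl
    · rfl
    · exact (inv_mul_cancel₀ hz).symm

/-- A nonzero binary form does not vanish at `(1, τ)`, for `τ` transcendental. -/
lemma aeval_one_ne {K : Type u} [Field K] [Algebra k K] {τ : K} (hτ : Transcendental k τ) {n : ℕ}
    {D : MvPolynomial (Fin 2) k} (hD : D.IsHomogeneous n) (h0 : D ≠ 0) :
    MvPolynomial.aeval ![1, τ] D ≠ 0 := by
  have e : ∀ (F : Type u) [Field F] [Algebra k F] (z : F), MvPolynomial.aeval ![1, z] D =
      Polynomial.aeval z (MvPolynomial.aeval (![1, X] : Fin 2 → k[X]) D) := by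
    intro F _ _ z
    have h := MvPolynomial.comp_aeval_apply (R := k) (![1, X] : Fin 2 → k[X])
      (Polynomial.aeval z) D
    have e2 : (fun i => Polynomial.aeval z ((![1, X] : Fin 2 → k[X]) i)) = ![1, z] := by
      funext i
      fin_cases i
      · simp
      · simp
    rw [e2] at h
    exact h.symm
  have hP : MvPolynomial.aeval (![1, X] : Fin 2 → k[X]) D ≠ 0 := by
    intro hP
    apply h0
    have hX : D * MvPolynomial.X 0 = 0 := by
      apply MvPolynomial.funext
      intro v
      rw [map_mul, MvPolynomial.eval_X, map_zero]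
      by_cases hv : v 0 = 0
      · rw [hv, mul_zero]
      · have h1 := Helper51.EW.aeval_smul hD (v 0) (![1, (v 0)⁻¹ * v 1] : Fin 2 → k)
        have h2 : (fun i => v 0 * (![1, (v 0)⁻¹ * v 1] : Fin 2 → k) i) = v := by
          funext i
          fin_cases i
          · simp
          · simp [hv]
        rw [h2, e k, hP, map_zero, mul_zero] at h1
        have h3 : MvPolynomial.eval v D = 0 := by
          rw [← h1]
          rfl
        rw [h3, zero_mul]
    exact (mul_eq_zero.mp hX).resolve_right (MvPolynomial.X_ne_zero 0)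
  rw [e K]
  exact VF.aeval_ne_zero hτ hP

/-- The points over a constant point of the projective line. -/
lemma const_case {K : Type u} [Field K] [Algebra k K] (hK : IsFunctionField k K)
    (a : Helper51.EW.Coord W K) (c : Fin 2 → k) (hc : c 0 = 1 ∨ (c 0 = 0 ∧ c 1 = 1))
    (ha : a.u = fun i => algebraMap k K (c i)) :
    (∃ (c : Fin 2 → k) (_ : c 0 = 1 ∨ (c 0 = 0 ∧ c 1 = 1)) (_ : disc W c ≠ 0)
      (hu : (fun i => algebraMap k K (c i)) ≠ 0)
      (P0 : EPt (MvPolynomial.aeval (fun i => algebraMap k K (c i)) W.A)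
        (MvPolynomial.aeval (fun i => algebraMap k K (c i)) W.B)), WPt.mk a = ptJ W _ hu P0) ∨
    (∀ w : Place k K, ∃ b : Helper51.EW.Coord W k, W.surface.eval hK (WPt.mk a) w = WPt.mk b ∧
      disc W b.u = 0) := by
  have hcne : ∃ j, c j ≠ 0 := by
    rcases hc with h | ⟨_, h⟩
    · exact ⟨0, by rw [h]; exact one_ne_zero⟩
    · exact ⟨1, by rw [h]; exact one_ne_zero⟩
  by_cases hd : disc W c = 0
  · right
    intro w
    obtain ⟨a', b, e1, e2, e3, -⟩ := Helper51.EW.exists_coords hK w (WPt.mk a)
    refine ⟨b, e2, ?_⟩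
    obtain ⟨l, d, hl, -, e4, -⟩ := Helper51.EW.mk_eq_iff.mp e1
    -- cross products
    have hcross : ∀ i j, b.u i * c j = b.u j * c i := by
      intro i j
      have h1 : IsRes w (a'.u i * algebraMap k K (c j)) (b.u i * c j) :=
        (e3 i).mul (isRes_const _)
      have h2 : IsRes w (a'.u j * algebraMap k K (c i)) (b.u j * c i) :=
        (e3 j).mul (isRes_const _)
      have h3 : a'.u i * algebraMap k K (c j) = a'.u j * algebraMap k K (c i) := by
        rw [e4 i, e4 j, ha]
        ring
      rw [h3] at h1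
      exact h1.unique h2
    obtain ⟨j, hj⟩ := hcne
    have hb : b.u = fun i => (b.u j * (c j)⁻¹) * c i := by
      funext i
      have := hcross i j
      field_simp
      linear_combination this
    unfold disc at hd ⊢
    rw [hb, Helper51.EW.aeval_smul W.hA, Helper51.EW.aeval_smul W.hB]
    linear_combination (b.u j * (c j)⁻¹) ^ (12 * W.N) * hd
  · left
    have hu : (fun i => algebraMap k K (c i)) ≠ 0 := by
      obtain ⟨j, hj⟩ := hcne
      intro h0
      exact hj ((_root_.map_eq_zero _).mp (congrFun h0 j))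
    have hd' : 4 * MvPolynomial.aeval (fun i => algebraMap k K (c i)) W.A ^ 3 +
        27 * MvPolynomial.aeval (fun i => algebraMap k K (c i)) W.B ^ 2 ≠ 0 := by
      have e : ∀ F : MvPolynomial (Fin 2) k, MvPolynomial.aeval (fun i => algebraMap k K (c i)) F =
          algebraMap k K (MvPolynomial.aeval c F) := by
        intro F
        exact MvPolynomial.aeval_algebraMap_apply K c F
      rw [e, e]
      intro h0
      apply hd
      unfold disc
      apply (algebraMap k K).injective
      rw [map_zero, ← h0]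
      simp only [map_add, map_mul, map_pow, map_ofNat]
    obtain ⟨P0, hP0⟩ := exists_ptJ a _ hu ha hd'
    exact ⟨c, hc, hd, hu, P0, hP0⟩

end WCases

theorem wpt_cases (hΔ : 4 * W.A ^ 3 + 27 * W.B ^ 2 ≠ 0) {K : Type u} [Field K] [Algebra k K]
    (hK : IsFunctionField k K) (p : WPt W K) :
    (∃ (τ : K) (_ : Transcendental k τ)
      (P0 : EPt (MvPolynomial.aeval ![1, τ] W.A) (MvPolynomial.aeval ![1, τ] W.B)),
      p = ptJ W ![1, τ] (one_t_ne _) P0) ∨
    (∃ (c : Fin 2 → k) (_ : c 0 = 1 ∨ (c 0 = 0 ∧ c 1 = 1)) (_ : disc W c ≠ 0)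
      (hu : (fun i => algebraMap k K (c i)) ≠ 0)
      (P0 : EPt (MvPolynomial.aeval (fun i => algebraMap k K (c i)) W.A)
        (MvPolynomial.aeval (fun i => algebraMap k K (c i)) W.B)), p = ptJ W _ hu P0) ∨
    (∀ w : Place k K, ∃ b : Helper51.EW.Coord W k, W.surface.eval hK p w = WPt.mk b ∧
      disc W b.u = 0) := by
  obtain ⟨a, rfl⟩ := Helper51.EW.exists_mk p
  by_cases h0 : a.u 0 = 0
  · right
    have h1 : a.u 1 ≠ 0 := by
      intro h1
      apply a.u_ne
      funext i
      fin_cases i
      · exact h0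
      · exact h1
    rw [← Helper51.EW.same_scale a (a.u 1)⁻¹ 1 (inv_ne_zero h1) one_ne_zero]
    refine WCases.const_case hK _ ![0, 1] (Or.inr ⟨rfl, rfl⟩) ?_
    funext i
    fin_cases i
    · change (a.u 1)⁻¹ * a.u 0 = algebraMap k K 0
      rw [h0, mul_zero, map_zero]
    · change (a.u 1)⁻¹ * a.u 1 = algebraMap k K 1
      rw [inv_mul_cancel₀ h1, map_one]
  · rw [← Helper51.EW.same_scale a (a.u 0)⁻¹ 1 (inv_ne_zero h0) one_ne_zero]
    by_cases hτ : Transcendental k ((a.u 0)⁻¹ * a.u 1)
    · left
      have hu : (Helper51.EW.scale a (a.u 0)⁻¹ 1 (inv_ne_zero h0) one_ne_zero).u =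
          ![1, (a.u 0)⁻¹ * a.u 1] := by
        funext i
        fin_cases i
        · change (a.u 0)⁻¹ * a.u 0 = 1
          rw [inv_mul_cancel₀ h0]
        · rfl
      have hhom : (4 * W.A ^ 3 + 27 * W.B ^ 2).IsHomogeneous (12 * W.N) := by
        apply MvPolynomial.IsHomogeneous.add
        · have h4 : (MvPolynomial.C (4 : k) : MvPolynomial (Fin 2) k).IsHomogeneous 0 :=
            MvPolynomial.isHomogeneous_C _ _
          have := h4.mul (W.hA.pow 3)
          rw [show 0 + 4 * W.N * 3 = 12 * W.N by ring] at this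
          have e : (MvPolynomial.C (4 : k) : MvPolynomial (Fin 2) k) = 4 := map_ofNat _ 4
          rwa [e] at this
        · have h4 : (MvPolynomial.C (27 : k) : MvPolynomial (Fin 2) k).IsHomogeneous 0 :=
            MvPolynomial.isHomogeneous_C _ _
          have := h4.mul (W.hB.pow 2)
          rw [show 0 + 6 * W.N * 2 = 12 * W.N by ring] at this
          have e : (MvPolynomial.C (27 : k) : MvPolynomial (Fin 2) k) = 27 := map_ofNat _ 27
          rwa [e] at this
      have hd := WCases.aeval_one_ne hτ hhom hΔ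
      simp only [map_add, map_mul, map_pow, map_ofNat] at hd
      obtain ⟨P0, hP0⟩ := WCases.exists_ptJ _ _ (one_t_ne _) hu hd
      exact ⟨_, hτ, P0, hP0⟩
    · right
      have halg : IsAlgebraic k ((a.u 0)⁻¹ * a.u 1) := by
        by_contra h
        exact hτ h
      obtain ⟨c1, hc1⟩ : ∃ c1, algebraMap k K c1 = (a.u 0)⁻¹ * a.u 1 := by
        have hint := halg.isIntegral
        have hirr := minpoly.irreducible hint
        have hdeg := IsAlgClosed.degree_eq_one_of_irreducible k hirr
        exact minpoly.mem_range_of_degree_eq_one k _ hdeg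
      refine WCases.const_case hK _ ![1, c1] (Or.inl rfl) ?_
      funext i
      fin_cases i
      · change (a.u 0)⁻¹ * a.u 0 = algebraMap k K 1
        rw [inv_mul_cancel₀ h0, map_one]
      · change (a.u 0)⁻¹ * a.u 1 = algebraMap k K c1
        rw [hc1]

end Pool.Agent.Helper21.TO

end CX
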