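import Mathlib
import Pool.Agent.Helper9.NS
import Pool.Agent.Helper40.CX.H21TO.Defs
import Pool.Agent.Helper40.CX.H21TO.Defs2
import Pool.Agent.Helper40.CX.H21TO.BaseFacts
import Pool.Agent.Helper40.CX.H21TO.ExModel
import Pool.Agent.Helper40.CX.H21TO.FinBad
import Pool.Agent.Helper40.CX.H21TO.Val
import Pool.Agent.Helper40.CX.H21TO.CycJ
import Pool.Agent.Helper40.CX.H21TO.Star1
import Pool.Agent.Helper40.CX.H21TO.Star2
import Pool.Agent.Helper40.CX.H21TO.WCases
import Pool.Agent.Helper40.CX.H21TO.ConstThm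
import Pool.Agent.Helper40.CX.Good2

namespace CX

/-!
# Block TO-LinkEx: the link between the Jacobian fibration and the surface
`constS`: `pconst`. `constJ`: `EW.exists_const`. `pullS`: `ppull`. `pullJ`: `QF.wmap` and `QF.wmap_eval`.
`zero`: `cycJ_zero`. `const`: `const_thm`. `star`: `wpt_cases`; first case: `star1`; second case:
`star2` with `K' = K`, `m = 1` (`Algebra.id K`, `VQ.res hK hK w = w`: `Place.ext`, the ring is the comap
under the identity); third case: `cycJ (value) = 0` by `cycJ_bad`; take `K' = K`, `m = 1` and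
`P = Q` a constant morphism (`pconst`; `D.S.Pt` is nonempty: a model at some place, which exists by
`exists_over_base`, and a good point, `Model.exists_good`, `Model.sp_good`).
-/

set_option linter.unusedSectionVars false

namespace Pool.Agent.Helper21.TO

open VC VF Function Polynomial
open Pool.Agent.Helper51.EW (Wei WPt aff zeroPt)

universe u

variable {k : Type u} [Field k] [IsAlgClosed k] [CX.Good k] {W : Wei k} {L : Type u} [Field L]
  [Algebra k L]

theorem link (hΔ : 4 * W.A ^ 3 + 27 * W.B ^ 2 ≠ 0) (hmin : Minimal W) (D : Dat W L)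
    {Ω : Type u} [Field Ω] [Algebra k Ω] (ι0 : L →ₐ[k] Ω)
    (x y : Ω) (he : y ^ 2 = x ^ 3 + ι0 D.a * x + ι0 D.b)
    (hI : ∀ (P : MvPolynomial (Fin D.M) k) (n : ℕ), P.IsHomogeneous n →
      MvPolynomial.aeval (ev D.p D.q ι0 x y) P = 0 → P ∈ D.I) :
    Link W.surface D.S (cycJ D) := by
  have hne : Nonempty D.S.Pt := by
    obtain ⟨v, l, hb⟩ := exists_over_base D ![1, 0] (Or.inl rfl)
    obtain ⟨hs, hA, hB⟩ := hb.scale
    obtain ⟨m⟩ := exists_model D v hs hA hB
    obtain ⟨b, hg, -, -⟩ := m.exists_good 0 ∅ Set.finite_empty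
    rcases b with _ | ⟨X, Y, hXY⟩
    · exact hg.elim
    · obtain ⟨hsat, -⟩ := m.sp_good (h := hXY) hg
      exact ⟨ppt (m.evt X Y) hg hsat⟩
  have hres : ∀ (K : Type u) [Field K] [Algebra k K] (hK : IsFunctionField k K) (w : Place k K),
      VQ.res hK hK w = w := by
    intro K _ _ hK w
    ext z
    change (IsScalarTower.toAlgHom k K K) z ∈ w.ring ↔ z ∈ w.ring
    rfl
  exact
  { constS := fun K _ _ hK p => pconst K hK p
    constJ := fun K _ _ hK p => Pool.Agent.Helper51.EW.exists_const K hK p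
    pullS := fun K K' _ _ _ _ _ _ hK hK' c => ppull hK hK' c
    pullJ := fun K K' _ _ _ _ _ _ hK hK' c =>
      ⟨Pool.Agent.Helper83.QF.wmap (IsScalarTower.toAlgHom k K K') c, fun w =>
        Pool.Agent.Helper83.QF.wmap_eval hK hK' c w⟩
    star := by
      intro K _ _ hK p T hT
      rcases wpt_cases hΔ hK p with ⟨τ, hτ, P0, rfl⟩ | ⟨c, hc, hd, hu, P0, rfl⟩ | h3
      · exact star1 D hmin hK τ hτ P0 T hT
      · obtain ⟨P, Q, hPQ⟩ := star2 D hK c hc hd hu P0 T hT
        refine ⟨K, inferInstance, inferInstance, Algebra.id K, inferInstance, hK, 1, P, Q,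
          Nat.one_pos, fun w hw => ?_⟩
        rw [hres] at hw ⊢
        rw [one_smul]
        exact hPQ w hw
      · obtain ⟨p0⟩ := hne
        obtain ⟨P, -⟩ := pconst K hK p0
        refine ⟨K, inferInstance, inferInstance, Algebra.id K, inferInstance, hK, 1, P, P,
          Nat.one_pos, fun w hw => ?_⟩
        obtain ⟨b, hb, hd⟩ := h3 (VQ.res hK hK w)
        rw [sub_self, sub_zero, one_smul, hb, cycJ_bad D b hd]
        exact Nul.zero
    const := fun φ hφ h p p' => const_thm D ι0 x y he hI hφ h p p'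
    zero := cycJ_zero D }

end Pool.Agent.Helper21.TO

end CX
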