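import Mathlib
import Pool.Agent.Helper9.NS
import Pool.Agent.Helper40.CX.H21TO.Defs
import Pool.Agent.Helper40.CX.Good2

namespace CX

/-!
# Block TO-Num: a common denominator
`Ω` is generated by `x`, `y` over `L`, `y ^ 2 = x ^ 3 + a x + b`. The set of the elements
`(p (x) + q (x) y) / r (x)`, `p, q, r ∈ L[X]`, `r (x) ≠ 0`, is a subfield containing `L`, `x`, `y`
(inverse: `1 / (p + q y) = (p - q y) / (p ^ 2 - q ^ 2 f)`), hence all of `Ω`
(`IntermediateField.adjoin_le_iff` or `Subfield` / `adjoin_induction`). Take the product of the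
denominators of the `ξ i` as `c`.
-/

set_option linter.unusedSectionVars false

namespace Pool.Agent.Helper21.TO

open VC VF Function Polynomial
open Pool.Agent.Helper51.EW (Wei WPt aff zeroPt)

universe u

theorem exists_num_one {L Ω : Type u} [Field L] [Field Ω] [Algebra L Ω] (a b : L) (x y : Ω)
    (he : y ^ 2 = x ^ 3 + algebraMap L Ω a * x + algebraMap L Ω b) {z : Ω}
    (hz : z ∈ IntermediateField.adjoin L {x, y}) :
    ∃ r p q : L[X], aeval x r ≠ 0 ∧ aeval x r * z = aeval x p + aeval x q * y := by
  have hf : aeval x (X ^ 3 + C a * X + C b : L[X]) = y ^ 2 := by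
    rw [he]; simp
  induction hz using IntermediateField.adjoin_induction with
  | mem z hz =>
    simp only [Set.mem_insert_iff, Set.mem_singleton_iff] at hz
    rcases hz with rfl | rfl
    · exact ⟨1, X, 0, by simp, by simp⟩
    · exact ⟨1, 0, 1, by simp, by simp⟩
  | algebraMap c => exact ⟨1, C c, 0, by simp, by simp⟩
  | add z w _ _ hz hw =>
    obtain ⟨r, p, q, hr, h⟩ := hz
    obtain ⟨r', p', q', hr', h'⟩ := hw
    refine ⟨r * r', p * r' + p' * r, q * r' + q' * r, ?_, ?_⟩
    · rw [map_mul]; exact mul_ne_zero hr hr'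
    · simp only [map_mul, map_add]
      linear_combination (aeval x r') * h + (aeval x r) * h'
  | inv z _ hz =>
    obtain ⟨r, p, q, hr, h⟩ := hz
    by_cases hz0 : z = 0
    · exact ⟨1, 0, 0, by simp, by simp [hz0]⟩
    · have hne : aeval x p + aeval x q * y ≠ 0 := by
        rw [← h]; exact mul_ne_zero hr hz0
      by_cases hm : aeval x p - aeval x q * y = 0
      · have hp : aeval x p = aeval x q * y := sub_eq_zero.1 hm
        have h2 : (2 : Ω) * aeval x q * y ≠ 0 := by
          intro h0
          apply hne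
          rw [hp]
          linear_combination h0
        have hy : y ≠ 0 := fun h0 => h2 (by rw [h0, mul_zero])
        have h3 : (2 : Ω) * aeval x q ≠ 0 := fun h0 => h2 (by rw [h0, zero_mul])
        refine ⟨2 * q * (X ^ 3 + C a * X + C b), 0, r, ?_, ?_⟩
        · rw [map_mul, hf, map_mul, map_ofNat]
          exact mul_ne_zero h3 (pow_ne_zero 2 hy)
        · rw [map_mul, hf, map_mul, map_zero, zero_add]
          have h4 : aeval x r * z = 2 * aeval x q * y := by
            rw [h, hp]; ring
          rw [map_ofNat, ← div_eq_mul_inv, div_eq_iff hz0]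
          linear_combination -y * h4
      · refine ⟨p ^ 2 - q ^ 2 * (X ^ 3 + C a * X + C b), r * p, - (r * q), ?_, ?_⟩
        · have : aeval x (p ^ 2 - q ^ 2 * (X ^ 3 + C a * X + C b)) =
              (aeval x p + aeval x q * y) * (aeval x p - aeval x q * y) := by
            rw [map_sub, map_mul, hf, map_pow, map_pow]; ring
          rw [this]
          exact mul_ne_zero hne hm
        · have : aeval x (p ^ 2 - q ^ 2 * (X ^ 3 + C a * X + C b)) =
              (aeval x p + aeval x q * y) * (aeval x p - aeval x q * y) := by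
            rw [map_sub, map_mul, hf, map_pow, map_pow]; ring
          rw [this, ← h, map_mul, map_neg, map_mul, ← div_eq_mul_inv, div_eq_iff hz0]
          ring
  | mul z w _ _ hz hw =>
    obtain ⟨r, p, q, hr, h⟩ := hz
    obtain ⟨r', p', q', hr', h'⟩ := hw
    refine ⟨r * r', p * p' + q * q' * (X ^ 3 + C a * X + C b), p * q' + p' * q, ?_, ?_⟩
    · rw [map_mul]; exact mul_ne_zero hr hr'
    · rw [map_mul, map_add, map_mul, map_mul, map_mul, hf, map_add, map_mul, map_mul]
      calc aeval x r * aeval x r' * (z * w) = (aeval x r * z) * (aeval x r' * w) := by ring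
        _ = _ := by rw [h, h']; ring

theorem exists_num {L Ω : Type u} [Field L] [Field Ω] [Algebra L Ω] (a b : L) (x y : Ω)
    (he : y ^ 2 = x ^ 3 + algebraMap L Ω a * x + algebraMap L Ω b)
    (hgen : IntermediateField.adjoin L {x, y} = ⊤) {M : ℕ} (ξ : Fin M → Ω) :
    ∃ (c : Ω) (p q : Fin M → L[X]), c ≠ 0 ∧
      ∀ i, c * ξ i = aeval x (p i) + aeval x (q i) * y := by
  have h : ∀ i, ∃ r p q : L[X], aeval x r ≠ 0 ∧
      aeval x r * ξ i = aeval x p + aeval x q * y := fun i =>
    exists_num_one a b x y he (by rw [hgen]; exact IntermediateField.mem_top)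
  choose r p q hr hpq using h
  refine ⟨∏ i, aeval x (r i), fun i => (∏ j ∈ Finset.univ.erase i, r j) * p i,
    fun i => (∏ j ∈ Finset.univ.erase i, r j) * q i, ?_, fun i => ?_⟩
  · exact Finset.prod_ne_zero_iff.2 fun i _ => hr i
  · rw [← Finset.mul_prod_erase Finset.univ _ (Finset.mem_univ i), map_mul, map_mul, map_prod]
    linear_combination (∏ j ∈ Finset.univ.erase i, aeval x (r j)) * hpq i

end Pool.Agent.Helper21.TO

end CX
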