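import Mathlib
import Pool.Agent.Helper9.NS
import Pool.Agent.Helper40.CX.H21TO.Defs
import Pool.Agent.Helper40.CX.H21TO.Defs3
import Pool.Agent.Helper40.CX.Good2

namespace CX

/-!
# Block TO-ResL: the action of the Galois group on the splitting field
For `σ ∈ G` the map `τ : L → L` with `algebraMap (τ z) = σ (algebraMap z)` (`stable`, choice; unique by
injectivity) is a `k`-algebra homomorphism, and bijective: the one for `σ⁻¹` is its inverse
(`AlgEquiv.ofBijective` or `AlgEquiv.ofAlgHom`). The set of the `τ : L ≃ₐ[k] L` for which there is `σ ∈ G` with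
`∀ z, σ (algebraMap z) = algebraMap (τ z)` is a subgroup; it is finite, being the image of `G`
(`Set.Finite` / `Finite.of_surjective` with `σ ↦` the unique `τ`).
-/

set_option linter.unusedSectionVars false

namespace Pool.Agent.Helper21.TO

open VC VF Function Polynomial
open Pool.Agent.Helper51.EW (Wei WPt aff zeroPt)

universe u

variable {k : Type u} [Field k] {L Ω : Type u} [Field L] [Algebra k L]
  [Field Ω] [Algebra k Ω] [Algebra L Ω] [IsScalarTower k L Ω]

theorem exists_res_subgroup (G : Subgroup (Ω ≃ₐ[k] Ω)) (hG : Finite G)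
    (hst : ∀ σ ∈ G, ∀ z : L, σ (algebraMap L Ω z) ∈ Set.range (algebraMap L Ω)) :
    ∃ H : Subgroup (L ≃ₐ[k] L), Finite H ∧
      (∀ τ ∈ H, ∃ σ ∈ G, ∀ z, σ (algebraMap L Ω z) = algebraMap L Ω (τ z)) ∧
      (∀ σ ∈ G, ∃ τ ∈ H, ∀ z, σ (algebraMap L Ω z) = algebraMap L Ω (τ z)) := by
  classical
  have hinj : Function.Injective (algebraMap L Ω) := (algebraMap L Ω).injective
  choose! r hr using hst
  let f : G → (L →ₐ[k] L) := fun σ =>
    { toFun := r σ.1
      map_one' := hinj (by rw [hr _ σ.2, map_one, map_one])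
      map_mul' := fun x y => hinj (by
        rw [hr _ σ.2, map_mul, map_mul, map_mul, hr _ σ.2, hr _ σ.2])
      map_zero' := hinj (by rw [hr _ σ.2, map_zero, map_zero])
      map_add' := fun x y => hinj (by
        rw [hr _ σ.2, map_add, map_add, map_add, hr _ σ.2, hr _ σ.2])
      commutes' := fun c => hinj (by
        rw [hr _ σ.2, ← IsScalarTower.algebraMap_apply, AlgEquiv.commutes]) }
  have hf : ∀ (σ : G) (z : L), algebraMap L Ω (f σ z) = (σ : Ω ≃ₐ[k] Ω) (algebraMap L Ω z) :=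
    fun σ z => hr _ σ.2 z
  have hcomp : ∀ (σ τ : G) (z : L), f (σ * τ) z = f σ (f τ z) :=
    fun σ τ z => hinj (by rw [hf, hf, hf]; rfl)
  have h1 : ∀ z : L, f 1 z = z := fun z => hinj (by rw [hf]; rfl)
  let e : G → (L ≃ₐ[k] L) := fun σ => AlgEquiv.ofAlgHom (f σ) (f σ⁻¹)
    (AlgHom.ext fun z => by
      show f σ (f σ⁻¹ z) = z
      rw [← hcomp, mul_inv_cancel, h1])
    (AlgHom.ext fun z => by
      show f σ⁻¹ (f σ z) = z
      rw [← hcomp, inv_mul_cancel, h1])
  let R : G →* (L ≃ₐ[k] L) :=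
    { toFun := e
      map_one' := AlgEquiv.ext h1
      map_mul' := fun σ τ => AlgEquiv.ext (hcomp σ τ) }
  refine ⟨R.range, Finite.of_surjective R.rangeRestrict R.rangeRestrict_surjective, ?_, ?_⟩
  · rintro τ ⟨σ, rfl⟩
    exact ⟨σ, σ.2, fun z => (hf σ z).symm⟩
  · intro σ hσ
    exact ⟨R ⟨σ, hσ⟩, ⟨_, rfl⟩, fun z => (hf ⟨σ, hσ⟩ z).symm⟩

end Pool.Agent.Helper21.TO

end CX
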