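import Mathlib
import Pool.Agent.Helper9.NS
import Pool.Agent.Helper40.CX.H21TO.Defs
import Pool.Agent.Helper40.CX.Good2

namespace CX

/-!
# Block TO-Multi: simultaneous lifting of several points
Induction over the slots: prove for all `s : Finset (Fin n)` (or for all `j ≤ n`, the slots `i < j`)
the statement restricted to `i ∈ s` (the `P i`, `Q i` for `i ∉ s` are irrelevant; take constant
morphisms, `h.constS` with a point of `S`: `h.star` itself gives one, or state the induction with
`∀ i ∈ s, ∃ P Q`). Empty `s`: `K' = K`. Step `insert i s`: given `K'` for `s`, pull back `p i` to `K'`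
(`h.pullJ`), apply `h.star` to `K'`, this point and the set `T' = {w | VQ.res hK hK' w ∈ T}`
(finite: a finite union of fibres, `VP.finite_res`), get `K''`, `m i`, `P i`, `Q i`; pull back the
old `P j`, `Q j` to `K''` (`h.pullS`). Give `K''` the structure of a `K`-algebra by composition
(`((algebraMap K' K'').comp (algebraMap K K')).toAlgebra`, `IsScalarTower k K K''` by `ext`-free
`IsScalarTower.of_algebraMap_eq`); then
`VQ.res hK hK'' w = VQ.res hK hK' (VQ.res hK' hK'' w)` (`Place.ext`, the ring is a comap: `rfl`-like).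
-/

set_option linter.unusedSectionVars false

namespace Pool.Agent.Helper21.TO

open VC VF Function Polynomial
open Pool.Agent.Helper51.EW (Wei WPt aff zeroPt)

universe u

variable {k : Type u} [Field k] [IsAlgClosed k] [CX.Good k] {J S : Variety k}
  {cyc : J.Pt → S.Cycles}

private theorem multi_aux (h : Link J S cyc) (n : ℕ) (K : Type u) [Field K] [Algebra k K]
    (hK : IsFunctionField k K) (p : Fin n → J.Mor K) (T : Set (Place k K)) (hT : T.Finite)
    (s : Finset (Fin n)) :
    ∃ (K' : Type u) (_ : Field K') (_ : Algebra k K') (_ : Algebra K K')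
      (_ : IsScalarTower k K K') (hK' : IsFunctionField k K'), ∀ i ∈ s,
      ∃ (m : ℕ) (P Q : S.Mor K'), 0 < m ∧
      ∀ w : Place k K', VQ.res hK hK' w ∈ T →
        Nul S (m • cyc (J.eval hK (p i) (VQ.res hK hK' w)) -
          (Finsupp.single (S.eval hK' P w) 1 - Finsupp.single (S.eval hK' Q w) 1)) := by
  classical
  induction s using Finset.induction_on with
  | empty =>
    exact ⟨K, inferInstance, inferInstance, Algebra.id K, inferInstance, hK,
      fun i hi => absurd hi (Finset.notMem_empty i)⟩
  | insert i s _ ih =>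
    obtain ⟨K', _, _, _, _, hK', hs⟩ := ih
    obtain ⟨p', hp'⟩ := h.pullJ K K' hK hK' (p i)
    have hT' : {w : Place k K' | VQ.res hK hK' w ∈ T}.Finite := by
      have e : {w : Place k K' | VQ.res hK hK' w ∈ T} =
          ⋃ P ∈ T, {w : Place k K' | VQ.res hK hK' w = P} := by
        ext w
        simp
      rw [e]
      exact hT.biUnion fun P _ => VP.finite_res hK hK' P
    obtain ⟨K'', _, _, _, _, hK'', m, P, Q, hm, hPQ⟩ := h.star K' hK' p' _ hT'
    letI : Algebra K K'' := ((algebraMap K' K'').comp (algebraMap K K')).toAlgebra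
    haveI : IsScalarTower k K K'' := IsScalarTower.of_algebraMap_eq fun x => by
      change algebraMap k K'' x = algebraMap K' K'' (algebraMap K K' (algebraMap k K x))
      rw [← IsScalarTower.algebraMap_apply k K K', ← IsScalarTower.algebraMap_apply k K' K'']
    have hres : ∀ w : Place k K'', VQ.res hK hK'' w = VQ.res hK hK' (VQ.res hK' hK'' w) := by
      intro w
      ext x
      rfl
    refine ⟨K'', inferInstance, inferInstance, inferInstance, inferInstance, hK'', ?_⟩
    intro j hj
    rcases Finset.mem_insert.mp hj with rfl | hj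
    · refine ⟨m, P, Q, hm, fun w hw => ?_⟩
      rw [hres] at hw ⊢
      have h1 := hPQ w hw
      rw [hp'] at h1
      exact h1
    · obtain ⟨mj, Pj, Qj, hmj, hjj⟩ := hs j hj
      obtain ⟨P', hP'⟩ := h.pullS K' K'' hK' hK'' Pj
      obtain ⟨Q', hQ'⟩ := h.pullS K' K'' hK' hK'' Qj
      refine ⟨mj, P', Q', hmj, fun w hw => ?_⟩
      rw [hres] at hw
      rw [hres, hP', hQ']
      exact hjj _ hw

theorem multi (h : Link J S cyc) (n : ℕ) (K : Type u) [Field K] [Algebra k K]
    (hK : IsFunctionField k K) (p : Fin n → J.Mor K) (T : Set (Place k K)) (hT : T.Finite) :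
    ∃ (K' : Type u) (_ : Field K') (_ : Algebra k K') (_ : Algebra K K')
      (_ : IsScalarTower k K K') (hK' : IsFunctionField k K') (m : Fin n → ℕ)
      (P Q : Fin n → S.Mor K'), (∀ i, 0 < m i) ∧
      ∀ w : Place k K', VQ.res hK hK' w ∈ T → ∀ i,
        Nul S (m i • cyc (J.eval hK (p i) (VQ.res hK hK' w)) -
          (Finsupp.single (S.eval hK' (P i) w) 1 - Finsupp.single (S.eval hK' (Q i) w) 1)) := by
  obtain ⟨K', _, _, _, _, hK', hs⟩ := multi_aux h n K hK p T hT Finset.univ
  choose m P Q hm hPQ using fun i => hs i (Finset.mem_univ i)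
  exact ⟨K', inferInstance, inferInstance, inferInstance, inferInstance, hK', m, P, Q, hm,
    fun w hw i => hPQ i w hw⟩

end Pool.Agent.Helper21.TO

end CX
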