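import Mathlib
import Pool.Agent.Helper9.NS
import Pool.Agent.Helper40.CX.H21TO.Defs
import Pool.Agent.Helper40.CX.H21TO.ExtCongr
import Pool.Agent.Helper40.CX.H21TO.Trans
import Pool.Agent.Helper40.CX.Good2

namespace CX

/-!
# Block TO-Transfer: the transfer of Voisin's property
By `VH.separation`-type lemma (Helper83/VH/Decomp.lean uses `separation (X.pow n) z`, find it
there: if all `Kills` functions kill `z` then a positive multiple of `z` is in `Rat`) it suffices to
show `∑_σ sgn σ Φ_lin (ext (a ∘ σ)) = 0` for `Φ` with `Kills (S.pow n) Φ`. Let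
`T z = Φ_lin (ext' z)`, multilinear in `z : Fin n → S.Cycles` (`extM`), and
`A z = ∑_σ sgn σ T (z ∘ σ)`, multilinear and alternating.
Claim: for all `j ≤ n`: `A z = 0` whenever `z i` has degree `0` for `i < j` and `z i = cyc (y i)` for
`i ≥ j`. `j = 0`: `Ψ y = T (cyc ∘ y)` is `Kills (J.pow n)` by `kills_trans`. Let `cyc o = 0`. For
`b i = single (y i) 1 - single o 1` (degree `0`) Voisin for `J` gives `m > 0` with
`m • ∑ sgn σ ext (b ∘ σ) ∈ Rat`, so `∑ sgn σ Ψ_lin (ext (b ∘ σ)) = 0` (char 0); and
`Ψ_lin (ext b') = T (fun i => lin cyc (b' i))` for all `b'` (multilinear, check on points), so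
`Ψ_lin (ext (b ∘ σ)) = T (cyc ∘ y ∘ σ)` as `cyc o = 0`. Step `j → j + 1`: fix the other slots; the
function `φ x = A (z with [x] in the slot j)` is `Kills S`: a finite linear combination of functions
`x ↦ Φ (update q i x)` (other slots linear combinations of points), or: for `r ∈ S.Rat`,
`φ_lin r = A (.. r ..) = ± T (.. r ..) sums = 0` by `ext_congr` with `Nul` (an element of `Rat` is
`Nul`), and `φ_lin (cyc y) = A (.. cyc y ..) = 0` by the induction hypothesis. By `h.const`, `φ` is
constant, so it kills cycles of degree `0`.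
-/

set_option linter.unusedSectionVars false

namespace Pool.Agent.Helper21.TO

open VC VF Function Polynomial
open Pool.Agent.Helper51.EW (Wei WPt aff zeroPt)

universe u

variable {k : Type u} [Field k] [IsAlgClosed k] [CX.Good k] {J S : Variety k}
  {cyc : J.Pt → S.Cycles}

/-- The functional on exterior products as a multilinear map. -/
private noncomputable def TM24 (X : Variety k) {n : ℕ} (Φ : (X.pow n).Pt → ℂ) :
    MultilinearMap ℤ (fun _ : Fin n => X.Cycles) ℂ :=
  (Finsupp.linearCombination ℤ Φ).compMultilinearMap (extM X.Pt n)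

private lemma TM24_apply {X : Variety k} {n : ℕ} (Φ : (X.pow n).Pt → ℂ) (z : Fin n → X.Cycles) :
    TM24 X Φ z = Finsupp.linearCombination ℤ Φ (extProd z) := rfl

private lemma lin_ext24 {n : ℕ} (Φ : (S.pow n).Pt → ℂ) (c : J.Pt → S.Cycles)
    (b : Fin n → J.Cycles) :
    Finsupp.linearCombination ℤ (fun y : (J.pow n).Pt =>
      Finsupp.linearCombination ℤ Φ (extProd (fun i => c (y i)))) (extProd b) =
      TM24 S Φ (fun i => Finsupp.linearCombination ℤ c (b i)) := by
  classical
  have e1 : (fun i => Finsupp.linearCombination ℤ c (b i)) =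
      fun i => ∑ x ∈ (b i).support, (b i x) • c x := by
    funext i
    rw [Finsupp.linearCombination_apply, Finsupp.sum]
  rw [e1, MultilinearMap.map_sum_finset (TM24 S Φ) (fun i x => (b i x) • c x)
    (fun i => (b i).support)]
  unfold extProd
  rw [map_sum]
  refine Finset.sum_congr rfl fun p _ => ?_
  rw [Finsupp.linearCombination_single, MultilinearMap.map_smul_univ]
  rfl

private lemma lin_const24 {α : Type*} {φ : α → ℂ} (hφ : ∀ x x', φ x = φ x') {w : α →₀ ℤ}
    (hw : w.sum (fun _ c => c) = 0) : Finsupp.linearCombination ℤ φ w = 0 := by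
  rcases isEmpty_or_nonempty α with he | ⟨⟨x₀⟩⟩
  · have : w = 0 := Subsingleton.elim _ _
    rw [this, map_zero]
  · rw [Finsupp.linearCombination_apply, Finsupp.sum]
    have e : ∑ x ∈ w.support, w x • φ x = ∑ x ∈ w.support, w x • φ x₀ :=
      Finset.sum_congr rfl fun x _ => by rw [hφ x x₀]
    rw [e, ← Finset.sum_smul]
    have : ∑ x ∈ w.support, w x = 0 := hw
    rw [this, zero_smul]

/-- A factor killed by all functionals kills the exterior product. -/
private lemma TM24_nul (hconst : ∀ (K : Type u) [Field K] [Algebra k K]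
    (hK : IsFunctionField k K) (p : S.Pt), ∃ c : S.Mor K, ∀ v, S.eval hK c v = p) {n : ℕ}
    {Φ : (S.pow n).Pt → ℂ} (hΦ : Kills (S.pow n) Φ) (z : Fin n → S.Cycles) (i : Fin n)
    (hz : Nul S (z i)) : TM24 S Φ z = 0 := by
  have h1 : TM24 S Φ z = TM24 S Φ (update z i 0) := by
    rw [TM24_apply, TM24_apply]
    refine ext_congr hconst hΦ z (update z i 0) fun j => ?_
    by_cases hj : j = i
    · subst hj
      rw [update_self, sub_zero]
      exact hz
    · rw [update_of_ne hj, sub_self]
      exact Nul.zero
  rw [h1]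
  exact (TM24 S Φ).map_update_zero z i

private lemma alt_apply24 {n : ℕ} (Φ : (S.pow n).Pt → ℂ) (z : Fin n → S.Cycles) :
    (TM24 S Φ).alternatization z = ∑ σ : Equiv.Perm (Fin n), ((Equiv.Perm.sign σ : ℤˣ) : ℤ) •
      TM24 S Φ (fun i => z (σ i)) := by
  rw [MultilinearMap.alternatization_apply]
  refine Finset.sum_congr rfl fun σ _ => ?_
  rw [Units.smul_def]
  rfl

private lemma alt_cyc24 (h : Link J S cyc) {n : ℕ} (hJ : Voisin J n) {Φ : (S.pow n).Pt → ℂ}
    (hΦ : Kills (S.pow n) Φ) (y : Fin n → J.Pt) :
    (TM24 S Φ).alternatization (fun i => cyc (y i)) = 0 := by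
  classical
  obtain ⟨o, ho⟩ := h.zero
  have hΨ := kills_trans h hΦ
  obtain ⟨m, hm, hmem⟩ := hJ (fun i => Finsupp.single (y i) 1 - Finsupp.single o 1) (fun i => by
    rw [Finsupp.sum_sub_index (fun _ _ _ => rfl), Finsupp.sum_single_index rfl,
      Finsupp.sum_single_index rfl, sub_self])
  have h1 := hΨ _ hmem
  rw [map_nsmul, map_sum] at h1
  have h2 : ∑ σ : Equiv.Perm (Fin n), Finsupp.linearCombination ℤ (fun y : (J.pow n).Pt =>
      Finsupp.linearCombination ℤ Φ (extProd (fun i => cyc (y i))))
      (((Equiv.Perm.sign σ : ℤˣ) : ℤ) • extProd (fun i => (fun i => (Finsupp.single (y i) 1 -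
        Finsupp.single o 1 : J.Cycles)) (σ i))) = 0 := by
    rcases smul_eq_zero.1 h1 with h0 | h0
    · exact absurd h0 hm.ne'
    · exact h0
  rw [alt_apply24, ← h2]
  refine Finset.sum_congr rfl fun σ _ => ?_
  rw [map_smul, lin_ext24]
  congr 2
  funext i
  rw [map_sub, Finsupp.linearCombination_single, Finsupp.linearCombination_single, ho, one_smul,
    smul_zero, sub_zero]

private lemma alt_step24 (h : Link J S cyc) {n : ℕ} (hJ : Voisin J n) {Φ : (S.pow n).Pt → ℂ}
    (hΦ : Kills (S.pow n) Φ) (j : ℕ) : j ≤ n → ∀ z : Fin n → S.Cycles,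
      (∀ i : Fin n, (i : ℕ) < j → (z i).sum (fun _ c => c) = 0) →
      (∀ i : Fin n, j ≤ (i : ℕ) → ∃ y, z i = cyc y) → (TM24 S Φ).alternatization z = 0 := by
  classical
  induction j with
  | zero =>
    intro _ z _ hz
    choose y hy using fun i => hz i (Nat.zero_le _)
    have : z = fun i => cyc (y i) := funext hy
    rw [this]
    exact alt_cyc24 h hJ hΦ y
  | succ j ih =>
    intro hj z hz0 hz1
    have hjn : j < n := hj
    set i : Fin n := ⟨j, hjn⟩ with hi
    let φ : S.Pt → ℂ := fun x => (TM24 S Φ).alternatization (update z i (Finsupp.single x 1))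
    have hlin : ∀ w : S.Cycles, Finsupp.linearCombination ℤ φ w =
        (TM24 S Φ).alternatization (update z i w) := by
      intro w
      induction w using Finsupp.induction_linear with
      | zero => rw [map_zero, AlternatingMap.map_update_zero]
      | add a b ha hb => rw [map_add, ha, hb, AlternatingMap.map_update_add]
      | single x m =>
        rw [Finsupp.linearCombination_single]
        have e : (Finsupp.single x m : S.Cycles) = m • Finsupp.single x 1 := by
          rw [Finsupp.smul_single, smul_eq_mul, mul_one]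
        rw [e, AlternatingMap.map_update_smul]
    have hkill : Kills S φ := by
      intro r hr
      rw [hlin, alt_apply24]
      refine Finset.sum_eq_zero fun σ _ => ?_
      have hn : Nul S ((fun l => (update z i r) (σ l)) (σ.symm i)) := by
        have e : (fun l => (update z i r) (σ l)) (σ.symm i) = r := by
          change (update z i r) (σ (σ.symm i)) = r
          rw [Equiv.apply_symm_apply, update_self]
        rw [e]
        exact fun ψ hψ => hψ r hr
      have h5 := TM24_nul h.constS hΦ (fun l => (update z i r) (σ l)) (σ.symm i) hn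
      rw [h5, smul_zero]
    have hconst := h.const φ hkill (fun y => by
      rw [hlin]
      refine ih (by omega) _ (fun l hl => ?_) (fun l hl => ?_)
      · rw [update_of_ne (by
          intro h'
          rw [h'] at hl
          exact lt_irrefl _ hl)]
        exact hz0 l (by omega)
      · by_cases hl' : l = i
        · subst hl'
          exact ⟨y, update_self _ _ _⟩
        · rw [update_of_ne hl']
          refine hz1 l ?_
          have : (l : ℕ) ≠ j := fun h' => hl' (Fin.ext h')
          omega)
    have h3 := lin_const24 hconst (hz0 i (Nat.lt_succ_self j))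
    rw [hlin, update_eq_self] at h3
    exact h3

theorem transfer (h : Link J S cyc) {n : ℕ} (hJ : Voisin J n) : Voisin S n := by
  intro a ha
  refine separation (S.pow n) _ fun Φ hΦ => ?_
  have h1 := alt_step24 h hJ hΦ n le_rfl a (fun i _ => ha i)
    (fun i hi => absurd i.2 (not_lt.2 hi))
  rw [alt_apply24] at h1
  rw [map_sum, ← h1]
  refine Finset.sum_congr rfl fun σ _ => ?_
  rw [map_smul, TM24_apply]

end Pool.Agent.Helper21.TO

end CX
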