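import Mathlib
import Pool.Agent.Helper9.NS
import Pool.Agent.Helper40.CX.H21TO.Defs
import Pool.Agent.Helper40.CX.H21TO.PolyDvd
import Pool.Agent.Helper40.CX.Good2

namespace CX

/-!
# Block TO-Spec: specialisation of the generic point
Let `A ⊆ Ω` be the subring generated by the image of `L` and `x`, `y`; it is the image of
`L[X][X] → Ω`, `F ↦ F.eval₂ (eval₂RingHom ι0 x) y`. By `poly_zero` the homomorphism
`F ↦ F.eval₂ (eval₂RingHom ι x1) y1` to `K` factors over `A`: `h0 : A → K`. Let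
`R = {a / b | a, b ∈ A, h0 b ≠ 0}`, a subring of `Ω` (`LocalSubring.ofPrime A (ker h0)` in
Mathlib/RingTheory/LocalRing/LocalSubring, or define it directly), and extend `h0` to `R`
(`IsLocalization.lift`, or direct: `h (a / b) = h0 a / h0 b`, well defined). If `h (a / b) ≠ 0` then
`h0 a ≠ 0` and `b / a ∈ R`.
-/

set_option linter.unusedSectionVars false

namespace Pool.Agent.Helper21.TO

open VC VF Function Polynomial
open Pool.Agent.Helper51.EW (Wei WPt aff zeroPt)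

universe u

/-- `z = F / G` and `c = F / G` for the two evaluations. -/
private def Rel {A Ω K : Type u} [CommRing A] [Field Ω] [Field K] (e0 : A →+* Ω) (e1 : A →+* K)
    (z : Ω) (c : K) : Prop :=
  ∃ F G : A, e1 G ≠ 0 ∧ z * e0 G = e0 F ∧ c * e1 G = e1 F

section rel

variable {A Ω K : Type u} [CommRing A] [Field Ω] [Field K] {e0 : A →+* Ω} {e1 : A →+* K}

private lemma Rel.of (F : A) : Rel e0 e1 (e0 F) (e1 F) :=
  ⟨F, 1, by rw [map_one]; exact one_ne_zero, by rw [map_one, mul_one], by rw [map_one, mul_one]⟩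

private lemma Rel.add {z z' : Ω} {c c' : K} (h : Rel e0 e1 z c) (h' : Rel e0 e1 z' c') :
    Rel e0 e1 (z + z') (c + c') := by
  obtain ⟨F, G, h1, h2, h3⟩ := h
  obtain ⟨F', G', h1', h2', h3'⟩ := h'
  refine ⟨F * G' + F' * G, G * G', ?_, ?_, ?_⟩
  · rw [map_mul]; exact mul_ne_zero h1 h1'
  · rw [map_mul, map_add, map_mul, map_mul]
    linear_combination (e0 G') * h2 + (e0 G) * h2'
  · rw [map_mul, map_add, map_mul, map_mul]
    linear_combination (e1 G') * h3 + (e1 G) * h3'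

private lemma Rel.mul {z z' : Ω} {c c' : K} (h : Rel e0 e1 z c) (h' : Rel e0 e1 z' c') :
    Rel e0 e1 (z * z') (c * c') := by
  obtain ⟨F, G, h1, h2, h3⟩ := h
  obtain ⟨F', G', h1', h2', h3'⟩ := h'
  refine ⟨F * F', G * G', ?_, ?_, ?_⟩
  · rw [map_mul]; exact mul_ne_zero h1 h1'
  · rw [map_mul, map_mul, ← h2, ← h2']; ring
  · rw [map_mul, map_mul, ← h3, ← h3']; ring

private lemma Rel.neg {z : Ω} {c : K} (h : Rel e0 e1 z c) : Rel e0 e1 (-z) (-c) := by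
  obtain ⟨F, G, h1, h2, h3⟩ := h
  exact ⟨-F, G, h1, by rw [map_neg, ← h2]; ring, by rw [map_neg, ← h3]; ring⟩

private lemma Rel.inv (h01 : ∀ F, e0 F = 0 → e1 F = 0) {z : Ω} {c : K} (h : Rel e0 e1 z c)
    (hc : c ≠ 0) : Rel e0 e1 z⁻¹ c⁻¹ := by
  obtain ⟨F, G, h1, h2, h3⟩ := h
  have h4 : e1 F ≠ 0 := by rw [← h3]; exact mul_ne_zero hc h1
  have h5 : e0 F ≠ 0 := fun h => h4 (h01 F h)
  have h6 : z ≠ 0 := by
    rintro rfl
    rw [zero_mul] at h2
    exact h5 h2.symm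
  refine ⟨G, F, h4, ?_, ?_⟩
  · rw [← h2, inv_mul_cancel_left₀ h6]
  · rw [← h3, inv_mul_cancel_left₀ hc]

private lemma Rel.unique (h01 : ∀ F, e0 F = 0 → e1 F = 0) {z : Ω} {c c' : K}
    (h : Rel e0 e1 z c) (h' : Rel e0 e1 z c') : c = c' := by
  obtain ⟨F, G, h1, h2, h3⟩ := h
  obtain ⟨F', G', h1', h2', h3'⟩ := h'
  have h4 : e0 (F * G' - F' * G) = 0 := by
    rw [map_sub, map_mul, map_mul, ← h2, ← h2']
    ring
  have h5 := h01 _ h4
  rw [map_sub, map_mul, map_mul, ← h3, ← h3'] at h5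
  have h6 : (c - c') * (e1 G * e1 G') = 0 := by linear_combination h5
  rcases mul_eq_zero.mp h6 with h7 | h7
  · exact sub_eq_zero.mp h7
  · exact absurd h7 (mul_ne_zero h1 h1')

private lemma rel_main (h01 : ∀ F, e0 F = 0 → e1 F = 0) :
    ∃ (R : Subring Ω) (h : R →+* K), (∀ F : A, ∃ hl : e0 F ∈ R, h ⟨e0 F, hl⟩ = e1 F) ∧
      ∀ (z : Ω) (hz : z ∈ R), h ⟨z, hz⟩ ≠ 0 → z⁻¹ ∈ R := by
  let R : Subring Ω :=
    { carrier := {z | ∃ c, Rel e0 e1 z c}
      mul_mem' := fun ⟨c, hc⟩ ⟨c', hc'⟩ => ⟨_, hc.mul hc'⟩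
      one_mem' := ⟨1, by have := Rel.of (e0 := e0) (e1 := e1) 1; rwa [map_one, map_one] at this⟩
      add_mem' := fun ⟨c, hc⟩ ⟨c', hc'⟩ => ⟨_, hc.add hc'⟩
      zero_mem' := ⟨0, by have := Rel.of (e0 := e0) (e1 := e1) 0; rwa [map_zero, map_zero] at this⟩
      neg_mem' := fun ⟨c, hc⟩ => ⟨_, hc.neg⟩ }
  have hR : ∀ z : R, ∃ c, Rel e0 e1 z.1 c := fun z => z.2
  choose h hh using hR
  have hu : ∀ (z : R) (c : K), Rel e0 e1 z.1 c → h z = c := fun z c hc => (hh z).unique h01 hc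
  let H : R →+* K :=
    { toFun := h
      map_one' := hu _ _ (by
        have := Rel.of (e0 := e0) (e1 := e1) 1
        rwa [map_one, map_one] at this)
      map_zero' := hu _ _ (by
        have := Rel.of (e0 := e0) (e1 := e1) 0
        rwa [map_zero, map_zero] at this)
      map_add' := fun z w => hu _ _ ((hh z).add (hh w))
      map_mul' := fun z w => hu _ _ ((hh z).mul (hh w)) }
  refine ⟨R, H, fun F => ⟨⟨_, Rel.of F⟩, hu _ _ (Rel.of F)⟩, fun z hz h0 => ?_⟩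
  exact ⟨_, (hh ⟨z, hz⟩).inv h01 h0⟩

end rel

theorem spec {L Ω K : Type u} [Field L] [Field Ω] [Field K] (f : L →+* Ω) (a b : L)
    (x y : Ω) (hx : ∀ g : L[X], g ≠ 0 → g.eval₂ f x ≠ 0)
    (he : y ^ 2 = x ^ 3 + f a * x + f b) (g : L →+* K) (x1 y1 : K)
    (h1 : y1 ^ 2 = x1 ^ 3 + g a * x1 + g b) :
    ∃ (R : Subring Ω) (h : R →+* K), (∀ l : L, ∃ hl : f l ∈ R, h ⟨f l, hl⟩ = g l) ∧
      (∃ hx' : x ∈ R, h ⟨x, hx'⟩ = x1) ∧ (∃ hy' : y ∈ R, h ⟨y, hy'⟩ = y1) ∧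
      ∀ (z : Ω) (hz : z ∈ R), h ⟨z, hz⟩ ≠ 0 → z⁻¹ ∈ R := by
  obtain ⟨R, h, hF, hinv⟩ := rel_main (e0 := eval₂RingHom (eval₂RingHom f x) y)
    (e1 := eval₂RingHom (eval₂RingHom g x1) y1)
    (fun F hF => poly_zero f a b x y hx he F hF g x1 y1 h1)
  have key : ∀ (z : Ω) (c : K) (F : L[X][X]), eval₂RingHom (eval₂RingHom f x) y F = z →
      eval₂RingHom (eval₂RingHom g x1) y1 F = c → ∃ hz : z ∈ R, h ⟨z, hz⟩ = c := by
    rintro z c F rfl rfl
    exact hF F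
  refine ⟨R, h, fun l => key _ _ (C (C l)) (by simp) (by simp),
    key _ _ (C X) (by simp) (by simp), key _ _ X (by simp) (by simp), hinv⟩

end Pool.Agent.Helper21.TO

end CX
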