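import Mathlib
import Pool.Agent.Helper9.NS
import Pool.Agent.Helper40.CX.H21TO.Defs
import Pool.Agent.Helper40.CX.H21TO.Defs3
import Pool.Agent.Helper40.CX.H21TO.Spec
import Pool.Agent.Helper40.CX.Good2

namespace CX

/-!
# Block TO-TwOf: the action of the Galois group in coordinates
Let `ι`, `x1 y1` (nonsingular point), `x1' y1'` be as in the definition of `Tw`. Take `R ⊆ Ω`, `h : R → K`
from `spec` (`f = algebraMap L Ω`, `g = ι`). Let `g_i = aeval x (p i) + aeval x (q i) * y = c ξ_i`.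
`σ (g_i) = σ (c) ξ_i`, so `σ (g_i) g_j = σ (g_j) g_i` in `Ω`.
`g_i ∈ R` and `h (g_i) = ev p q ι x1 y1 i` (polynomial expressions in `x`, `y` with coefficients in `L`:
`eval₂_eq_sum_range` / `Polynomial.induction_on`). `σ (g_i) = (p_i^τ) (σ x) + (q_i^τ) (σ x) σ y` where
`p^τ` is the polynomial with coefficients `τ (coefficients)` (`hτ`). In case (0): `σ x = x`, `σ y = y`, and
`x1' = x1`, `y1' = y1` (`mapPt ι 0 = 0`), so `σ (g_i) ∈ R`, `h (σ g_i) = ev p q (ι.comp τ) x1' y1' i`. In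
case (1): `x1 ≠ ι e`, so `h (x - e) ≠ 0`, `(x - e)⁻¹ ∈ R` and its image is `(x1 - ι e)⁻¹`; so
`λ = (y - f) / (x - e) ∈ R`, `h λ = (y1 - ι f) / (x1 - ι e)`, `σ x, σ y ∈ R` with images
`h λ ^ 2 - x1 - ι e = x1'` and `h λ (x1 - x1') - y1 = y1'` (`add_of_X_ne`, `slope_of_X_ne`, `addX`, `addY`,
`negAddY`, `negY` with `a₁ = a₂ = a₃ = 0`). Again `h (σ g_i) = ev p q (ι.comp τ) x1' y1' i`. Apply `h` to
the identity `g_i σ (g_j) = g_j σ (g_i)`.
`sat_of`: with `R`, `h` as above: `P (ξ) = 0` gives `P (g) = P (c ξ) = c ^ n P (ξ) = 0` (`aeval_smul'`),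
`0 = h (P (g)) = P (h (g_i)) = P (ev ι x1 y1)` (`MvPolynomial`: induction, or `aeval` and ring
homomorphisms; `h` is compatible with `k`: `algebraMap k Ω c = algebraMap L Ω (algebraMap k L c)`).
-/

set_option linter.unusedSectionVars false

namespace Pool.Agent.Helper21.TO

open VC VF Function Polynomial
open Pool.Agent.Helper51.EW (Wei WPt aff zeroPt)

universe u

variable {k : Type u} [Field k] {L Ω : Type u} [Field L] [Algebra k L]
  [Field Ω] [Algebra k Ω] [Algebra L Ω] [IsScalarTower k L Ω] {M : ℕ}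

/-- `z` specialises to `c`. -/
private def Sp97 {Ω K : Type u} [Field Ω] [Field K] (R : Subring Ω) (h : R →+* K) (z : Ω) (c : K) :
    Prop := ∃ hz : z ∈ R, h ⟨z, hz⟩ = c

section sp

variable {K : Type u} [Field K] {R : Subring Ω} {h : R →+* K} {z w : Ω} {c d : K}

private lemma Sp97.add (h1 : Sp97 R h z c) (h2 : Sp97 R h w d) : Sp97 R h (z + w) (c + d) := by
  obtain ⟨hz, rfl⟩ := h1
  obtain ⟨hw, rfl⟩ := h2
  exact ⟨R.add_mem hz hw, h.map_add ⟨z, hz⟩ ⟨w, hw⟩⟩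

private lemma Sp97.mul (h1 : Sp97 R h z c) (h2 : Sp97 R h w d) : Sp97 R h (z * w) (c * d) := by
  obtain ⟨hz, rfl⟩ := h1
  obtain ⟨hw, rfl⟩ := h2
  exact ⟨R.mul_mem hz hw, h.map_mul ⟨z, hz⟩ ⟨w, hw⟩⟩

private lemma Sp97.sub (h1 : Sp97 R h z c) (h2 : Sp97 R h w d) : Sp97 R h (z - w) (c - d) := by
  obtain ⟨hz, rfl⟩ := h1
  obtain ⟨hw, rfl⟩ := h2
  exact ⟨R.sub_mem hz hw, h.map_sub ⟨z, hz⟩ ⟨w, hw⟩⟩

private lemma Sp97.zero : Sp97 R h (0 : Ω) 0 := ⟨R.zero_mem, h.map_zero⟩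

private lemma Sp97.one : Sp97 R h (1 : Ω) 1 := ⟨R.one_mem, h.map_one⟩

private lemma Sp97.pow (h1 : Sp97 R h z c) (n : ℕ) : Sp97 R h (z ^ n) (c ^ n) := by
  obtain ⟨hz, rfl⟩ := h1
  exact ⟨R.pow_mem hz n, h.map_pow ⟨z, hz⟩ n⟩

private lemma Sp97.unique (h1 : Sp97 R h z c) (h2 : Sp97 R h z d) : c = d := by
  obtain ⟨hz, rfl⟩ := h1
  obtain ⟨hw, rfl⟩ := h2
  rfl

private lemma Sp97.div (hinv : ∀ (z : Ω) (hz : z ∈ R), h ⟨z, hz⟩ ≠ 0 → z⁻¹ ∈ R)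
    (h1 : Sp97 R h z c) (h2 : Sp97 R h w d) (hd : d ≠ 0) : Sp97 R h (z / w) (c / d) := by
  obtain ⟨hw, hwd⟩ := id h2
  have hw0 : w ≠ 0 := by
    rintro rfl
    exact hd (h2.unique Sp97.zero)
  have hi : w⁻¹ ∈ R := hinv w hw (by rw [hwd]; exact hd)
  have h3 : Sp97 R h (w⁻¹) (h ⟨w⁻¹, hi⟩) := ⟨hi, rfl⟩
  have h4 := h2.mul h3
  rw [mul_inv_cancel₀ hw0] at h4
  have h5 := h4.unique Sp97.one
  have h6 : h ⟨w⁻¹, hi⟩ = d⁻¹ := (eq_inv_of_mul_eq_one_right h5)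
  rw [h6] at h3
  rw [div_eq_mul_inv, div_eq_mul_inv]
  exact h1.mul h3

private lemma Sp97.poly {φ : L →+* Ω} {ψ : L →+* K} (h0 : ∀ l, Sp97 R h (φ l) (ψ l))
    (h1 : Sp97 R h z c) (P : L[X]) : Sp97 R h (P.eval₂ φ z) (P.eval₂ ψ c) := by
  induction P using Polynomial.induction_on' with
  | add p q hp hq => rw [eval₂_add, eval₂_add]; exact hp.add hq
  | monomial n a => rw [eval₂_monomial, eval₂_monomial]; exact (h0 a).mul (h1.pow n)

end sp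

private lemma spec97 (a b : L) (x y : Ω) (hx : Transcendental L x)
    (he : y ^ 2 = x ^ 3 + algebraMap L Ω a * x + algebraMap L Ω b) (K : Type u) [Field K]
    [Algebra k K] (ι : L →ₐ[k] K) (x1 y1 : K) (h1 : y1 ^ 2 = x1 ^ 3 + ι a * x1 + ι b) :
    ∃ (R : Subring Ω) (h : R →+* K), (∀ l : L, Sp97 R h (algebraMap L Ω l) (ι l)) ∧
      Sp97 R h x x1 ∧ Sp97 R h y y1 ∧ ∀ (z : Ω) (hz : z ∈ R), h ⟨z, hz⟩ ≠ 0 → z⁻¹ ∈ R :=
  spec (algebraMap L Ω) a b x y (fun g hg h0 => hg ((transcendental_iff.mp hx) g h0)) he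
    (ι : L →+* K) x1 y1 h1

private lemma sp_g97 {K : Type u} [Field K] [Algebra k K] {R : Subring Ω} {h : R →+* K}
    {x y : Ω} {x1 y1 : K} (ι : L →ₐ[k] K) (hl : ∀ l : L, Sp97 R h (algebraMap L Ω l) (ι l))
    (hx1 : Sp97 R h x x1) (hy1 : Sp97 R h y y1) (p q : Fin M → L[X]) (i : Fin M) :
    Sp97 R h (aeval x (p i) + aeval x (q i) * y) (ev p q ι x1 y1 i) :=
  (Sp97.poly (ψ := (ι : L →+* K)) hl hx1 (p i)).add
    ((Sp97.poly (ψ := (ι : L →+* K)) hl hx1 (q i)).mul hy1)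

private lemma sigma_poly97 (σ : Ω ≃ₐ[k] Ω) (τ : L ≃ₐ[k] L)
    (hτ : ∀ z, σ (algebraMap L Ω z) = algebraMap L Ω (τ z)) (x : Ω) (P : L[X]) :
    σ (aeval x P) = P.eval₂ ((algebraMap L Ω).comp (τ : L →+* L)) (σ x) := by
  induction P using Polynomial.induction_on' with
  | add p q hp hq => rw [map_add, map_add, eval₂_add, hp, hq]
  | monomial n a =>
    rw [aeval_monomial, eval₂_monomial, map_mul, map_pow, hτ]
    rfl

private lemma cross97 (p q : Fin M → L[X]) {x y : Ω} {ξ : Fin M → Ω} {c : Ω}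
    (hg : ∀ i, c * ξ i = aeval x (p i) + aeval x (q i) * y) (σ : Ω ≃ₐ[k] Ω) (τ : L ≃ₐ[k] L)
    (hτ : ∀ z, σ (algebraMap L Ω z) = algebraMap L Ω (τ z)) (hfix : ∀ i, σ (ξ i) = ξ i)
    {K : Type u} [Field K] [Algebra k K] {R : Subring Ω} {h : R →+* K} {x1 y1 x2 y2 : K}
    (ι : L →ₐ[k] K) (hl : ∀ l : L, Sp97 R h (algebraMap L Ω l) (ι l))
    (hx1 : Sp97 R h x x1) (hy1 : Sp97 R h y y1) (hx2 : Sp97 R h (σ x) x2)
    (hy2 : Sp97 R h (σ y) y2) (i j : Fin M) :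
    ev p q ι x1 y1 i * ev p q (ι.comp (τ : L →ₐ[k] L)) x2 y2 j =
      ev p q ι x1 y1 j * ev p q (ι.comp (τ : L →ₐ[k] L)) x2 y2 i := by
  have hs : ∀ i, Sp97 R h (σ (c * ξ i)) (ev p q (ι.comp (τ : L →ₐ[k] L)) x2 y2 i) := by
    intro i
    rw [hg i, map_add, map_mul, sigma_poly97 σ τ hτ, sigma_poly97 σ τ hτ]
    have hl' : ∀ l : L, Sp97 R h (((algebraMap L Ω).comp (τ : L →+* L)) l)
        (((ι.comp (τ : L →ₐ[k] L) : L →ₐ[k] K) : L →+* K) l) := fun l => hl (τ l)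
    exact (Sp97.poly hl' hx2 (p i)).add ((Sp97.poly hl' hx2 (q i)).mul hy2)
  have hg' : ∀ i, Sp97 R h (c * ξ i) (ev p q ι x1 y1 i) := by
    intro i
    rw [hg i]
    exact sp_g97 ι hl hx1 hy1 p q i
  have e : c * ξ i * σ (c * ξ j) = c * ξ j * σ (c * ξ i) := by
    rw [map_mul, map_mul, hfix, hfix]
    ring
  have h1 := (hg' i).mul (hs j)
  rw [e] at h1
  exact h1.unique ((hg' j).mul (hs i))

theorem tw_of_zero (p q : Fin M → L[X]) (a b : L) (x y : Ω) (hx : Transcendental L x)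
    (he : y ^ 2 = x ^ 3 + algebraMap L Ω a * x + algebraMap L Ω b) (ξ : Fin M → Ω) (c : Ω)
    (hg : ∀ i, c * ξ i = aeval x (p i) + aeval x (q i) * y) (σ : Ω ≃ₐ[k] Ω) (τ : L ≃ₐ[k] L)
    (hτ : ∀ z, σ (algebraMap L Ω z) = algebraMap L Ω (τ z)) (hfix : ∀ i, σ (ξ i) = ξ i)
    (h1 : σ x = x) (h2 : σ y = y) : Tw p q a b τ 0 := by
  intro K _ _ ι x1 y1 x1' y1' h h' hadd _ i j
  obtain ⟨R, hR, hl, hx1, hy1, hinv⟩ := spec97 a b x y hx he K ι x1 y1 (sw_nonsingular.mp h).1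
  have e : mapPt ι (0 : EPt a b) = 0 := rfl
  rw [e, add_zero] at hadd
  have hxy : x1 = x1' ∧ y1 = y1' := by
    injection hadd with ha hb
    exact ⟨ha, hb⟩
  obtain ⟨rfl, rfl⟩ := hxy
  exact cross97 p q hg σ τ hτ hfix ι hl hx1 hy1 (by rw [h1]; exact hx1) (by rw [h2]; exact hy1) i j

theorem tw_of_some (p q : Fin M → L[X]) (a b : L) (x y : Ω) (hx : Transcendental L x)
    (he : y ^ 2 = x ^ 3 + algebraMap L Ω a * x + algebraMap L Ω b) (ξ : Fin M → Ω) (c : Ω)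
    (hg : ∀ i, c * ξ i = aeval x (p i) + aeval x (q i) * y) (σ : Ω ≃ₐ[k] Ω) (τ : L ≃ₐ[k] L)
    (hτ : ∀ z, σ (algebraMap L Ω z) = algebraMap L Ω (τ z)) (hfix : ∀ i, σ (ξ i) = ξ i)
    (e f : L) (h : (sw a b).toAffine.Nonsingular e f)
    (h1 : σ x = ((y - algebraMap L Ω f) / (x - algebraMap L Ω e)) ^ 2 - x - algebraMap L Ω e)
    (h2 : σ y = (y - algebraMap L Ω f) / (x - algebraMap L Ω e) * (x - σ x) - y) :
    Tw p q a b τ (EPt.mk e f h) := by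
  intro K _ _ ι x1 y1 x1' y1' hn hn' hadd hne i j
  obtain ⟨R, hR, hl, hx1, hy1, hinv⟩ := spec97 a b x y hx he K ι x1 y1 (sw_nonsingular.mp hn).1
  have hxe : x1 ≠ ι e := hne e f h rfl
  have e1 : mapPt ι (EPt.mk e f h) = EPt.mk (ι e) (ι f) (nonsingular_map ι h) := rfl
  rw [e1] at hadd
  have e2 := WeierstrassCurve.Affine.Point.add_of_X_ne (h₁ := hn)
    (h₂ := nonsingular_map ι h) hxe
  rw [e2] at hadd
  have hxy : ((y1 - ι f) / (x1 - ι e)) ^ 2 - x1 - ι e = x1' ∧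
      (y1 - ι f) / (x1 - ι e) * (x1 - x1') - y1 = y1' := by
    injection hadd with ha hb
    rw [WeierstrassCurve.Affine.slope_of_X_ne hxe] at ha hb
    have ha' : ((y1 - ι f) / (x1 - ι e)) ^ 2 - x1 - ι e = x1' := by
      rw [← ha]
      simp only [WeierstrassCurve.Affine.addX]
      ring
    refine ⟨ha', ?_⟩
    rw [← ha', ← hb]
    simp only [WeierstrassCurve.Affine.addY, WeierstrassCurve.Affine.negY,
      WeierstrassCurve.Affine.negAddY, WeierstrassCurve.Affine.addX]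
    ring
  obtain ⟨ha, hb⟩ := hxy
  have hlam : Sp97 R hR ((y - algebraMap L Ω f) / (x - algebraMap L Ω e))
      ((y1 - ι f) / (x1 - ι e)) :=
    Sp97.div hinv (hy1.sub (hl f)) (hx1.sub (hl e)) (sub_ne_zero.mpr hxe)
  have hx2 : Sp97 R hR (σ x) x1' := by
    rw [h1, ← ha]
    exact ((hlam.pow 2).sub hx1).sub (hl e)
  have hy2 : Sp97 R hR (σ y) y1' := by
    rw [h2, ← hb]
    exact (hlam.mul (hx1.sub hx2)).sub hy1
  exact cross97 p q hg σ τ hτ hfix ι hl hx1 hy1 hx2 hy2 i j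

theorem sat_of (p q : Fin M → L[X]) (a b : L) (x y : Ω) (hx : Transcendental L x)
    (he : y ^ 2 = x ^ 3 + algebraMap L Ω a * x + algebraMap L Ω b) (ξ : Fin M → Ω) (c : Ω)
    (hg : ∀ i, c * ξ i = aeval x (p i) + aeval x (q i) * y)
    (K : Type u) [Field K] [Algebra k K] (ι : L →ₐ[k] K) (x1 y1 : K)
    (h1 : y1 ^ 2 = x1 ^ 3 + ι a * x1 + ι b) : Sat (van k ξ) (ev p q ι x1 y1) := by
  obtain ⟨R, hR, hl, hx1, hy1, hinv⟩ := spec97 a b x y hx he K ι x1 y1 h1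
  intro P hP n hn
  have hg' : ∀ i, Sp97 R hR (c * ξ i) (ev p q ι x1 y1 i) := by
    intro i
    rw [hg i]
    exact sp_g97 ι hl hx1 hy1 p q i
  have key : ∀ P : MvPolynomial (Fin M) k, Sp97 R hR
      (MvPolynomial.aeval (fun i => c * ξ i) P) (MvPolynomial.aeval (ev p q ι x1 y1) P) := by
    intro P
    induction P using MvPolynomial.induction_on with
    | C r =>
      rw [MvPolynomial.algHom_C, MvPolynomial.algHom_C]
      have h2 := hl (algebraMap k L r)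
      rw [← IsScalarTower.algebraMap_apply k L Ω, AlgHom.commutes] at h2
      exact h2
    | add p q hp hq => rw [map_add, map_add]; exact hp.add hq
    | mul_X p i hp =>
      rw [map_mul, map_mul, MvPolynomial.aeval_X, MvPolynomial.aeval_X]
      exact hp.mul (hg' i)
  have h2 := key P
  have hP' : MvPolynomial.aeval ξ P = 0 := hP
  rw [aeval_smul' hn c ξ, hP', mul_zero] at h2
  exact h2.unique Sp97.zero

end Pool.Agent.Helper21.TO

end CX
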