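import Mathlib
import Pool.Agent.Helper9.NS
import Pool.Agent.Helper40.CX.H21TO.Defs3
import Pool.Agent.Helper40.CX.H21TO.Num
import Pool.Agent.Helper40.CX.H21TO.TwOf
import Pool.Agent.Helper40.CX.H21TO.ResL
import Pool.Agent.Helper40.CX.H21TO.LinkEx
import Pool.Agent.Helper40.CX.H21TO.Transfer
import Pool.Agent.Helper40.CX.Good2

namespace CX

/-!
# TORS: the final assembly
-/

set_option linter.unusedSectionVars false

namespace Pool.Agent.Helper21.TO

open VC VF Function Polynomial
open Pool.Agent.Helper51.EW (Wei WPt aff zeroPt)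

universe u

variable {k : Type u} [Field k] [IsAlgClosed k] [CX.Good k] {W : Wei k}

/-- A nonzero binary form does not vanish at `(1, t)`, `t` transcendental. -/
lemma form_ne_zero {n : ℕ} {F : MvPolynomial (Fin 2) k} (hF : F.IsHomogeneous n) (h0 : F ≠ 0)
    {L : Type u} [Field L] [Algebra k L] {t : L} (ht : Transcendental k t) :
    MvPolynomial.aeval ![1, t] F ≠ 0 := by
  intro h
  have h1 : MvPolynomial.aeval ![1, (Polynomial.X : k[X])] F = 0 := by
    apply transcendental_iff.mp ht
    have e := MvPolynomial.comp_aeval_apply (R := k) (![1, (Polynomial.X : k[X])] : Fin 2 → k[X])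
      (Polynomial.aeval t : k[X] →ₐ[k] L) F
    have e2 : (fun i => (Polynomial.aeval t : k[X] →ₐ[k] L)
        ((![1, (Polynomial.X : k[X])] : Fin 2 → k[X]) i)) = ![1, t] := by
      funext i
      fin_cases i
      · simp
      · simp
    rw [e2, h] at e
    exact e
  have h2 : ∀ a : k, MvPolynomial.aeval ![1, a] F = 0 := by
    intro a
    have e := MvPolynomial.comp_aeval_apply (R := k) (![1, (Polynomial.X : k[X])] : Fin 2 → k[X])
      (Polynomial.aeval a : k[X] →ₐ[k] k) F
    have e2 : (fun i => (Polynomial.aeval a : k[X] →ₐ[k] k)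
        ((![1, (Polynomial.X : k[X])] : Fin 2 → k[X]) i)) = ![1, a] := by
      funext i
      fin_cases i
      · simp
      · simp
    rw [e2, h1, map_zero] at e
    exact e.symm
  have h3 : MvPolynomial.X 0 * F = 0 := by
    apply MvPolynomial.funext
    intro x
    rw [map_mul, MvPolynomial.eval_X, map_zero]
    by_cases hx : x 0 = 0
    · rw [hx, zero_mul]
    · have h4 := h2 (x 1 / x 0)
      have h5 := Helper51.EW.aeval_smul hF (x 0) (![1, x 1 / x 0] : Fin 2 → k)
      rw [h4, mul_zero] at h5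
      have e2 : (fun i => x 0 * (![1, x 1 / x 0] : Fin 2 → k) i) = x := by
        funext i
        fin_cases i
        · simp
        · simp only [Fin.mk_one, Matrix.cons_val_one, Matrix.cons_val_zero]
          field_simp
      rw [e2] at h5
      rw [show MvPolynomial.eval x F = MvPolynomial.aeval x F from rfl, h5, mul_zero]
  rcases mul_eq_zero.mp h3 with h4 | h4
  · exact MvPolynomial.X_ne_zero _ h4
  · exact h0 h4

lemma disc_ne_zero (hΔ : 4 * W.A ^ 3 + 27 * W.B ^ 2 ≠ 0) {L : Type u} [Field L] [Algebra k L]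
    {t : L} (ht : Transcendental k t) : 4 * cA W t ^ 3 + 27 * cB W t ^ 2 ≠ 0 := by
  have hh : (4 * W.A ^ 3 + 27 * W.B ^ 2).IsHomogeneous (12 * W.N) := by
    have h4 : (4 : MvPolynomial (Fin 2) k) = MvPolynomial.C 4 := (map_ofNat MvPolynomial.C 4).symm
    have h27 : (27 : MvPolynomial (Fin 2) k) = MvPolynomial.C 27 :=
      (map_ofNat MvPolynomial.C 27).symm
    rw [h4, h27]
    have e1 := (MvPolynomial.isHomogeneous_C (Fin 2) (4 : k)).mul (W.hA.pow 3)
    have e2 := (MvPolynomial.isHomogeneous_C (Fin 2) (27 : k)).mul (W.hB.pow 2)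
    have f1 : 0 + 4 * W.N * 3 = 12 * W.N := by ring
    have f2 : 0 + 6 * W.N * 2 = 12 * W.N := by ring
    rw [f1] at e1
    rw [f2] at e2
    exact e1.add e2
  have := form_ne_zero hh hΔ ht
  rw [map_add, map_mul, map_mul, map_pow, map_pow, map_ofNat, map_ofNat] at this
  exact this

lemma nonsingular_of_disc {F : Type*} [Field F] [CX.Good F] {a b e f : F}
    (h : 4 * a ^ 3 + 27 * b ^ 2 ≠ 0)
    (h1 : f ^ 2 = e ^ 3 + a * e + b) : (sw a b).toAffine.Nonsingular e f := by
  rw [sw_nonsingular]
  refine ⟨h1, ?_⟩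
  by_contra hcon
  push Not at hcon
  obtain ⟨h2, h3⟩ := hcon
  apply h
  have h4 : f = 0 := by
    have : 2 * f = 0 := by linear_combination h3
    exact (mul_eq_zero.mp this).resolve_left two_ne_zero
  have h6 : a = -3 * e ^ 2 := by linear_combination -h2
  have h7 : b = 2 * e ^ 3 := by
    rw [h4, h6] at h1
    linear_combination -h1
  rw [h6, h7]
  ring

variable {L Ω : Type u} [Field L] [Algebra k L] [Field Ω] [Algebra k Ω] [Algebra L Ω]
  [IsScalarTower k L Ω]

/-- Voisin's property for an arbitrary projective model of a genus one fibration over the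
projective line, given the property for the Weierstrass model of the Jacobian fibration. -/
theorem voisin_torsor (hΔ : 4 * W.A ^ 3 + 27 * W.B ^ 2 ≠ 0) (hmin : Minimal W)
    (T : Torsor W L Ω) {M : ℕ} (ξ : Fin M → Ω) (hξ : ξ ≠ 0)
    (hfix : ∀ σ ∈ T.G, ∀ i, σ (ξ i) = ξ i) {n : ℕ} (hJ : Voisin W.surface n) :
    Voisin (proj k (van k ξ)) n := by
  classical
  have hL0 : CX.Good L := CX.Good.ext k
  have hdisc := disc_ne_zero hΔ T.ht
  obtain ⟨c, p, q, hc, hg⟩ := exists_num _ _ T.x T.y T.eqn T.gen ξ
  obtain ⟨H, hfin, hH1, hH2⟩ := exists_res_subgroup T.G T.finG T.stable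
  have hinj : Function.Injective (algebraMap L Ω) := (algebraMap L Ω).injective
  have hne : ∃ i, p i ≠ 0 ∨ q i ≠ 0 := by
    by_contra hcon
    push Not at hcon
    obtain ⟨i, hi⟩ := Function.ne_iff.mp hξ
    have h1 := hg i
    rw [(hcon i).1, (hcon i).2, map_zero, zero_mul, zero_add] at h1
    exact hi ((mul_eq_zero.mp h1).resolve_left hc)
  let D : Dat W L :=
    { hL := T.hL
      t := T.t
      ht := T.ht
      hΔ := hdisc
      H := H
      finH := hfin
      fixt := by
        intro τ hτ
        obtain ⟨σ, hσ, h⟩ := hH1 τ hτ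
        apply hinj
        rw [← h, T.fixt σ hσ]
      fixed := by
        intro z hz
        apply T.fixed
        intro σ hσ
        obtain ⟨τ, hτ, h⟩ := hH2 σ hσ
        rw [h, hz τ hτ]
      r := T.r
      hr := T.hr
      s := T.s
      hs := T.hs
      M := M
      I := van k ξ
      p := p
      q := q
      ne := hne
      sat := by
        intro K _ _ ι x y h
        exact sat_of p q _ _ T.x T.y T.hx T.eqn ξ c hg K ι x y h
      tw := by
        intro τ hτ
        obtain ⟨σ, hσ, h⟩ := hH1 τ hτ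
        rcases T.translation σ hσ with ⟨h1, h2⟩ | ⟨e, f, h0, h1, h2⟩
        · exact ⟨0, tw_of_zero p q _ _ T.x T.y T.hx T.eqn ξ c hg σ τ h (hfix σ hσ) h1 h2⟩
        · exact ⟨_, tw_of_some p q _ _ T.x T.y T.hx T.eqn ξ c hg σ τ h (hfix σ hσ) e f
            (nonsingular_of_disc hdisc h0) h1 h2⟩ }
  have hev : ev p q (IsScalarTower.toAlgHom k L Ω) T.x T.y = fun i => c * ξ i := by
    funext i
    rw [hg i]
    rfl
  have hlink : Link W.surface D.S (cycJ D) := by
    refine link hΔ hmin D (IsScalarTower.toAlgHom k L Ω) T.x T.y T.eqn ?_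
    intro P m hP h
    change MvPolynomial.aeval (ev p q (IsScalarTower.toAlgHom k L Ω) T.x T.y) P = 0 at h
    rw [hev, aeval_smul' hP] at h
    exact (mul_eq_zero.mp h).resolve_left (pow_ne_zero _ hc)
  exact transfer hlink hJ

end Pool.Agent.Helper21.TO

end CX
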