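import Mathlib
import Pool.Agent.Helper9.NS
import Pool.Agent.Helper40.CX.H21TO.Defs
import Pool.Agent.Helper40.CX.Good2

namespace CX

/-!
# Block TO-Cs1: a curve through a point not contained in a hypersurface
By Noether normalisation (`exists_finite_inj_algHom_of_fg`, Mathlib/RingTheory/
NoetherNormalization.lean) there is a finite injective `k`-algebra homomorphism
`j : A = MvPolynomial (Fin d) k → R`. Make `R` an `A`-algebra (`j.toRingHom.toAlgebra`). `A` is
integrally closed (a UFD), so `Algebra.HasGoingDown A R` is an instance (Mathlib/RingTheory/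
IntegralClosure/GoingDown.lean). Let `z0 i = χ0 (j (X i))`.
There is `N ≠ 0` in `A` with `j N ∈ span {g}`: the constant coefficient of the minimal polynomial
of `g` over `A` or over `Frac A` (or: a monic polynomial over `A` of minimal degree vanishing at
`g`; its constant coefficient is not zero as `R` is a domain and `g ≠ 0`).
If `N (z0) ≠ 0`: `g ∉ ker χ0`, take `p = ker χ0`.
Otherwise choose `z1 : Fin d → k` with `eval z1 N ≠ 0` and let
`λ : A → k[X]`, `X i ↦ C (z0 i) + (C (z1 i - z0 i)) * X`; let `q = ker λ`, a prime. `N ∉ q`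
(evaluate `λ N` at `1`). `q ≤ ker (eval z0) =`
the preimage of `ker χ0` (evaluate at `0`). By going down (`Ideal.exists_ideal_le_liesOver_of_le`)
there is a prime `p ≤ ker χ0` of `R` lying over `q`. `g ∉ p`, otherwise `j N ∈ p`, `N ∈ q`.
`R ⧸ p` is finite over `A ⧸ q ≃ k[X]`, and `k[X] → R ⧸ p` is injective. So `Frac (R ⧸ p)` is a
finite extension of `k (T)`, `T` the image of the variable: `IsFunctionField k (Frac (R ⧸ p))`.
-/

set_option linter.unusedSectionVars false

namespace Pool.Agent.Helper21.TO

open VC VF Function Polynomial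
open Pool.Agent.Helper51.EW (Wei WPt aff zeroPt)

universe u

variable {k : Type u} [Field k] [IsAlgClosed k] [CX.Good k]

/-- the line through `z0` and `z1` -/
private noncomputable def lin {d : ℕ} (z0 z1 : Fin d → k) :
    MvPolynomial (Fin d) k →ₐ[k] k[X] :=
  MvPolynomial.aeval fun i => C (z0 i) + C (z1 i - z0 i) * X

private lemma eval_lin {d : ℕ} (z0 z1 : Fin d → k) (c : k) (f : MvPolynomial (Fin d) k) :
    (lin z0 z1 f).eval c = MvPolynomial.eval (fun i => z0 i + (z1 i - z0 i) * c) f := by
  have h : ((Polynomial.evalRingHom c).comp (lin z0 z1 : MvPolynomial (Fin d) k →+* k[X])) =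
      MvPolynomial.eval (fun i => z0 i + (z1 i - z0 i) * c) := by
    apply MvPolynomial.ringHom_ext
    · intro r
      simp [lin]
    · intro i
      simp [lin]
  exact congrArg (fun h => h f) h

/-- the function field statement -/
private lemma ff {d : ℕ} {K : Type u} [Field K] [Algebra k K] {R : Type u} [CommRing R]
    [Algebra k R] [Algebra.FiniteType k R] (j : MvPolynomial (Fin d) k →ₐ[k] R)
    (hint : ∀ x : R, ∃ f : (MvPolynomial (Fin d) k)[X], f.Monic ∧ f.eval₂ (j : _ →+* R) x = 0)
    (π : R →ₐ[k] K) (hπ : ∀ y : K, ∃ a b : R, π b ≠ 0 ∧ y = π a / π b)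
    (z0 z1 : Fin d → k) {i0 : Fin d} (hi : z1 i0 ≠ z0 i0)
    (hker : ∀ f : MvPolynomial (Fin d) k, lin z0 z1 f = 0 ↔ π (j f) = 0) :
    VC.IsFunctionField k K := by
  set t : K := π (j (MvPolynomial.X i0)) with ht
  refine ⟨t, ?_, ?_⟩
  · -- transcendental
    rw [transcendental_iff]
    intro f hf
    have h1 : π (j (Polynomial.aeval (MvPolynomial.X i0 : MvPolynomial (Fin d) k) f)) = 0 := by
      rw [← Polynomial.aeval_algHom_apply, ← Polynomial.aeval_algHom_apply]
      exact hf
    rw [← hker, ← Polynomial.aeval_algHom_apply] at h1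
    have h2 : lin z0 z1 (MvPolynomial.X i0) = C (z1 i0 - z0 i0) * X + C (z0 i0) := by
      simp [lin, add_comm]
    rw [h2] at h1
    have hne : z1 i0 - z0 i0 ≠ 0 := sub_ne_zero.mpr hi
    have h3 : (Polynomial.aeval (C (z1 i0 - z0 i0) * X + C (z0 i0) : k[X])) f =
        f.comp (C (z1 i0 - z0 i0) * X + C (z0 i0)) := by
      rw [Polynomial.comp, Polynomial.aeval_def]
      rfl
    rw [h3, Polynomial.comp_eq_zero_iff] at h1
    rcases h1 with h1 | ⟨-, h1⟩
    · exact h1
    · exfalso
      have h4 := congrArg (fun q : k[X] => q.coeff 1) h1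
      simp at h4
      exact hne (by simpa using h4)
  · -- finite
    set L := IntermediateField.adjoin k {t} with hL
    have htL : t ∈ L := IntermediateField.mem_adjoin_simple_self k t
    have hne : z1 i0 - z0 i0 ≠ 0 := sub_ne_zero.mpr hi
    -- the images of the variables
    have hX : ∀ i, π (j (MvPolynomial.X i)) ∈ L := by
      intro i
      have h1 : lin z0 z1 (MvPolynomial.X i - (MvPolynomial.C (z0 i) +
          MvPolynomial.C ((z1 i - z0 i) * (z1 i0 - z0 i0)⁻¹) *
            (MvPolynomial.X i0 - MvPolynomial.C (z0 i0)))) = 0 := by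
        simp only [lin, map_sub, map_add, map_mul, MvPolynomial.aeval_X, MvPolynomial.aeval_C,
          Polynomial.algebraMap_eq]
        have h2 : (C ((z1 i - z0 i) * (z1 i0 - z0 i0)⁻¹) : k[X]) *
            C (z1 i0 - z0 i0) = C (z1 i - z0 i) := by
          rw [← C_mul, mul_assoc, inv_mul_cancel₀ hne, mul_one]
        simp only [C_mul, C_sub] at h2 ⊢
        linear_combination (-X : k[X]) * h2
      rw [hker] at h1
      simp only [map_sub, map_add, map_mul] at h1
      have h3 : ∀ c : k, π (j (MvPolynomial.C c)) = algebraMap k K c := by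
        intro c
        have : (MvPolynomial.C c : MvPolynomial (Fin d) k) = algebraMap k _ c := rfl
        rw [this, AlgHom.commutes, AlgHom.commutes]
      have h4 : π (j (MvPolynomial.X i)) = π (j (MvPolynomial.C (z0 i))) +
          π (j (MvPolynomial.C ((z1 i - z0 i) * (z1 i0 - z0 i0)⁻¹))) *
            (t - π (j (MvPolynomial.C (z0 i0)))) := by
        simp only [map_mul]
        simp only [map_sub] at h1 ⊢
        linear_combination h1
      rw [h4, h3, h3, h3]
      exact L.add_mem (L.algebraMap_mem _)
        (L.mul_mem (L.algebraMap_mem _) (L.sub_mem htL (L.algebraMap_mem _)))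
    -- the ring homomorphism
    let φ : MvPolynomial (Fin d) k →ₐ[k] L := MvPolynomial.aeval fun i => ⟨_, hX i⟩
    have hφ : ∀ f, algebraMap L K (φ f) = π (j f) := by
      intro f
      have : (L.val.comp φ) = π.comp j := by
        apply MvPolynomial.algHom_ext
        intro i
        simp [φ]
      exact congrArg (fun h => h f) this
    have hI : ∀ x : R, IsIntegral L (π x) := by
      intro x
      obtain ⟨f, hf, hfx⟩ := hint x
      refine ⟨f.map (φ : _ →+* L), hf.map _, ?_⟩
      rw [Polynomial.eval₂_map]
      have : (algebraMap L K).comp (φ : MvPolynomial (Fin d) k →+* L) =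
          (π : R →+* K).comp (j : MvPolynomial (Fin d) k →+* R) := by
        exact RingHom.ext fun f => hφ f
      rw [this]
      have h5 := Polynomial.hom_eval₂ f (j : MvPolynomial (Fin d) k →+* R) (π : R →+* K) x
      rw [hfx, map_zero] at h5
      exact h5.symm
    -- generators
    obtain ⟨S, hS⟩ := ‹Algebra.FiniteType k R›.out
    have hfd : FiniteDimensional L (IntermediateField.adjoin L ((S.image π : Finset K) : Set K)) :=
      IntermediateField.finiteDimensional_adjoin (by
        intro x hx
        rw [Finset.coe_image] at hx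
        obtain ⟨y, -, rfl⟩ := hx
        exact hI y)
    have htop : IntermediateField.adjoin L ((S.image π : Finset K) : Set K) = ⊤ := by
      rw [eq_top_iff]
      intro y _
      set M := IntermediateField.adjoin L ((S.image π : Finset K) : Set K) with hM
      have hr : ∀ x : R, π x ∈ M := by
        intro x
        have hx : x ∈ Algebra.adjoin k (S : Set R) := by rw [hS]; trivial
        induction hx using Algebra.adjoin_induction with
        | mem x hx =>
          apply IntermediateField.subset_adjoin
          rw [Finset.coe_image]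
          exact ⟨x, hx, rfl⟩
        | algebraMap c =>
          rw [AlgHom.commutes, IsScalarTower.algebraMap_apply k L K]
          exact M.algebraMap_mem _
        | add x y _ _ h1 h2 => rw [map_add]; exact M.add_mem h1 h2
        | mul x y _ _ h1 h2 => rw [map_mul]; exact M.mul_mem h1 h2
      obtain ⟨a, b, -, rfl⟩ := hπ y
      exact M.div_mem (hr a) (hr b)
    rw [htop] at hfd
    exact Module.Finite.equiv (IntermediateField.topEquiv (F := L) (E := K)).toLinearEquiv

theorem cs1 (R : Type u) [CommRing R] [IsDomain R] [Algebra k R] [Algebra.FiniteType k R]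
    (χ0 : R →ₐ[k] k) (g : R) (hg : g ≠ 0) :
    ∃ (p : Ideal R) (_ : p.IsPrime), p ≤ RingHom.ker (χ0 : R →+* k) ∧ g ∉ p ∧
      (p = RingHom.ker (χ0 : R →+* k) ∨ IsFunctionField k (FractionRing (R ⧸ p))) := by
  classical
  obtain ⟨d, j, hj, hfin⟩ := exists_finite_inj_algHom_of_fg k R
  let _ : Algebra (MvPolynomial (Fin d) k) R := j.toRingHom.toAlgebra
  have hmap : ∀ a, algebraMap (MvPolynomial (Fin d) k) R a = j a := fun _ => rfl
  have : Module.Finite (MvPolynomial (Fin d) k) R := hfin
  have hint : Algebra.IsIntegral (MvPolynomial (Fin d) k) R := Algebra.IsIntegral.of_finite _ _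
  have : FaithfulSMul (MvPolynomial (Fin d) k) R :=
    (faithfulSMul_iff_algebraMap_injective _ _).mpr hj
  have hdom : IsDomain (MvPolynomial (Fin d) k) := inferInstance
  obtain ⟨N, hN, hdvd⟩ := IsAlgebraic.exists_nonzero_dvd
    ((hint.isIntegral g).isAlgebraic) (mem_nonZeroDivisors_of_ne_zero hg)
  rw [hmap] at hdvd
  obtain ⟨h, hh⟩ := hdvd
  set z0 : Fin d → k := fun i => χ0 (j (MvPolynomial.X i)) with hz0
  have hχ : ∀ f, χ0 (j f) = MvPolynomial.eval z0 f := by
    intro f
    have : (χ0.comp j) = MvPolynomial.aeval z0 := by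
      apply MvPolynomial.algHom_ext
      intro i
      simp [hz0]
    have h2 := congrArg (fun h => h f) this
    simp only [AlgHom.comp_apply] at h2
    rw [h2]
    exact congrArg (fun h => h f) (MvPolynomial.coe_aeval_eq_eval z0)
  have hprime : (RingHom.ker (χ0 : R →+* k)).IsPrime := RingHom.ker_isPrime _
  by_cases h0 : MvPolynomial.eval z0 N ≠ 0
  · refine ⟨RingHom.ker (χ0 : R →+* k), hprime, le_refl _, ?_, Or.inl rfl⟩
    intro hgk
    apply h0
    rw [← hχ, hh, map_mul]
    have : χ0 g = 0 := hgk
    rw [this, zero_mul]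
  · push Not at h0
    obtain ⟨z1, hz1⟩ : ∃ z1 : Fin d → k, MvPolynomial.eval z1 N ≠ 0 := by
      by_contra hcon
      push Not at hcon
      exact hN (MvPolynomial.funext fun x => by rw [hcon x, map_zero])
    obtain ⟨i0, hi0⟩ : ∃ i0, z1 i0 ≠ z0 i0 := by
      by_contra hcon
      push Not at hcon
      exact hz1 (by rw [funext hcon]; exact h0)
    set q : Ideal (MvPolynomial (Fin d) k) :=
      RingHom.ker (lin z0 z1 : MvPolynomial (Fin d) k →+* k[X]) with hq
    have hqp : q.IsPrime := RingHom.ker_isPrime _
    have hqle : q ≤ (RingHom.ker (χ0 : R →+* k)).under (MvPolynomial (Fin d) k) := by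
      intro f hf
      have h1 : lin z0 z1 f = 0 := hf
      show χ0 (j f) = 0
      rw [hχ]
      have h2 := eval_lin z0 z1 0 f
      rw [h1] at h2
      simpa using h2.symm
    have hup : ((RingHom.ker (χ0 : R →+* k)).under (MvPolynomial (Fin d) k)).IsPrime :=
      Ideal.IsPrime.under _ _
    obtain ⟨P, hPle, hPp, hPo⟩ := Ideal.exists_ideal_le_liesOver_of_le
      (RingHom.ker (χ0 : R →+* k)) hqle
    have hover : ∀ f, f ∈ q ↔ j f ∈ P := by
      intro f
      have h1 := hPo.over
      rw [h1]
      rfl
    refine ⟨P, hPp, hPle, ?_, Or.inr ?_⟩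
    · intro hgP
      have h1 : j N ∈ P := by rw [hh]; exact P.mul_mem_right _ hgP
      rw [← hover] at h1
      have h2 : lin z0 z1 N = 0 := h1
      have h3 := eval_lin z0 z1 1 N
      rw [h2] at h3
      apply hz1
      simpa using h3.symm
    · have := hPp
      have : IsDomain (R ⧸ P) := Ideal.Quotient.isDomain P
      let π : R →ₐ[k] FractionRing (R ⧸ P) :=
        (IsScalarTower.toAlgHom k (R ⧸ P) (FractionRing (R ⧸ P))).comp (Ideal.Quotient.mkₐ k P)
      have hπ0 : ∀ x, π x = 0 ↔ x ∈ P := by
        intro x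
        show algebraMap (R ⧸ P) (FractionRing (R ⧸ P)) (Ideal.Quotient.mk P x) = 0 ↔ x ∈ P
        rw [map_eq_zero_iff _ (IsFractionRing.injective (R ⧸ P) (FractionRing (R ⧸ P))),
          Ideal.Quotient.eq_zero_iff_mem]
      refine ff j ?_ π ?_ z0 z1 hi0 ?_
      · intro x
        exact hint.isIntegral x
      · intro y
        obtain ⟨a, b, hb, hab⟩ := IsFractionRing.div_surjective (A := R ⧸ P) y
        obtain ⟨a, rfl⟩ := Ideal.Quotient.mk_surjective a
        obtain ⟨b, rfl⟩ := Ideal.Quotient.mk_surjective b
        refine ⟨a, b, ?_, hab.symm⟩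
        rw [Ne, hπ0, ← Ideal.Quotient.eq_zero_iff_mem]
        exact nonZeroDivisors.ne_zero hb
      · intro f
        rw [hπ0, ← hover]
        rfl

end Pool.Agent.Helper21.TO

end CX
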