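import Mathlib
import Pool.Agent.Helper9.NS
import Pool.Agent.Helper40.CX.H21TO.Defs
import Pool.Agent.Helper40.CX.Good2

namespace CX

/-!
# Block TO-Cs3: a point of the fibre with coordinates in a finite extension
Let `F = Frac (R ⧸ p)`, an `R`-algebra, and `A = F ⊗_R R'`, an `F`-algebra of finite type. `A` is not
zero: the homomorphisms `R' → R' ⧸ P → Frac (R' ⧸ P)` and `F → Frac (R' ⧸ P)` (induced by the
injective homomorphism `R ⧸ p → R' ⧸ P`) agree on `R` and give a homomorphism from `A` to a field
(`Algebra.TensorProduct.lift`). Let `m` be a maximal ideal of `A` and `K = A ⧸ m`, a field, of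
finite type over `F`, hence finite over `F` (`finite_of_finite_type_of_isJacobsonRing F K`,
Mathlib/RingTheory/Jacobson/Ring.lean). `f` is `R' → A → K`.
-/

set_option linter.unusedSectionVars false

namespace Pool.Agent.Helper21.TO

open VC VF Function Polynomial
open Pool.Agent.Helper51.EW (Wei WPt aff zeroPt)

universe u

open scoped TensorProduct

theorem cs3 {R R' : Type u} [CommRing R] [CommRing R'] [Algebra R R'] [Algebra.FiniteType R R']
    (p : Ideal R) [p.IsPrime] (P : Ideal R') [P.IsPrime]
    (hP : P.comap (algebraMap R R') = p) :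
    ∃ (K : Type u) (_ : Field K) (_ : Algebra (FractionRing (R ⧸ p)) K)
      (_ : FiniteDimensional (FractionRing (R ⧸ p)) K) (f : R' →+* K),
      ∀ r : R, f (algebraMap R R' r) = algebraMap (FractionRing (R ⧸ p)) K
        (algebraMap (R ⧸ p) (FractionRing (R ⧸ p)) (Ideal.Quotient.mk p r)) := by
  have hnt : Nontrivial (FractionRing (R ⧸ p) ⊗[R] R') := by
    let L := FractionRing (R' ⧸ P)
    let g : R' →+* L := (algebraMap (R' ⧸ P) L).comp (Ideal.Quotient.mk P)
    have hg : ∀ r : R, g (algebraMap R R' r) = 0 → r ∈ p := by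
      intro r hr
      rw [← hP, Ideal.mem_comap, ← Ideal.Quotient.eq_zero_iff_mem]
      exact (IsFractionRing.injective (R' ⧸ P) L) (by rw [map_zero]; exact hr)
    have hg' : ∀ r ∈ p, g (algebraMap R R' r) = 0 := by
      intro r hr
      rw [← hP, Ideal.mem_comap, ← Ideal.Quotient.eq_zero_iff_mem] at hr
      change algebraMap (R' ⧸ P) L (Ideal.Quotient.mk P (algebraMap R R' r)) = 0
      rw [hr, map_zero]
    let h : R ⧸ p →+* L := Ideal.Quotient.lift p (g.comp (algebraMap R R')) hg'
    have hh : ∀ r, h (Ideal.Quotient.mk p r) = g (algebraMap R R' r) := fun r => rfl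
    have hinj : Injective h := by
      rw [injective_iff_map_eq_zero]
      intro x hx
      obtain ⟨r, rfl⟩ := Ideal.Quotient.mk_surjective x
      rw [hh] at hx
      exact Ideal.Quotient.eq_zero_iff_mem.mpr (hg r hx)
    let j : FractionRing (R ⧸ p) →+* L := IsFractionRing.lift hinj
    have hj : ∀ x, j (algebraMap (R ⧸ p) _ x) = h x := fun x => IsFractionRing.lift_algebraMap _ _
    let _ : Algebra R L := (g.comp (algebraMap R R')).toAlgebra
    let j' : FractionRing (R ⧸ p) →ₐ[R] L :=
      { j with
        commutes' := fun r => by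
          change j (algebraMap R (FractionRing (R ⧸ p)) r) = g (algebraMap R R' r)
          rw [IsScalarTower.algebraMap_apply R (R ⧸ p) (FractionRing (R ⧸ p)), hj]
          exact hh r }
    let g' : R' →ₐ[R] L := { g with commutes' := fun r => rfl }
    exact (Algebra.TensorProduct.productMap j' g').toRingHom.domain_nontrivial
  obtain ⟨m, hm⟩ := Ideal.exists_maximal (FractionRing (R ⧸ p) ⊗[R] R')
  let _ : Field ((FractionRing (R ⧸ p) ⊗[R] R') ⧸ m) := Ideal.Quotient.field m
  have hft : Algebra.FiniteType (FractionRing (R ⧸ p)) ((FractionRing (R ⧸ p) ⊗[R] R') ⧸ m) :=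
    inferInstance
  refine ⟨(FractionRing (R ⧸ p) ⊗[R] R') ⧸ m, inferInstance, inferInstance,
    finite_of_finite_type_of_isJacobsonRing _ _,
    (Ideal.Quotient.mk m).comp (Algebra.TensorProduct.includeRight.toRingHom), ?_⟩
  intro r
  change Ideal.Quotient.mk m (Algebra.TensorProduct.includeRight (algebraMap R R' r)) = _
  rw [AlgHom.commutes]
  change Ideal.Quotient.mk m (algebraMap R (FractionRing (R ⧸ p)) r ⊗ₜ 1) =
    Ideal.Quotient.mk m ((algebraMap (R ⧸ p) (FractionRing (R ⧸ p)) (Ideal.Quotient.mk p r)) ⊗ₜ 1)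
  rfl

end Pool.Agent.Helper21.TO

end CX
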