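import Mathlib
import Pool.Agent.Helper9.NS
import Pool.Agent.Helper40.CX.H21TO.Defs
import Pool.Agent.Helper40.CX.H21TO.Cs1
import Pool.Agent.Helper40.CX.H21TO.Cs2
import Pool.Agent.Helper40.CX.H21TO.Cs3
import Pool.Agent.Helper40.CX.Good2

namespace CX

/-!
# Block TO-Cs: curve selection
Take `g` from `cs2` (`R` is noetherian, being of finite type over a field, and `R'` is of finite
type over `R`: `Algebra.FiniteType.of_restrictScalars_finiteType`), `p` from `cs1` for this `g`, `P`
from `cs2`.
First case, `p = ker χ0`. `R ⧸ p ≃ k`, so (`cs3`) `K` is a finite extension of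
`Frac (R ⧸ p) ≃ k`, hence `≃ k`; or simpler: `R' ⧸ P` is a nonzero `k`-algebra of finite type, take a
maximal ideal `m ⊇ P`, `R' ⧸ m` is finite over the algebraically closed field `k`, so there is a
`k`-homomorphism `χ1 : R' → k` vanishing on `P`; it agrees with `χ0` on `R` as `r - χ0 r ∈ p`. Take
`K = RatFunc k` (`VF.ff_ratFunc`), `χ = algebraMap k K ∘ χ1`, `v` any place (`VC.exists_place`
with `VF.transcendental_ratX`).
Second case, `IsFunctionField k (Frac (R ⧸ p))`. Take `K`, `f` from `cs3`; `Algebra k K` by
composition, `IsFunctionField k K` by `VF.ff_ext`; `χ = f` is `k`-linear. Let `A ⊆ K` be the image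
subring of `R` (`Subring.map` or `RingHom.range`), and `J` the ideal of `A` which is the image of
`ker χ0`; `J ≠ ⊤`: otherwise `1 = f (algebraMap r)` with `χ0 r = 0`, so `1 - r ∈ p ≤ ker χ0`, a
contradiction. By `Ideal.image_subset_nonunits_valuationSubring` there is a valuation ring `B ⊇ A`
whose nonunits contain the image of `J`. `B ≠ ⊤`: if `p = ker χ0` we are in the first case,
otherwise there is `r` with `χ0 r = 0`, `r ∉ p`, its image is a nonzero nonunit. Constants:
`algebraMap k K c ∈ B` as `k ⊆ R`. So `B` is a place `v`, and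
`f (algebraMap r) - χ0 r = f (algebraMap (r - χ0 r)) ∈ nonunits`.
-/

set_option linter.unusedSectionVars false

namespace Pool.Agent.Helper21.TO

open VC VF Function Polynomial
open Pool.Agent.Helper51.EW (Wei WPt aff zeroPt)

universe u

variable {k : Type u} [Field k] [IsAlgClosed k] [CX.Good k]

theorem curve_selection {R R' : Type u} [CommRing R] [IsDomain R] [Algebra k R]
    [Algebra.FiniteType k R] [CommRing R'] [IsDomain R'] [Algebra k R'] [Algebra.FiniteType k R']
    [Algebra R R'] [IsScalarTower k R R'] (hinj : Injective (algebraMap R R'))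
    (χ0 : R →ₐ[k] k) :
    ∃ (K : Type u) (_ : Field K) (_ : Algebra k K) (_ : IsFunctionField k K)
      (χ : R' →ₐ[k] K) (v : Place k K), ∀ r : R, IsRes v (χ (algebraMap R R' r)) (χ0 r) := by
  classical
  have hft : Algebra.FiniteType R R' := Algebra.FiniteType.of_restrictScalars_finiteType k R R'
  have hnoeth : IsNoetherianRing R := Algebra.FiniteType.isNoetherianRing k R
  obtain ⟨g, hg, hg'⟩ := cs2 hinj
  obtain ⟨p, hp, hle, hgp, hcase⟩ := cs1 R χ0 g hg
  obtain ⟨P, hP, hcomap⟩ := hg' p hp hgp
  have hker : ∀ r : R, r - algebraMap k R (χ0 r) ∈ RingHom.ker (χ0 : R →+* k) := by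
    intro r
    rw [RingHom.mem_ker]
    change χ0 (r - algebraMap k R (χ0 r)) = 0
    rw [map_sub, AlgHom.commutes, Algebra.algebraMap_self, RingHom.id_apply, sub_self]
  by_cases hpk : p = RingHom.ker (χ0 : R →+* k)
  · -- first case: a constant morphism
    obtain ⟨m, hm, hPm⟩ := P.exists_le_maximal hP.ne_top
    let _ : Field (R' ⧸ m) := Ideal.Quotient.field m
    have hfin : Module.Finite k (R' ⧸ m) := finite_of_finite_type_of_isJacobsonRing k (R' ⧸ m)
    have halg : Algebra.IsAlgebraic k (R' ⧸ m) := Algebra.IsAlgebraic.of_finite k (R' ⧸ m)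
    let e : (R' ⧸ m) →ₐ[k] k := IsAlgClosed.lift
    let χ1 : R' →ₐ[k] k := e.comp (Ideal.Quotient.mkₐ k m)
    have hχ1 : ∀ r, χ1 (algebraMap R R' r) = χ0 r := by
      intro r
      have h1 : r - algebraMap k R (χ0 r) ∈ p := by
        rw [hpk]
        exact hker r
      have h2 : algebraMap R R' (r - algebraMap k R (χ0 r)) ∈ m :=
        hPm (by rw [← Ideal.mem_comap, hcomap]; exact h1)
      have h3 : χ1 (algebraMap R R' (r - algebraMap k R (χ0 r))) = 0 := by
        change e (Ideal.Quotient.mk m _) = 0
        rw [Ideal.Quotient.eq_zero_iff_mem.mpr h2, map_zero]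
      rw [map_sub, map_sub, ← IsScalarTower.algebraMap_apply, AlgHom.commutes, sub_eq_zero] at h3
      exact h3
    obtain ⟨v, _⟩ := exists_place (ff_ratFunc (k := k)) (transcendental_ratX (k := k))
    refine ⟨RatFunc k, inferInstance, inferInstance, ff_ratFunc,
      (Algebra.ofId k (RatFunc k)).comp χ1, v, ?_⟩
    intro r
    have h4 : ((Algebra.ofId k (RatFunc k)).comp χ1) (algebraMap R R' r) =
        algebraMap k (RatFunc k) (χ0 r) := by
      change algebraMap k (RatFunc k) (χ1 (algebraMap R R' r)) = _
      rw [hχ1]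
    rw [h4]
    exact isRes_const _
  · -- second case
    have hff := hcase.resolve_left hpk
    obtain ⟨K, iF, iA, iFin, f, hf⟩ := cs3 p P hcomap
    let iK : Algebra k K :=
      ((algebraMap (FractionRing (R ⧸ p)) K).comp (algebraMap k (FractionRing (R ⧸ p)))).toAlgebra
    have hT : IsScalarTower k (FractionRing (R ⧸ p)) K :=
      IsScalarTower.of_algebraMap_eq fun x => rfl
    have hK : IsFunctionField k K := ff_ext hff
    have hfk : ∀ c : k, f (algebraMap k R' c) = algebraMap k K c := by
      intro c
      rw [IsScalarTower.algebraMap_apply k R R', hf]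
      change _ = algebraMap (FractionRing (R ⧸ p)) K (algebraMap k (FractionRing (R ⧸ p)) c)
      rw [IsScalarTower.algebraMap_apply k (R ⧸ p) (FractionRing (R ⧸ p))]
      rfl
    let χ : R' →ₐ[k] K := { f with commutes' := hfk }
    let j : R →+* K := f.comp (algebraMap R R')
    have hj0 : ∀ r, j r = 0 → r ∈ p := by
      intro r hr
      have h1 : algebraMap (FractionRing (R ⧸ p)) K
        (algebraMap (R ⧸ p) (FractionRing (R ⧸ p)) (Ideal.Quotient.mk p r)) = 0 := by
        rw [← hf]
        exact hr
      rw [_root_.map_eq_zero] at h1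
      have h2 := IsFractionRing.injective (R ⧸ p) (FractionRing (R ⧸ p))
        (by rw [map_zero]; exact h1 : algebraMap (R ⧸ p) (FractionRing (R ⧸ p))
          (Ideal.Quotient.mk p r) = algebraMap (R ⧸ p) (FractionRing (R ⧸ p)) 0)
      exact Ideal.Quotient.eq_zero_iff_mem.mp h2
    have hJ : Ideal.map j.rangeRestrict (RingHom.ker (χ0 : R →+* k)) ≠ ⊤ := by
      intro h
      rw [Ideal.eq_top_iff_one,
        Ideal.mem_map_iff_of_surjective _ j.rangeRestrict_surjective] at h
      obtain ⟨r, hr, hr1⟩ := h
      have h1 : j r = 1 := congrArg Subtype.val hr1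
      have h2 : 1 - r ∈ p := by
        apply hj0
        rw [map_sub, map_one, h1, sub_self]
      have h3 := hle h2
      rw [RingHom.mem_ker, map_sub, map_one, RingHom.mem_ker.mp hr, sub_zero] at h3
      exact one_ne_zero h3
    obtain ⟨B, hAB, hJB⟩ := Ideal.image_subset_nonunits_valuationSubring _ hJ
    have hmem : ∀ r, j r ∈ B := fun r => hAB ⟨r, rfl⟩
    have hnon : ∀ r, χ0 r = 0 → j r ∈ B.nonunits := fun r hr =>
      hJB ⟨⟨j r, ⟨r, rfl⟩⟩, Ideal.mem_map_of_mem _ (RingHom.mem_ker.mpr hr), rfl⟩
    have htop : B ≠ ⊤ := by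
      have h0 : ∃ r, χ0 r = 0 ∧ r ∉ p := by
        by_contra hcon
        push Not at hcon
        exact hpk (le_antisymm hle fun r hr => hcon r hr)
      obtain ⟨r, hr0, hrp⟩ := h0
      intro htop
      have h1 := hnon r hr0
      rw [htop, ValuationSubring.mem_nonunits_iff_or] at h1
      rcases h1 with h1 | h1
      · exact hrp (hj0 r h1)
      · exact h1 (ValuationSubring.mem_top _)
    have hconst : ∀ c : k, algebraMap k K c ∈ B := by
      intro c
      have h1 := hmem (algebraMap k R c)
      have h2 : j (algebraMap k R c) = algebraMap k K c := by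
        change f (algebraMap R R' (algebraMap k R c)) = _
        rw [← IsScalarTower.algebraMap_apply, hfk]
      rwa [h2] at h1
    refine ⟨K, iF, iK, hK, χ, ⟨B, hconst, htop⟩, fun r => ?_⟩
    have h1 := hnon (r - algebraMap k R (χ0 r)) (RingHom.mem_ker.mp (hker r))
    have h2 : j (r - algebraMap k R (χ0 r)) = χ (algebraMap R R' r) - algebraMap k K (χ0 r) := by
      rw [map_sub]
      congr 1
      change f (algebraMap R R' (algebraMap k R (χ0 r))) = _
      rw [← IsScalarTower.algebraMap_apply, hfk]
    rw [h2] at h1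
    exact h1

end Pool.Agent.Helper21.TO

end CX
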