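import Mathlib
import Pool.Agent.Helper9.NS
import Pool.Agent.Helper40.CX.H21TO.Defs
import Pool.Agent.Helper40.CX.Good2

namespace CX

/-!
# Block TO-Hom: the homomorphism given by a point of the closure
`MvPolynomial (Fin M) k → Ω`, `X i ↦ g i / g j`, has the image `Algebra.adjoin k (range ..)`
(`Algebra.adjoin_range_eq_range_aeval`). If `F (g / g j) = 0` then `F (x) = 0`: let `F_d` be the
homogeneous components of `F` (`MvPolynomial.sum_homogeneousComponent`), `n = totalDegree`, and
`F' = ∑_d F_d * X j ^ (n - d)`, homogeneous of degree `n`. `F' (g) = ∑ F_d (g) (g j) ^ (n - d) =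
(g j) ^ n ∑ F_d (g / g j) = (g j) ^ n F (g / g j) = 0` (`F_d (g / g j) = F_d (g) / (g j) ^ d`:
`aeval_smul'` in Defs). So `0 = F' (x) = ∑ F_d (x) = F (x)` as `x j = 1`. So evaluation at `x`
factors over the image (`AlgHom.liftOfSurjective`, or `Ideal.Quotient.liftₐ`, or
`RingHom.liftOfRightInverse`).
-/

set_option linter.unusedSectionVars false

namespace Pool.Agent.Helper21.TO

open VC VF Function Polynomial
open Pool.Agent.Helper51.EW (Wei WPt aff zeroPt)

universe u

variable {k : Type u} [Field k]

private theorem homog_aeval {K : Type u} [Field K] [Algebra k K] {M : ℕ} {a g : Fin M → K} {j : Fin M} {c : K} (hg : ∀ i, g i = c * a i)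
    (hj : g j = c) (F : MvPolynomial (Fin M) k) :
    MvPolynomial.aeval g (∑ d ∈ Finset.range (F.totalDegree + 1),
      MvPolynomial.homogeneousComponent d F * (MvPolynomial.X j) ^ (F.totalDegree - d)) =
      c ^ F.totalDegree * MvPolynomial.aeval a F := by
  have h0 : g = fun i => c * a i := funext hg
  have hs : MvPolynomial.aeval a F = ∑ d ∈ Finset.range (F.totalDegree + 1),
      MvPolynomial.aeval a (MvPolynomial.homogeneousComponent d F) := by
    rw [← map_sum, MvPolynomial.sum_homogeneousComponent]
  rw [hs, map_sum, Finset.mul_sum]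
  refine Finset.sum_congr rfl fun d hd => ?_
  have hd' : d ≤ F.totalDegree := by
    have := Finset.mem_range.1 hd
    omega
  rw [map_mul, map_pow, MvPolynomial.aeval_X, hj]
  conv_lhs => rw [h0]
  rw [aeval_smul' (MvPolynomial.homogeneousComponent_isHomogeneous d F)]
  have h1 : c ^ F.totalDegree = c ^ d * c ^ (F.totalDegree - d) := by
    rw [← pow_add]
    congr 1
    omega
  rw [h1]
  ring

theorem exists_hom {Ω : Type u} [Field Ω] [Algebra k Ω] {M : ℕ} (g : Fin M → Ω) (j : Fin M)
    (hg : g j ≠ 0) (x : Fin M → k) (hx : x j = 1)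
    (h : ∀ (P : MvPolynomial (Fin M) k) (n : ℕ), P.IsHomogeneous n →
      MvPolynomial.aeval g P = 0 → MvPolynomial.aeval x P = 0) :
    ∃ χ : Algebra.adjoin k (Set.range (fun i => g i / g j)) →ₐ[k] k,
      ∀ i (hi : g i / g j ∈ Algebra.adjoin k (Set.range (fun i => g i / g j))),
        χ ⟨g i / g j, hi⟩ = x i := by
  have key : ∀ F : MvPolynomial (Fin M) k, MvPolynomial.aeval (fun i => g i / g j) F = 0 →
      MvPolynomial.aeval x F = 0 := by
    intro F hF
    have h1 := homog_aeval (a := fun i => g i / g j) (g := g) (j := j) (c := g j)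
      (fun i => (mul_div_cancel₀ (g i) hg).symm) rfl F
    have h2 := homog_aeval (a := x) (g := x) (j := j) (c := 1) (fun i => (one_mul _).symm) hx F
    rw [one_pow, one_mul] at h2
    rw [← h2]
    refine h _ F.totalDegree ?_ ?_
    · refine MvPolynomial.IsHomogeneous.sum _ _ _ fun d hd => ?_
      have hd' : d ≤ F.totalDegree := by
        have := Finset.mem_range.1 hd
        omega
      have h3 := (MvPolynomial.homogeneousComponent_isHomogeneous d F).mul
        ((MvPolynomial.isHomogeneous_X k j).pow (F.totalDegree - d))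
      rwa [one_mul, Nat.add_sub_cancel' hd'] at h3
    · rw [h1, hF, mul_zero]
  let f : MvPolynomial (Fin M) k →ₐ[k] Algebra.adjoin k (Set.range (fun i => g i / g j)) :=
    (MvPolynomial.aeval (fun i => g i / g j)).codRestrict _ (fun F => by
      rw [Algebra.adjoin_range_eq_range_aeval]
      exact ⟨F, rfl⟩)
  have hf : Function.Surjective f := by
    rintro ⟨y, hy⟩
    have hy' := hy
    rw [Algebra.adjoin_range_eq_range_aeval] at hy'
    obtain ⟨F, hF⟩ := hy'
    exact ⟨F, Subtype.ext hF⟩
  refine ⟨AlgHom.liftOfSurjective f hf (MvPolynomial.aeval x) (fun F hF => ?_), fun i hi => ?_⟩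
  · have h1 : f F = 0 := hF
    exact key F (congrArg Subtype.val h1)
  · have h1 : (⟨g i / g j, hi⟩ : Algebra.adjoin k (Set.range (fun i => g i / g j))) =
        f (MvPolynomial.X i) := by
      apply Subtype.ext
      change g i / g j = MvPolynomial.aeval (fun i => g i / g j) (MvPolynomial.X i)
      rw [MvPolynomial.aeval_X]
    rw [h1, AlgHom.liftOfSurjective_apply, MvPolynomial.aeval_X]

end Pool.Agent.Helper21.TO

end CX
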