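import Mathlib
import Pool.Agent.Helper9.NS
import Pool.Agent.Helper40.CX.H21TO.Defs
import Pool.Agent.Helper40.CX.H21TO.Defs2
import Pool.Agent.Helper40.CX.H21TO.Cs
import Pool.Agent.Helper40.CX.H21TO.Hom
import Pool.Agent.Helper40.CX.H21TO.Val
import Pool.Agent.Helper40.CX.H21TO.GoodHom
import Pool.Agent.Helper40.CX.Good2

namespace CX

/-!
# Block TO-GoodCurve: a curve through a point with almost all points good
`pt = ppt x0 _ _`, choose `j` with `x0 j ≠ 0` and scale so that `x0 j = 1`. `g = ev ι0 x y`, a vector in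
`Ω`. `g j ≠ 0`: otherwise the form `X j` is in `D.I` by `hI`, so `x0 j = 0`. By `exists_hom` (its hypothesis `h`
holds by `hI` and as `x0` satisfies the equations) there is `χ0 : R → k`, `R = adjoin k {g i / g j}`,
`χ0 (g i / g j) = x0 i`. Let `δ ∈ k[T]` be a nonzero polynomial vanishing on `Ex` and divisible by
`disc W (1, T)` (nonzero by `D.hΔ`), and `R' ⊆ Ω` the subalgebra generated by the `g i / g j`, `g j`,
`1 / g j`, `x`, `y`, `ι0 t`, `1 / ι0 (δ (t))`, and the images of the coefficients of the `p i`, `q i` (finitely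
many). It contains the `g i`. `R ≤ R'` are of finite type over `k` (`Subalgebra.fg_adjoin_of_finite`,
`Subalgebra.FG` ↔ `Algebra.FiniteType`), domains. `curve_selection` (with the inclusion
`Subalgebra.inclusion` as algebra structure) gives `K`, `χ : R' → K`, `v0`. The vector
`c i = χ (g i / g j)`, `c j = 1`, satisfies the equations: for a form `P ∈ D.I`,
`P (g) = 0` by `D.sat` (for `ι0`, `he`), so `P (g / g j) = 0` (`aeval_smul'`), apply `χ`. Its value at
`v0` is `pt` (`peval_eq`). Let `T` be the set of the places of `K` at which the image of one of the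
generators of `R'` is not regular, finite (`finite_support_ord`; the zero ones are regular). For
`w ∉ T` all of `χ (R')` is regular at `w` (`Algebra.adjoin_induction`), and taking residues gives
`χw : R' →ₐ[k] k` (`VF.exists_res`, unique). `χw (g j) ≠ 0` (`1 / g j ∈ R'`), `χw (δ (t)) = δ (t0) ≠ 0`. By
`good_of_hom`: `v`, `l`, `m`, `X0`, `Y0`, `b = mk X0 Y0`, `evt = χw (g i)`, which is nonzero and
proportional to the residues `χw (g i / g j)` of `c`. So `m.sp b` is the value of `c` at `w`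
(`Model.sp_good`, `peval_eq'` with the factor `χ (g j)` : `χ (g j) * c i = χ (g i)`).
-/

set_option linter.unusedSectionVars false

namespace Pool.Agent.Helper21.TO

open VC VF Function Polynomial
open Pool.Agent.Helper51.EW (Wei WPt aff zeroPt)

universe u

variable {k : Type u} [Field k] [IsAlgClosed k] [CX.Good k] {W : Wei k} {L : Type u} [Field L]
  [Algebra k L]

private lemma exists_reshom38 {K : Type u} [Field K] [Algebra k K] (hK : IsFunctionField k K)
    {A : Type u} [CommRing A] [Algebra k A] (χ : A →ₐ[k] K) (w : Place k K)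
    (h : ∀ z, χ z ∈ w.ring) : ∃ χw : A →ₐ[k] k, ∀ z, IsRes w (χ z) (χw z) := by
  choose f hf using fun z => VF.exists_res hK (h z)
  refine ⟨{ toFun := f, map_one' := ?_, map_mul' := ?_, map_zero' := ?_, map_add' := ?_,
            commutes' := ?_ }, hf⟩
  · exact (hf 1).unique (by rw [map_one]; exact isRes_one)
  · intro a b
    exact (hf (a * b)).unique (by rw [map_mul]; exact (hf a).mul (hf b))
  · exact (hf 0).unique (by rw [map_zero]; exact isRes_zero)
  · intro a b
    exact (hf (a + b)).unique (by rw [map_add]; exact (hf a).add (hf b))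
  · intro r
    exact (hf _).unique (by rw [AlgHom.commutes]; exact isRes_const r)

private lemma finite_poles38 {K : Type u} [Field K] [Algebra k K] (hK : IsFunctionField k K)
    (f : K) : {w : Place k K | f ∉ w.ring}.Finite := by
  by_cases hf : f = 0
  · subst hf
    have e : {w : Place k K | (0 : K) ∉ w.ring} = ∅ := by
      ext w
      simp only [Set.mem_ofPred_eq, Set.mem_empty_iff_false, iff_false, not_not]
      exact w.ring.zero_mem
    rw [e]
    exact Set.finite_empty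
  · refine (finite_support_ord hK hf).subset fun w hw h0 => hw ?_
    exact (ord_nonneg_iff hK w hf).mp h0.ge

private lemma aeval_poly38 (P : MvPolynomial (Fin 2) k) {F : Type u} [Field F] [Algebra k F]
    (t : F) : Polynomial.aeval t (MvPolynomial.aeval (![1, X] : Fin 2 → k[X]) P) =
      MvPolynomial.aeval ![1, t] P := by
  have h := MvPolynomial.comp_aeval_apply (R := k) (![1, X] : Fin 2 → k[X])
    (Polynomial.aeval t : k[X] →ₐ[k] F) P
  have e : (fun i => (Polynomial.aeval t : k[X] →ₐ[k] F) ((![1, X] : Fin 2 → k[X]) i)) =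
      ![1, t] := by
    funext i
    fin_cases i
    · simp
    · simp
  rw [e] at h
  exact h

private lemma disc_poly38 (W : Wei k) (t : L) (hΔ : 4 * cA W t ^ 3 + 27 * cB W t ^ 2 ≠ 0) :
    ∃ δ : k[X], δ ≠ 0 ∧ ∀ t0, Polynomial.aeval t0 δ = disc W ![1, t0] := by
  refine ⟨4 * (MvPolynomial.aeval (![1, X] : Fin 2 → k[X]) W.A) ^ 3 +
    27 * (MvPolynomial.aeval (![1, X] : Fin 2 → k[X]) W.B) ^ 2, ?_, ?_⟩
  · intro h0
    apply hΔ
    have h1 := congrArg (Polynomial.aeval t) h0
    simp only [map_add, map_mul, map_pow, map_zero, map_ofNat, aeval_poly38] at h1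
    exact h1
  · intro t0
    simp only [map_add, map_mul, map_pow, map_ofNat, aeval_poly38]
    rfl

private lemma finite_coeffs38 {Ω : Type u} [Field Ω] [Algebra k Ω] (ι0 : L →ₐ[k] Ω) {M : ℕ}
    (p : Fin M → L[X]) : (Set.range fun a : Fin M × ℕ => ι0 ((p a.1).coeff a.2)).Finite := by
  have h1 : (insert (0 : Ω) (⋃ i : Fin M, (fun n => ι0 ((p i).coeff n)) ''
      ((p i).support : Set ℕ))).Finite :=
    (Set.finite_iUnion fun i => ((p i).support.finite_toSet).image _).insert 0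
  refine h1.subset ?_
  rintro _ ⟨⟨i, n⟩, rfl⟩
  by_cases hn : (p i).coeff n = 0
  · left
    simp only [hn, map_zero]
  · right
    exact Set.mem_iUnion.mpr ⟨i, n, Polynomial.mem_support_iff.mpr hn, rfl⟩

private lemma good_curve38 (D : Dat W L) {Ω : Type u} [Field Ω] [Algebra k Ω] (ι0 : L →ₐ[k] Ω)
    (x y : Ω) (he : y ^ 2 = x ^ 3 + ι0 D.a * x + ι0 D.b)
    (hI : ∀ (P : MvPolynomial (Fin D.M) k) (n : ℕ), P.IsHomogeneous n →
      MvPolynomial.aeval (ev D.p D.q ι0 x y) P = 0 → P ∈ D.I)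
    (Ex : Set k) (hE : Ex.Finite) (x0 : Fin D.M → k) (hx0 : x0 ≠ 0) (hx0s : Sat D.I x0)
    (j : Fin D.M) (hx0j : x0 j = 1) :
    ∃ (K : Type u) (_ : Field K) (_ : Algebra k K) (hK : IsFunctionField k K) (c : D.S.Mor K)
      (v0 : Place k K) (T : Set (Place k K)), D.S.eval hK c v0 = ppt x0 hx0 hx0s ∧ T.Finite ∧
      ∀ w ∉ T, ∃ (t0 : k) (v : Place k L) (l : L) (_ : Base D v l ![1, t0])
        (m : Model D v (l ^ W.N) (MvPolynomial.aeval ![1, t0] W.A)
          (MvPolynomial.aeval ![1, t0] W.B))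
        (b : EPt (MvPolynomial.aeval ![1, t0] W.A) (MvPolynomial.aeval ![1, t0] W.B)),
        t0 ∉ Ex ∧ m.Good b ∧ Finsupp.single (D.S.eval hK c w) 1 = m.sp b := by
  obtain ⟨δ1, hδ1, hδ1e⟩ := disc_poly38 W D.t D.hΔ
  set g : Fin D.M → Ω := ev D.p D.q ι0 x y with hg
  have hgs : Sat D.I g := D.sat Ω ι0 x y he
  have hgj : g j ≠ 0 := by
    intro h0
    have h1 : (MvPolynomial.X j : MvPolynomial (Fin D.M) k) ∈ D.I :=
      hI _ 1 (MvPolynomial.isHomogeneous_X k j) (by rw [MvPolynomial.aeval_X]; exact h0)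
    have h2 := hx0s _ h1 1 (MvPolynomial.isHomogeneous_X k j)
    rw [MvPolynomial.aeval_X, hx0j] at h2
    exact one_ne_zero h2
  obtain ⟨R, hR, χ0, hχ0⟩ : ∃ R : Subalgebra k Ω,
      R = Algebra.adjoin k (Set.range fun i => g i / g j) ∧ ∃ χ : R →ₐ[k] k,
        ∀ i (hi : g i / g j ∈ R), χ ⟨g i / g j, hi⟩ = x0 i :=
    ⟨_, rfl, exists_hom g j hgj x0 hx0j (fun P n hn h0 => hx0s P (hI P n hn h0) n hn)⟩
  -- the polynomial
  set δ : k[X] := δ1 * ∏ e ∈ hE.toFinset, (X - C e) with hδ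
  have hδ0 : δ ≠ 0 := mul_ne_zero hδ1 (Finset.prod_ne_zero_iff.mpr fun e _ => X_sub_C_ne_zero e)
  have hδt : ι0 (Polynomial.aeval D.t δ) ≠ 0 := by
    intro h0
    have h1 : Polynomial.aeval D.t δ = 0 := (_root_.map_eq_zero ι0).mp h0
    exact hδ0 ((transcendental_iff.mp D.ht) δ h1)
  -- the generators
  set G : Set Ω := (Set.range fun i => g i / g j) ∪
    (({g j, (g j)⁻¹, x, y, ι0 D.t, (ι0 (Polynomial.aeval D.t δ))⁻¹} : Set Ω) ∪
    ((Set.range fun a : Fin D.M × ℕ => ι0 ((D.p a.1).coeff a.2)) ∪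
      (Set.range fun a : Fin D.M × ℕ => ι0 ((D.q a.1).coeff a.2)))) with hGdef
  have hG : G.Finite := by
    refine (Set.finite_range _).union ((Set.toFinite _).union
      ((finite_coeffs38 ι0 D.p).union (finite_coeffs38 ι0 D.q)))
  have hGr : ∀ i, g i / g j ∈ G := fun i => Or.inl ⟨i, rfl⟩
  have hGj : g j ∈ G := Or.inr (Or.inl (by simp))
  have hGj' : (g j)⁻¹ ∈ G := Or.inr (Or.inl (by simp))
  have hGx : x ∈ G := Or.inr (Or.inl (by simp))
  have hGy : y ∈ G := Or.inr (Or.inl (by simp))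
  have hGt : ι0 D.t ∈ G := Or.inr (Or.inl (by simp))
  have hGδ : (ι0 (Polynomial.aeval D.t δ))⁻¹ ∈ G := Or.inr (Or.inl (by simp))
  have hGp : ∀ i n, ι0 ((D.p i).coeff n) ∈ G := fun i n => Or.inr (Or.inr (Or.inl ⟨(i, n), rfl⟩))
  have hGq : ∀ i n, ι0 ((D.q i).coeff n) ∈ G := fun i n => Or.inr (Or.inr (Or.inr ⟨(i, n), rfl⟩))
  clear_value G
  set R' : Subalgebra k Ω := Algebra.adjoin k G with hR'
  have hsub : ∀ z, z ∈ G → z ∈ R' := fun z hz => Algebra.subset_adjoin hz
  have f1 : Algebra.FiniteType k R' :=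
    (Subalgebra.fg_iff_finiteType _).mp (Subalgebra.fg_def.mpr ⟨G, hG, rfl⟩)
  have f2 : Algebra.FiniteType k R :=
    (Subalgebra.fg_iff_finiteType _).mp (Subalgebra.fg_def.mpr ⟨_, Set.finite_range _, hR.symm⟩)
  have hRR : R ≤ R' := by
    rw [hR]
    exact Algebra.adjoin_mono (by rintro _ ⟨i, rfl⟩; exact hGr i)
  let _ : Algebra R R' := (Subalgebra.inclusion hRR).toRingHom.toAlgebra
  have _ : IsScalarTower k R R' := IsScalarTower.of_algebraMap_eq (fun r => rfl)
  have hinj : Injective (algebraMap R R') := Subalgebra.inclusion_injective hRR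
  obtain ⟨K, iK, iA, hK, χ, v0, hv0⟩ := curve_selection hinj χ0
  -- the vector
  have hrR : ∀ i, g i / g j ∈ R := fun i => by
    rw [hR]
    exact Algebra.subset_adjoin ⟨i, rfl⟩
  let r : Fin D.M → R' := fun i => ⟨g i / g j, hsub _ (hGr i)⟩
  have hgR : ∀ i, g i ∈ R' := fun i => by
    have h1 := R'.mul_mem (hsub _ (hGr i)) (hsub _ hGj)
    rwa [div_mul_cancel₀ _ hgj] at h1
  let c : Fin D.M → K := fun i => χ (r i)
  have hr0 : ∀ P ∈ D.I, ∀ n, P.IsHomogeneous n → MvPolynomial.aeval r P = 0 := by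
    intro P hP n hn
    apply Subtype.ext
    have h1 := MvPolynomial.comp_aeval_apply (R := k) r R'.val P
    have h2 := (hgs.smul (g j)⁻¹) P hP n hn
    have h3 : (fun i => R'.val (r i)) = fun i => (g j)⁻¹ * g i := by
      funext i
      change g i / g j = _
      rw [div_eq_inv_mul]
    rw [h3, h2] at h1
    exact h1
  have hcs : Sat D.I c := by
    intro P hP n hn
    have h1 := MvPolynomial.comp_aeval_apply (R := k) r χ P
    rw [hr0 P hP n hn, map_zero] at h1
    exact h1.symm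
  have hrj : r j = 1 := Subtype.ext (div_self hgj)
  have hcj : c j = 1 := by
    change χ (r j) = 1
    rw [hrj, map_one]
  have hc : c ≠ 0 := by
    intro h0
    have h1 := congrFun h0 j
    rw [hcj] at h1
    exact one_ne_zero h1
  have _ : Finite G := hG.to_subtype
  refine ⟨K, iK, iA, hK, ppt c hc hcs, v0,
    ⋃ z : G, {w : Place k K | χ ⟨z.1, hsub z.1 z.2⟩ ∉ w.ring}, ?_, ?_, ?_⟩
  · refine peval_eq hK v0 hc hcs hx0 hx0s (fun i => ?_)
    have h1 := hv0 ⟨g i / g j, hrR i⟩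
    rw [hχ0 i (hrR i)] at h1
    exact h1
  · exact Set.finite_iUnion fun z => finite_poles38 hK _
  · intro w hw
    have hreg : ∀ z (hz : z ∈ G), χ ⟨z, hsub z hz⟩ ∈ w.ring := by
      intro z hz
      by_contra h0
      exact hw (Set.mem_iUnion.mpr ⟨⟨z, hz⟩, h0⟩)
    have hall : ∀ z : R', χ z ∈ w.ring := by
      rintro ⟨z, hz⟩
      induction hz using Algebra.adjoin_induction with
      | mem z hz => exact hreg z hz
      | algebraMap s =>
        have h1 : χ (algebraMap k R' s) ∈ w.ring := by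
          rw [AlgHom.commutes]
          exact w.algebraMap_mem s
        exact h1
      | add a b ha hb h1 h2 =>
        have h3 : (⟨a + b, add_mem ha hb⟩ : R') = ⟨a, ha⟩ + ⟨b, hb⟩ := rfl
        rw [h3, map_add]
        exact w.ring.add_mem _ _ h1 h2
      | mul a b ha hb h1 h2 =>
        have h3 : (⟨a * b, mul_mem ha hb⟩ : R') = ⟨a, ha⟩ * ⟨b, hb⟩ := rfl
        rw [h3, map_mul]
        exact w.ring.mul_mem _ _ h1 h2
    obtain ⟨χw, hχw⟩ := exists_reshom38 hK χ w hall
    have hwj : χw ⟨g j, hgR j⟩ ≠ 0 := by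
      intro h0
      have h1 : (⟨g j, hgR j⟩ : R') * ⟨(g j)⁻¹, hsub _ hGj'⟩ = 1 :=
        Subtype.ext (mul_inv_cancel₀ hgj)
      have h2 := congrArg χw h1
      rw [map_mul, h0, zero_mul, map_one] at h2
      exact zero_ne_one h2
    have hwδ : Polynomial.aeval (χw ⟨ι0 D.t, hsub _ hGt⟩) δ ≠ 0 := by
      intro h0
      have h1 : (Polynomial.aeval (⟨ι0 D.t, hsub _ hGt⟩ : R') δ) *
          ⟨(ι0 (Polynomial.aeval D.t δ))⁻¹, hsub _ hGδ⟩ = 1 := by
        apply Subtype.ext
        have h2 : R'.val (Polynomial.aeval (⟨ι0 D.t, hsub _ hGt⟩ : R') δ) =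
            ι0 (Polynomial.aeval D.t δ) := by
          rw [← Polynomial.aeval_algHom_apply, ← Polynomial.aeval_algHom_apply]
          rfl
        change R'.val (Polynomial.aeval (⟨ι0 D.t, hsub _ hGt⟩ : R') δ) *
          (ι0 (Polynomial.aeval D.t δ))⁻¹ = 1
        rw [h2]
        exact mul_inv_cancel₀ hδt
      have h3 := congrArg χw h1
      rw [map_mul, ← Polynomial.aeval_algHom_apply, h0, zero_mul, map_one] at h3
      exact zero_ne_one h3
    rw [hδ, map_mul, map_prod] at hwδ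
    have hd : disc W ![1, χw ⟨ι0 D.t, hsub _ hGt⟩] ≠ 0 := by
      rw [← hδ1e]
      exact left_ne_zero_of_mul hwδ
    have hEx : χw ⟨ι0 D.t, hsub _ hGt⟩ ∉ Ex := by
      intro h0
      have h1 := Finset.prod_ne_zero_iff.mp (right_ne_zero_of_mul hwδ) _
        (hE.mem_toFinset.mpr h0)
      apply h1
      simp
    obtain ⟨v, l, hb, m, X0, Y0, hns, hev⟩ := good_of_hom D ι0 x y he R' (hsub _ hGx)
      (hsub _ hGy) (hsub _ hGt) (fun i n => hsub _ (hGp i n)) (fun i n => hsub _ (hGq i n)) hgR χw j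
      hwj hd
    have hne : m.evt X0 Y0 ≠ 0 := by
      intro h0
      apply hwj
      rw [← hev j, h0]
      rfl
    obtain ⟨hs, hsp⟩ := m.sp_good (h := hns) hne
    refine ⟨_, v, l, hb, m, EPt.mk X0 Y0 hns, hEx, hne, ?_⟩
    rw [hsp]
    have h5 : D.S.eval hK (ppt c hc hcs) w = ppt (m.evt X0 Y0) hne hs := by
      refine peval_eq' hK w hc hcs hne hs (χ ⟨g j, hgR j⟩) (fun i => ?_)
      rw [hev i]
      have h6 : χ ⟨g j, hgR j⟩ * c i = χ ⟨g i, hgR i⟩ := by
        change χ ⟨g j, hgR j⟩ * χ (r i) = _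
        rw [← map_mul]
        congr 1
        exact Subtype.ext (mul_div_cancel₀ _ hgj)
      rw [h6]
      exact hχw _
    rw [h5]

theorem good_curve (D : Dat W L) {Ω : Type u} [Field Ω] [Algebra k Ω] (ι0 : L →ₐ[k] Ω)
    (x y : Ω) (he : y ^ 2 = x ^ 3 + ι0 D.a * x + ι0 D.b)
    (hI : ∀ (P : MvPolynomial (Fin D.M) k) (n : ℕ), P.IsHomogeneous n →
      MvPolynomial.aeval (ev D.p D.q ι0 x y) P = 0 → P ∈ D.I)
    (Ex : Set k) (hE : Ex.Finite) (pt : D.S.Pt) :
    ∃ (K : Type u) (_ : Field K) (_ : Algebra k K) (hK : IsFunctionField k K) (c : D.S.Mor K)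
      (v0 : Place k K) (T : Set (Place k K)), D.S.eval hK c v0 = pt ∧ T.Finite ∧
      ∀ w ∉ T, ∃ (t0 : k) (v : Place k L) (l : L) (_ : Base D v l ![1, t0])
        (m : Model D v (l ^ W.N) (MvPolynomial.aeval ![1, t0] W.A)
          (MvPolynomial.aeval ![1, t0] W.B))
        (b : EPt (MvPolynomial.aeval ![1, t0] W.A) (MvPolynomial.aeval ![1, t0] W.B)),
        t0 ∉ Ex ∧ m.Good b ∧ Finsupp.single (D.S.eval hK c w) 1 = m.sp b := by
  obtain ⟨a0, ha0, hs0, rfl⟩ := exists_ppt pt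
  obtain ⟨j, hj⟩ := Function.ne_iff.mp ha0
  have hj' : a0 j ≠ 0 := hj
  have hx0s : Sat D.I (fun i => (a0 j)⁻¹ * a0 i) := hs0.smul _
  have hx0j : (a0 j)⁻¹ * a0 j = 1 := inv_mul_cancel₀ hj'
  have hx0 : (fun i => (a0 j)⁻¹ * a0 i) ≠ 0 := fun h => by
    have h1 := congrFun h j
    simp only [hx0j] at h1
    exact one_ne_zero h1
  have e0 : ppt a0 ha0 hs0 = ppt (fun i => (a0 j)⁻¹ * a0 i) hx0 hx0s :=
    ppt_eq_of_cross (fun i l => by ring)
  rw [e0]
  exact good_curve38 D ι0 x y he hI Ex hE _ hx0 hx0s j hx0j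

end Pool.Agent.Helper21.TO

end CX
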